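import Pool.Agent.H88.HW.Defs

open MeasureTheory ProbabilityTheory Filter Set
open scoped ENNReal NNReal Topology

namespace Pool.Agent.H88.HW

section general

variable {Ω : Type*} {m0 : MeasurableSpace Ω} {P : Measure Ω} [IsProbabilityMeasure P]

/-- Pairing a martingale with a random variable known at time `u`. -/
lemma mart_pair {ℱ : Filtration ℝ≥0 m0} {N : ℝ≥0 → Ω → ℝ} (hN : Martingale N ℱ P)
    {u u' : ℝ≥0} (huu' : u ≤ u') {ξ : Ω → ℝ} (hξ : StronglyMeasurable[ℱ u] ξ)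
    (hint : Integrable (fun ω => ξ ω * N u' ω) P) :
    ∫ ω, ξ ω * N u' ω ∂P = ∫ ω, ξ ω * N u ω ∂P := by
  have h1 : P[fun ω => ξ ω * N u' ω | ℱ u] =ᵐ[P] fun ω => ξ ω * P[N u' | ℱ u] ω :=
    condExp_mul_of_stronglyMeasurable_left hξ hint (hN.integrable u')
  rw [← integral_condExp (ℱ.le u)]
  apply integral_congr_ae
  filter_upwards [h1, hN.condExp_ae_eq huu'] with ω h1 h2
  rw [h1, h2]

omit [IsProbabilityMeasure P] in
lemma integrable_bdd_mul {ξ f : Ω → ℝ} {C : ℝ} (hξ : AEStronglyMeasurable ξ P)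
    (hC : ∀ ω, |ξ ω| ≤ C) (hf : Integrable f P) : Integrable (fun ω => ξ ω * f ω) P :=
  hf.bdd_mul hξ (Eventually.of_forall fun ω => by simpa using hC ω)

lemma mart_pair_bdd {ℱ : Filtration ℝ≥0 m0} {N : ℝ≥0 → Ω → ℝ} (hN : Martingale N ℱ P)
    {u u' : ℝ≥0} (huu' : u ≤ u') {ξ : Ω → ℝ} (hξ : StronglyMeasurable[ℱ u] ξ) {C : ℝ}
    (hC : ∀ ω, |ξ ω| ≤ C) :
    ∫ ω, ξ ω * (N u' ω - N u ω) ∂P = 0 := by
  have hξ' : AEStronglyMeasurable ξ P := (hξ.mono (ℱ.le u)).aestronglyMeasurable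
  have i1 := integrable_bdd_mul hξ' hC (hN.integrable u')
  have i2 := integrable_bdd_mul hξ' hC (hN.integrable u)
  have := mart_pair hN huu' hξ i1
  simp only [mul_sub]
  rw [integral_sub i1 i2, this, sub_self]

end general

variable {β : ℝ} {ν : Measure ℝ} {n : ℕ} {x₀ : Fin n → ℝ} {Ω : Type*} [MeasurableSpace Ω]
  {P : Measure Ω} {X : ℝ≥0 → Ω → Fin n → ℝ}

namespace SolvesHW

/-- The compensated coordinate process. -/
def M (β : ℝ) (X : ℝ≥0 → Ω → Fin n → ℝ) (i : Fin n) (t : ℝ≥0) (ω : Ω) : ℝ := X t ω i - β * t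

/-- Occupation type integral. -/
noncomputable def occ (X : ℝ≥0 → Ω → Fin n → ℝ) (G : (Fin n → ℝ) → ℝ) (a b : ℝ) (ω : Ω) : ℝ :=
  ∫ r in a..b, G (X r.toNNReal ω)

/-- The natural filtration. -/
noncomputable def filt (h : SolvesHW β ν x₀ P X) : Filtration ℝ≥0 ‹MeasurableSpace Ω› :=
  Filtration.natural X h.measurable

lemma adapted (h : SolvesHW β ν x₀ P X) (t : ℝ≥0) : Measurable[h.filt t] (X t) :=
  (Filtration.stronglyAdapted_natural (u := X) h.measurable t).measurable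

lemma jointly (h : SolvesHW β ν x₀ P X) :
    Measurable (fun p : Ω × ℝ => X p.2.toNNReal p.1) := by
  have h1 : Measurable (Function.uncurry fun (ω : Ω) (t : ℝ≥0) => X t ω) := by
    have := measurable_uncurry_of_continuous_of_measurable (u := X) (fun ω => h.continuous ω)
      (fun t => (h.measurable t).measurable)
    exact this.comp measurable_swap
  exact h1.comp (measurable_fst.prodMk (measurable_real_toNNReal.comp measurable_snd))

lemma meas_time (h : SolvesHW β ν x₀ P X) (ω : Ω) :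
    Measurable (fun r : ℝ => X r.toNNReal ω) :=
  h.jointly.comp (measurable_const.prodMk measurable_id)

lemma intervalIntegrable_occ (h : SolvesHW β ν x₀ P X) {G : (Fin n → ℝ) → ℝ}
    (hG : Measurable G) {C : ℝ} (hC : ∀ x, |G x| ≤ C) (a b : ℝ) (ω : Ω) :
    IntervalIntegrable (fun r => G (X r.toNNReal ω)) volume a b := by
  rw [intervalIntegrable_iff]
  refine Measure.integrableOn_of_bounded (M := C) (by simp) ?_ ?_
  · exact (hG.comp (h.meas_time ω)).aestronglyMeasurable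
  · exact Eventually.of_forall fun r => by simpa using hC _

lemma occ_sub (h : SolvesHW β ν x₀ P X) {G : (Fin n → ℝ) → ℝ}
    (hG : Measurable G) {C : ℝ} (hC : ∀ x, |G x| ≤ C) (a b : ℝ) (ω : Ω) :
    occ X G 0 b ω - occ X G 0 a ω = occ X G a b ω := by
  unfold occ
  exact intervalIntegral.integral_interval_sub_left
    (h.intervalIntegrable_occ hG hC _ _ _) (h.intervalIntegrable_occ hG hC _ _ _)

omit [MeasurableSpace Ω] in
lemma abs_occ_le {G : (Fin n → ℝ) → ℝ}
    {C : ℝ} (hC : ∀ x, |G x| ≤ C) {a b : ℝ} (hab : a ≤ b) (ω : Ω) :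
    |occ X G a b ω| ≤ C * (b - a) := by
  unfold occ
  have := intervalIntegral.norm_integral_le_of_norm_le_const (a := a) (b := b)
    (f := fun r => G (X r.toNNReal ω)) (C := C) (fun r _ => by simpa using hC _)
  rwa [Real.norm_eq_abs, abs_of_nonneg (sub_nonneg.2 hab)] at this

lemma measurable_occ (h : SolvesHW β ν x₀ P X) {G : (Fin n → ℝ) → ℝ}
    (hG : Measurable G) {a b : ℝ} (hab : a ≤ b) :
    StronglyMeasurable (occ X G a b) := by
  have h1 : (occ X G a b) = fun ω => ∫ r in Ioc a b, G (X r.toNNReal ω) := by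
    ext ω
    rw [occ, intervalIntegral.integral_of_le hab]
  rw [h1]
  have h2 : StronglyMeasurable (Function.uncurry fun (ω : Ω) (r : ℝ) => G (X r.toNNReal ω)) :=
    (hG.comp h.jointly).stronglyMeasurable
  exact h2.integral_prod_right

lemma integrable_occ [IsProbabilityMeasure P] (h : SolvesHW β ν x₀ P X) {G : (Fin n → ℝ) → ℝ}
    (hG : Measurable G) {C : ℝ} (hC : ∀ x, |G x| ≤ C) {a b : ℝ} (hab : a ≤ b) :
    Integrable (occ X G a b) P := by
  refine Integrable.of_bound (h.measurable_occ hG hab).aestronglyMeasurable (C * (b - a)) ?_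
  exact Eventually.of_forall fun ω => by simpa using abs_occ_le hC hab ω

/-- The increment of a compensated functional, paired with a bounded weight. -/
lemma pair_increment [IsProbabilityMeasure P] (h : SolvesHW β ν x₀ P X) {N : ℝ≥0 → Ω → ℝ}
    (hNi : ∀ t, Integrable (N t) P)
    {G : (Fin n → ℝ) → ℝ} (hG : Measurable G) {C : ℝ} (hC : ∀ x, |G x| ≤ C)
    (hN : Martingale (fun (t : ℝ≥0) ω => N t ω - ∫ r in (0 : ℝ)..t, G (X r.toNNReal ω)) h.filt P)
    {u u' : ℝ≥0} (huu' : u ≤ u') {ξ : Ω → ℝ} (hξ : StronglyMeasurable[h.filt u] ξ) {C' : ℝ}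
    (hC' : ∀ ω, |ξ ω| ≤ C') :
    ∫ ω, ξ ω * (N u' ω - N u ω) ∂P = ∫ ω, ξ ω * occ X G u u' ω ∂P := by
  have huu'' : (u : ℝ) ≤ u' := by exact_mod_cast huu'
  have hξ' : AEStronglyMeasurable ξ P := (hξ.mono (h.filt.le u)).aestronglyMeasurable
  have h1 := mart_pair_bdd hN huu' hξ hC'
  have h2 : ∀ ω, ξ ω * ((N u' ω - ∫ r in (0 : ℝ)..u', G (X r.toNNReal ω)) -
      (N u ω - ∫ r in (0 : ℝ)..u, G (X r.toNNReal ω))) =
      ξ ω * (N u' ω - N u ω) - ξ ω * occ X G u u' ω := by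
    intro ω
    rw [← h.occ_sub hG hC]
    unfold occ
    ring
  simp only [h2] at h1
  rw [integral_sub] at h1
  · linarith
  · exact integrable_bdd_mul hξ' hC' ((hNi u').sub (hNi u))
  · exact integrable_bdd_mul hξ' hC' (h.integrable_occ hG hC huu'')

end SolvesHW

end Pool.Agent.H88.HW
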