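import Mathlib

/-!
The bump function used as a test function for the gap process.
-/

open Set

namespace Pool.Agent.H88.HW.Bump

/-- profile in the gap variable -/
def S (K x : ℝ) : ℝ := x * (1 + K * x) * (1 - x) ^ 3
/-- first derivative -/
def S1 (K x : ℝ) : ℝ := (1 + 2 * K * x) * (1 - x) ^ 3 - 3 * (x * (1 + K * x)) * (1 - x) ^ 2
/-- second derivative -/
def S2 (K x : ℝ) : ℝ :=
  2 * K * (1 - x) ^ 3 - 6 * (1 + 2 * K * x) * (1 - x) ^ 2 + 6 * (x * (1 + K * x)) * (1 - x)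
/-- profile in the midpoint variable -/
def q (m : ℝ) : ℝ := (1 - m ^ 2) ^ 3
/-- first derivative -/
def q1 (m : ℝ) : ℝ := -6 * m * (1 - m ^ 2) ^ 2
/-- second derivative -/
def q2 (m : ℝ) : ℝ := -6 * (1 - m ^ 2) ^ 2 + 24 * m ^ 2 * (1 - m ^ 2)

lemma q_ineq {b m : ℝ} (hb : 0 ≤ b) (hm : |m| ≤ 1) :
    b * |q1 m| ≤ (1 / 4) * q2 m + (8 + 6 * b) ^ 2 * q m := by
  have hm2 : m ^ 2 ≤ 1 := by
    rw [← sq_abs]; exact pow_le_one₀ (abs_nonneg _) hm
  set w := 1 - m ^ 2 with hw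
  have hw0 : 0 ≤ w := by linarith
  have hw1 : w ≤ 1 := by nlinarith [sq_nonneg m]
  have h1 : |q1 m| ≤ 6 * w ^ 2 := by
    unfold q1
    rw [← hw, abs_mul, abs_mul, abs_neg, abs_of_pos (by norm_num : (0:ℝ) < 6),
      abs_of_nonneg (sq_nonneg w)]
    nlinarith [sq_nonneg w, mul_le_mul_of_nonneg_right hm (sq_nonneg w)]
  have h2 : q2 m = -6 * w ^ 2 + 24 * (1 - w) * w := by
    unfold q2; rw [hw]; ring
  have h3 : q m = w ^ 3 := by unfold q; rw [hw]
  rw [h2, h3]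
  have h4 : b * |q1 m| ≤ b * (6 * w ^ 2) := mul_le_mul_of_nonneg_left h1 hb
  set c := 8 + 6 * b with hc
  have h5 : 0 ≤ w * ((c * w - 1 / 2) ^ 2 + 5 + w / 2) := by positivity
  nlinarith

/-- constant for the inequality satisfied by `S` -/
noncomputable def L1 (B K : ℝ) : ℝ := 4 * (12 * K + 2 * B * K + 3 * B) + 4 * B + (24 + 3 * B) ^ 2

lemma S_ineq_aux {B x y : ℝ} (hB : 0 ≤ B) (hx0 : 0 ≤ x) (hy : y = 1 - x) (hy0 : 0 ≤ y) :
    0 ≤ 2 * (B + 6) * y ^ 2 - 6 * (1 + 2 * (B + 6) * x) * y + 6 * (x * (1 + (B + 6) * x)) +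
      L1 B (B + 6) * (x * (1 + (B + 6) * x)) * y ^ 2 - B * (1 + 2 * (B + 6) * x) * y ^ 2 -
      3 * B * (x * (1 + (B + 6) * x)) * y := by
  set K := B + 6 with hK
  have hK0 : 0 < K := by linarith
  set p := x * (1 + K * x) with hp
  have hp0 : 0 ≤ p := by positivity
  have hpx : x ≤ p := by
    rw [hp]; nlinarith [mul_nonneg hK0.le (mul_nonneg hx0 hx0)]
  rcases le_total (1 / 2 : ℝ) x with hx | hx
  · -- x ≥ 1/2
    have h1 : 1 + 2 * K * x ≤ 4 * p := by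
      rw [hp]
      nlinarith [mul_nonneg hK0.le (mul_nonneg hx0 (sub_nonneg.2 hx))]
    have hy1 : y ≤ 1 := by linarith
    set c := 24 + 3 * B with hc
    have hL : L1 B K = 4 * (12 * K + 2 * B * K + 3 * B) + 4 * B + c ^ 2 := rfl
    have h2 : 0 ≤ (4 * (12 * K + 2 * B * K + 3 * B)) * p * y ^ 2 := by positivity
    have h3 : 6 * (1 + 2 * K * x) * y ≤ 24 * p * y := by nlinarith
    have h4 : B * (1 + 2 * K * x) * y ^ 2 ≤ 4 * B * p * y ^ 2 := by
      have := mul_le_mul_of_nonneg_left h1 (mul_nonneg hB (sq_nonneg y))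
      nlinarith
    have h5 : 0 ≤ p * ((c * y - 1 / 2) ^ 2 + 5) := by positivity
    have h6 : 0 ≤ 2 * K * y ^ 2 := by positivity
    rw [hL]
    nlinarith
  · -- x ≤ 1/2
    have hy2 : 1 / 2 ≤ y := by linarith
    have hy1 : y ≤ 1 := by linarith
    have h1 : 0 ≤ y * ((B + 12) * y - 6) := by
      apply mul_nonneg hy0
      nlinarith
    have hL : L1 B K = 4 * (12 * K + 2 * B * K + 3 * B) + (4 * B + (24 + 3 * B) ^ 2) := by
      unfold L1; ring
    have hy4 : 1 / 4 ≤ y ^ 2 := by nlinarith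
    have h2 : (12 * K + 2 * B * K + 3 * B) * p ≤ 4 * (12 * K + 2 * B * K + 3 * B) * p * y ^ 2 := by
      have : 0 ≤ (12 * K + 2 * B * K + 3 * B) * p := by positivity
      nlinarith
    have h3 : 0 ≤ (4 * B + (24 + 3 * B) ^ 2) * p * y ^ 2 := by positivity
    have h4 : 12 * K * x * y ≤ 12 * K * p := by
      have : 12 * K * x * y ≤ 12 * K * x * 1 := mul_le_mul_of_nonneg_left hy1 (by positivity)
      nlinarith [mul_le_mul_of_nonneg_left hpx (by positivity : 0 ≤ 12 * K)]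
    have hyy : y ^ 2 ≤ 1 := pow_le_one₀ hy0 hy1
    have h5 : 2 * B * K * x * y ^ 2 ≤ 2 * B * K * p := by
      have : 2 * B * K * x * y ^ 2 ≤ 2 * B * K * x * 1 :=
        mul_le_mul_of_nonneg_left hyy (by positivity)
      nlinarith [mul_le_mul_of_nonneg_left hpx (by positivity : 0 ≤ 2 * B * K)]
    have h6 : 3 * B * p * y ≤ 3 * B * p := by
      have : 3 * B * p * y ≤ 3 * B * p * 1 := mul_le_mul_of_nonneg_left hy1 (by positivity)
      linarith
    rw [hL]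
    have hKB : K = B + 6 := hK
    nlinarith

lemma S_ineq {B x : ℝ} (hB : 0 ≤ B) (hx0 : 0 ≤ x) (hx1 : x ≤ 1) :
    B * |S1 (B + 6) x| ≤ S2 (B + 6) x + L1 B (B + 6) * S (B + 6) x := by
  set K := B + 6 with hK
  have hK0 : 0 < K := by linarith
  set y := 1 - x with hy
  have hy0 : 0 ≤ y := by linarith
  have h1 : |S1 K x| ≤ (1 + 2 * K * x) * y ^ 3 + 3 * (x * (1 + K * x)) * y ^ 2 := by
    unfold S1
    rw [← hy]
    have h2 : 0 ≤ (1 + 2 * K * x) * y ^ 3 := by positivity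
    have h3 : 0 ≤ 3 * (x * (1 + K * x)) * y ^ 2 := by positivity
    rw [abs_le]
    constructor <;> linarith
  have h2 := S_ineq_aux hB hx0 hy hy0
  rw [← hK] at h2
  have h3 := mul_nonneg hy0 h2
  have h4 : B * |S1 K x| ≤ B * ((1 + 2 * K * x) * y ^ 3 + 3 * (x * (1 + K * x)) * y ^ 2) :=
    mul_le_mul_of_nonneg_left h1 hB
  have e : S2 K x + L1 B K * S K x - B * ((1 + 2 * K * x) * y ^ 3 + 3 * (x * (1 + K * x)) * y ^ 2)
      = y * (2 * K * y ^ 2 - 6 * (1 + 2 * K * x) * y + 6 * (x * (1 + K * x)) +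
      L1 B K * (x * (1 + K * x)) * y ^ 2 - B * (1 + 2 * K * x) * y ^ 2 -
      3 * B * (x * (1 + K * x)) * y) := by
    unfold S2 S
    rw [← hy]
    ring
  linarith

/-- the product inequality -/
lemma prod_ineq {b x m : ℝ} (hb : 0 ≤ b) (hx0 : 0 ≤ x) (hx1 : x ≤ 1) (hm : |m| ≤ 1) :
    -((L1 (3 + 2 * b) (3 + 2 * b + 6) + (8 + 6 * b) ^ 2) * (S (3 + 2 * b + 6) x * q m)) ≤
      S2 (3 + 2 * b + 6) x * q m + (1 / 4) * (S (3 + 2 * b + 6) x * q2 m) -
      (3 + 2 * b) * |S1 (3 + 2 * b + 6) x * q m| - b * |S (3 + 2 * b + 6) x * q1 m| := by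
  have h1 := S_ineq (B := 3 + 2 * b) (by positivity) hx0 hx1
  have h2 := q_ineq hb hm
  set K := 3 + 2 * b + 6 with hK
  have hK0 : 0 < K := by positivity
  have hq : 0 ≤ q m := by
    unfold q
    have : m ^ 2 ≤ 1 := by
      rw [← sq_abs]; exact pow_le_one₀ (abs_nonneg _) hm
    have : 0 ≤ 1 - m ^ 2 := by linarith
    positivity
  have hS : 0 ≤ S K x := by
    unfold S
    have : 0 ≤ 1 - x := by linarith
    positivity
  rw [abs_mul, abs_mul, abs_of_nonneg hq, abs_of_nonneg hS]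
  nlinarith [mul_le_mul_of_nonneg_right h1 hq, mul_le_mul_of_nonneg_left h2 hS]

end Pool.Agent.H88.HW.Bump
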