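import Mathlib

/-!
# Stochastic flows of kernels and the Howitt-Warren martingale problem

Definitions used to state results on Howitt-Warren flows.
-/

open MeasureTheory ProbabilityTheory Filter Set
open scoped ENNReal NNReal Topology

namespace Pool.Agent.H88.HW

/-- `β₊(1) = β` and `β₊(m) = β + 2 ∫ ν(dq) ∑_{k=0}^{m-2} (1-q)^k` for `m ≥ 2`. -/
noncomputable def betaPlus (β : ℝ) (ν : Measure ℝ) (m : ℕ) : ℝ :=
  β + 2 * ∫ q, ∑ k ∈ Finset.range (m - 1), (1 - q) ^ k ∂ν

/-- `f_Δ(x) = max_{i ∈ Δ} x_i`. -/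
noncomputable def fMax {n : ℕ} (Δ : Finset (Fin n)) (hΔ : Δ.Nonempty) (x : Fin n → ℝ) : ℝ :=
  Δ.sup' hΔ x

/-- `g_Δ(x) = |{i ∈ Δ : x_i = f_Δ(x)}|`. -/
noncomputable def gCount {n : ℕ} (Δ : Finset (Fin n)) (hΔ : Δ.Nonempty) (x : Fin n → ℝ) : ℕ :=
  (Δ.filter fun i => x i = fMax Δ hΔ x).card

/-- The process `X = (X_1, ..., X_n)` on the probability space `(Ω, P)` solves the Howitt-Warren
martingale problem with drift `β` and characteristic measure `ν`, with initial condition `x₀`. -/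
structure SolvesHW (β : ℝ) (ν : Measure ℝ) {n : ℕ} (x₀ : Fin n → ℝ) {Ω : Type*}
    [MeasurableSpace Ω] (P : Measure Ω) (X : ℝ≥0 → Ω → Fin n → ℝ) : Prop where
  /-- each `X(t)` is a random variable -/
  measurable : ∀ t, StronglyMeasurable (X t)
  /-- continuous paths -/
  continuous : ∀ ω, Continuous fun t => X t ω
  /-- initial condition -/
  start : ∀ᵐ ω ∂P, X 0 ω = x₀
  /-- square integrability -/
  sqInt : ∀ t i, MemLp (fun ω => X t ω i) 2 P
  /-- `⟨X_i, X_j⟩(t) = ∫_0^t 1_{X_i(s) = X_j(s)} ds`. Since `X_i(t) - β t` is a square integrable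
  martingale (this is `max_martingale` for `Δ = {i}`), the bracket is characterized by:
  `(X_i(t) - β t)(X_j(t) - β t) - ⟨X_i, X_j⟩(t)` is a martingale. -/
  covariation : ∀ i j : Fin n, Martingale
    (fun (t : ℝ≥0) ω => (X t ω i - β * t) * (X t ω j - β * t) -
      ∫ s in (0 : ℝ)..t, if X s.toNNReal ω i = X s.toNNReal ω j then (1 : ℝ) else 0)
    (Filtration.natural X measurable) P
  /-- for each nonempty `Δ`, `f_Δ(X(t)) - ∫_0^t β₊(g_Δ(X(s))) ds` is a martingale for the natural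
  filtration of `X` -/
  max_martingale : ∀ (Δ : Finset (Fin n)) (hΔ : Δ.Nonempty), Martingale
    (fun (t : ℝ≥0) ω => fMax Δ hΔ (X t ω) -
      ∫ s in (0 : ℝ)..t, betaPlus β ν (gCount Δ hΔ (X s.toNNReal ω)))
    (Filtration.natural X measurable) P

/-- The σ-algebra generated by a random kernel: the smallest one making all the random measures
`K(x, ·)` measurable. -/
@[reducible] def kernelSigma {Ω : Type*} (K : Ω → ℝ → Measure ℝ) : MeasurableSpace Ω :=
  ⨆ x : ℝ, MeasurableSpace.comap (fun ω => K ω x) inferInstance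

/-- A stochastic flow of kernels on `ℝ`. -/
structure IsStochasticFlowOfKernels {Ω : Type*} [MeasurableSpace Ω] (P : Measure Ω)
    (K : ℝ → ℝ → Ω → ℝ → Measure ℝ) : Prop where
  /-- `K_{s,t}(x, ·)` is a probability measure -/
  prob : ∀ s t, s ≤ t → ∀ ω x, IsProbabilityMeasure (K s t ω x)
  /-- `K_{s,t}` is a random kernel: it depends measurably on `(ω, x)` -/
  measurable : ∀ s t, s ≤ t → Measurable fun p : Ω × ℝ => K s t p.1 p.2
  /-- `K_{s,s}(x, ·) = δ_x` almost surely -/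
  self : ∀ s x, ∀ᵐ ω ∂P, K s s ω x = Measure.dirac x
  /-- `∫ K_{s,t}(x, dy) K_{t,u}(y, A) = K_{s,u}(x, A)` for all Borel `A`, almost surely -/
  comp : ∀ s t u, s ≤ t → t ≤ u → ∀ x, ∀ᵐ ω ∂P, ∀ A, MeasurableSet A →
    ∫⁻ y, K t u ω y A ∂(K s t ω x) = K s u ω x A
  /-- kernels attached to successive disjoint time intervals are independent -/
  indep : ∀ (m : ℕ) (t : Fin (m + 1) → ℝ), Monotone t →
    iIndep (fun i : Fin m => kernelSigma (K (t i.castSucc) (t i.succ))) P
  /-- `K_{s,t}` and `K_{s+u,t+u}` have the same finite-dimensional distributions -/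
  stationary : ∀ s t u, s ≤ t → ∀ (m : ℕ) (x : Fin m → ℝ),
    IdentDistrib (fun ω i => K s t ω (x i)) (fun ω i => K (s + u) (t + u) ω (x i)) P P

/-- `K` is a Howitt-Warren flow with drift `β` and characteristic measure `ν`: a stochastic flow of
kernels whose `n`-point motions solve the Howitt-Warren martingale problem. -/
structure IsHowittWarrenFlow (β : ℝ) (ν : Measure ℝ) {Ω : Type*} [MeasurableSpace Ω]
    (P : Measure Ω) (K : ℝ → ℝ → Ω → ℝ → Measure ℝ) : Prop
    extends IsStochasticFlowOfKernels P K where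
  /-- for all `n` and all starting points `x`, the process with
  `P(X_i(t) ∈ A_i for all i) = E ∏_i K_{0,t}(x_i, A_i)` solves the martingale problem -/
  nPoint : ∀ (n : ℕ) (x : Fin n → ℝ), ∃ (Ω' : Type) (_ : MeasurableSpace Ω') (P' : Measure Ω')
    (_ : IsProbabilityMeasure P') (X : ℝ≥0 → Ω' → Fin n → ℝ),
    SolvesHW β ν x P' X ∧
    ∀ (t : ℝ≥0) (A : Fin n → Set ℝ), (∀ i, MeasurableSet (A i)) →
      P' {ω | ∀ i, X t ω i ∈ A i} = ∫⁻ ω, ∏ i, K 0 t ω (x i) (A i) ∂P

/-- The extended real random variable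
`(-log K_{0,t}(0, [tx, tx+1]) - m(t)) / s(t)`; here `log 0 = -∞`. -/
noncomputable def rescaled {Ω : Type*} (K : ℝ → ℝ → Ω → ℝ → Measure ℝ) (x : ℝ) (m s : ℝ≥0 → ℝ)
    (t : ℝ≥0) (ω : Ω) : EReal :=
  (-ENNReal.log (K 0 t ω 0 (Icc (t * x) (t * x + 1))) - (m t : EReal)) / (s t : EReal)

end Pool.Agent.H88.HW
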