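import Mathlib

/-!
Uniform integrability of sums of squared increments of a square integrable martingale.
-/

open MeasureTheory ProbabilityTheory Filter Set
open scoped ENNReal NNReal Topology

namespace Pool.Agent.H88.HW.UI

variable {Ω : Type*} {m0 : MeasurableSpace Ω} {P : Measure Ω} [IsProbabilityMeasure P]

/-- essentially bounded -/
def Bd (P : Measure Ω) (f : Ω → ℝ) : Prop :=
  AEStronglyMeasurable f P ∧ ∃ C, ∀ᵐ ω ∂P, |f ω| ≤ C

namespace Bd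

omit [IsProbabilityMeasure P] in
lemma add {f g : Ω → ℝ} (hf : Bd P f) (hg : Bd P g) : Bd P (fun ω => f ω + g ω) := by
  obtain ⟨C, hC⟩ := hf.2
  obtain ⟨D, hD⟩ := hg.2
  refine ⟨hf.1.add hg.1, C + D, ?_⟩
  filter_upwards [hC, hD] with ω h1 h2
  exact (abs_add_le _ _).trans (add_le_add h1 h2)

omit [IsProbabilityMeasure P] in
lemma mul {f g : Ω → ℝ} (hf : Bd P f) (hg : Bd P g) : Bd P (fun ω => f ω * g ω) := by
  obtain ⟨C, hC⟩ := hf.2
  obtain ⟨D, hD⟩ := hg.2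
  refine ⟨hf.1.mul hg.1, C * D, ?_⟩
  filter_upwards [hC, hD] with ω h1 h2
  rw [abs_mul]
  exact mul_le_mul h1 h2 (abs_nonneg _) ((abs_nonneg _).trans h1)

omit [IsProbabilityMeasure P] in
lemma sub {f g : Ω → ℝ} (hf : Bd P f) (hg : Bd P g) : Bd P (fun ω => f ω - g ω) := by
  obtain ⟨C, hC⟩ := hf.2
  obtain ⟨D, hD⟩ := hg.2
  refine ⟨hf.1.sub hg.1, C + D, ?_⟩
  filter_upwards [hC, hD] with ω h1 h2
  exact (abs_sub _ _).trans (add_le_add h1 h2)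

omit [IsProbabilityMeasure P] in
lemma sq {f : Ω → ℝ} (hf : Bd P f) : Bd P (fun ω => f ω ^ 2) := by
  simpa [pow_two] using hf.mul hf

omit [IsProbabilityMeasure P] in
lemma const (c : ℝ) : Bd P (fun _ => c) := ⟨aestronglyMeasurable_const, |c|, by simp⟩

omit [IsProbabilityMeasure P] in
lemma sum {ι : Type*} (s : Finset ι) {f : ι → Ω → ℝ} (hf : ∀ i ∈ s, Bd P (f i)) :
    Bd P (fun ω => ∑ i ∈ s, f i ω) := by
  classical
  induction s using Finset.induction_on with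
  | empty => simpa using (const (P := P) 0)
  | insert a s ha ih =>
    simp only [Finset.sum_insert ha]
    exact (hf a (Finset.mem_insert_self a s)).add
      (ih fun i hi => hf i (Finset.mem_insert_of_mem hi))

lemma integrable {f : Ω → ℝ} (hf : Bd P f) : Integrable f P := by
  obtain ⟨C, hC⟩ := hf.2
  exact Integrable.of_bound hf.1 C (by simpa using hC)

end Bd

/-- orthogonality -/
lemma orth {m1 m2 : MeasurableSpace Ω} (h12 : m1 ≤ m2) (h2 : m2 ≤ m0) {Z W : Ω → ℝ}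
    (hZ : MemLp Z 2 P) (hW : StronglyMeasurable[m1] W) (hW2 : MemLp W 2 P) :
    ∫ ω, W ω * (P[Z | m2] ω - P[Z | m1] ω) ∂P = 0 := by
  have h1 : m1 ≤ m0 := h12.trans h2
  have hZ2 : MemLp (P[Z | m2]) 2 P := hZ.condExp (by norm_num)
  have hZ1 : MemLp (P[Z | m1]) 2 P := hZ.condExp (by norm_num)
  have i2 : Integrable (fun ω => W ω * P[Z | m2] ω) P := hW2.integrable_mul hZ2
  have i1 : Integrable (fun ω => W ω * P[Z | m1] ω) P := hW2.integrable_mul hZ1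
  have e1 : P[fun ω => W ω * P[Z | m2] ω | m1] =ᵐ[P] fun ω => W ω * P[P[Z | m2] | m1] ω :=
    condExp_mul_of_stronglyMeasurable_left hW i2 integrable_condExp
  have e2 : P[P[Z | m2] | m1] =ᵐ[P] P[Z | m1] := condExp_condExp_of_le h12 h2
  have e3 : ∫ ω, W ω * P[Z | m2] ω ∂P = ∫ ω, W ω * P[Z | m1] ω ∂P := by
    rw [← integral_condExp h1]
    apply integral_congr_ae
    filter_upwards [e1, e2] with ω a1 a2
    rw [a1, a2]
  simp only [mul_sub]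
  rw [integral_sub i2 i1, e3, sub_self]

lemma tele {m1 m2 : MeasurableSpace Ω} (h12 : m1 ≤ m2) (h2 : m2 ≤ m0) {Z : Ω → ℝ}
    (hZ : MemLp Z 2 P) :
    ∫ ω, (P[Z | m2] ω - P[Z | m1] ω) ^ 2 ∂P =
      ∫ ω, (P[Z | m2] ω) ^ 2 ∂P - ∫ ω, (P[Z | m1] ω) ^ 2 ∂P := by
  have hZ2 : MemLp (P[Z | m2]) 2 P := hZ.condExp (by norm_num)
  have hZ1 : MemLp (P[Z | m1]) 2 P := hZ.condExp (by norm_num)
  have ho := orth h12 h2 hZ stronglyMeasurable_condExp hZ1
  have e1 : ∀ ω, (P[Z | m2] ω - P[Z | m1] ω) ^ 2 = (P[Z | m2] ω) ^ 2 - (P[Z | m1] ω) ^ 2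
      - 2 * (P[Z | m1] ω * (P[Z | m2] ω - P[Z | m1] ω)) := by intro ω; ring
  simp only [e1]
  have i0 : Integrable (fun ω => P[Z | m1] ω * (P[Z | m2] ω - P[Z | m1] ω)) P :=
    hZ1.integrable_mul (hZ2.sub hZ1)
  have i3 : Integrable (fun ω => (P[Z | m2] ω) ^ 2 - (P[Z | m1] ω) ^ 2) P :=
    hZ2.integrable_sq.sub hZ1.integrable_sq
  rw [integral_sub i3 (i0.const_mul 2), integral_const_mul, ho,
    integral_sub hZ2.integrable_sq hZ1.integrable_sq]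
  ring

lemma sum_sq_le {ℱ : Filtration ℝ≥0 m0} {τ : ℕ → ℝ≥0} (hτ : Monotone τ) {Z : Ω → ℝ}
    (hZ : MemLp Z 2 P) (N : ℕ) :
    ∑ k ∈ Finset.range N, ∫ ω, (P[Z | ℱ (τ (k + 1))] ω - P[Z | ℱ (τ k)] ω) ^ 2 ∂P ≤
      ∫ ω, (P[Z | ℱ (τ N)] ω) ^ 2 ∂P := by
  have h1 : ∀ k, ∫ ω, (P[Z | ℱ (τ (k + 1))] ω - P[Z | ℱ (τ k)] ω) ^ 2 ∂P =
      ∫ ω, (P[Z | ℱ (τ (k + 1))] ω) ^ 2 ∂P - ∫ ω, (P[Z | ℱ (τ k)] ω) ^ 2 ∂P := fun k =>
    tele (ℱ.mono (hτ (Nat.le_succ k))) (ℱ.le _) hZ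
  simp only [h1]
  rw [Finset.sum_range_sub (fun k => ∫ ω, (P[Z | ℱ (τ k)] ω) ^ 2 ∂P)]
  have : 0 ≤ ∫ ω, (P[Z | ℱ (τ 0)] ω) ^ 2 ∂P := integral_nonneg fun ω => sq_nonneg _
  linarith

/-- sum of squared increments of the martingale closed by `U` -/
noncomputable def Q (P : Measure Ω) (ℱ : Filtration ℝ≥0 m0) (τ : ℕ → ℝ≥0) (U : Ω → ℝ) (k : ℕ)
    (ω : Ω) : ℝ :=
  ∑ j ∈ Finset.range k, (P[U | ℱ (τ (j + 1))] ω - P[U | ℱ (τ j)] ω) ^ 2

omit [IsProbabilityMeasure P] in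
lemma bd_condExp {m : MeasurableSpace Ω} {U : Ω → ℝ} {C : ℝ} (hC : ∀ ω, |U ω| ≤ C) :
    ∀ᵐ ω ∂P, |P[U | m] ω| ≤ C := by
  exact ae_bdd_abs_condExp_of_ae_bdd_abs (Eventually.of_forall hC)

omit [IsProbabilityMeasure P] in
lemma Bd_condExp {m : MeasurableSpace Ω} {U : Ω → ℝ} {C : ℝ} (hC : ∀ ω, |U ω| ≤ C) :
    Bd P (P[U | m]) :=
  ⟨integrable_condExp.aestronglyMeasurable, C, bd_condExp hC⟩

lemma Bd_Q {ℱ : Filtration ℝ≥0 m0} {τ : ℕ → ℝ≥0} {U : Ω → ℝ} {C : ℝ} (hC : ∀ ω, |U ω| ≤ C)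
    (k : ℕ) : Bd P (Q P ℱ τ U k) :=
  Bd.sum _ fun _ _ => ((Bd_condExp hC).sub (Bd_condExp hC)).sq

omit [IsProbabilityMeasure P] in
lemma Q_nonneg (ℱ : Filtration ℝ≥0 m0) (τ : ℕ → ℝ≥0) (U : Ω → ℝ) (k : ℕ) (ω : Ω) :
    0 ≤ Q P ℱ τ U k ω := Finset.sum_nonneg fun _ _ => sq_nonneg _

omit [IsProbabilityMeasure P] in
lemma sm_Q {ℱ : Filtration ℝ≥0 m0} {τ : ℕ → ℝ≥0} (hτ : Monotone τ) (U : Ω → ℝ) (k : ℕ) :
    StronglyMeasurable[ℱ (τ k)] (Q P ℱ τ U k) := by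
  unfold Q
  refine Finset.stronglyMeasurable_fun_sum _ fun j hj => ?_
  have hj' := Finset.mem_range.1 hj
  have h1 : StronglyMeasurable[ℱ (τ k)] (P[U | ℱ (τ (j + 1))]) :=
    stronglyMeasurable_condExp.mono (ℱ.mono (hτ hj'))
  have h2 : StronglyMeasurable[ℱ (τ k)] (P[U | ℱ (τ j)]) :=
    stronglyMeasurable_condExp.mono (ℱ.mono (hτ hj'.le))
  exact (h1.sub h2).pow 2

lemma Q_sq_bound {ℱ : Filtration ℝ≥0 m0} {τ : ℕ → ℝ≥0} (hτ : Monotone τ) {U : Ω → ℝ}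
    (hU : AEStronglyMeasurable U P) {C : ℝ} (hC : ∀ ω, |U ω| ≤ C) (k : ℕ) :
    ∫ ω, (Q P ℱ τ U k ω) ^ 2 ∂P ≤
      2 * ∫ ω, Q P ℱ τ U k ω * (P[U | ℱ (τ k)] ω) ^ 2 ∂P + 4 * C ^ 2 * ∫ ω, Q P ℱ τ U k ω ∂P := by
  have hU2 : MemLp U 2 P := MemLp.of_bound hU C (Eventually.of_forall fun ω => by simpa using hC ω)
  induction k with
  | zero => simp [Q]
  | succ k ih =>
    set q := Q P ℱ τ U k with hq
    set a := P[U | ℱ (τ k)] with ha
    set b := P[U | ℱ (τ (k + 1))] with hb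
    have hqs : ∀ ω, Q P ℱ τ U (k + 1) ω = q ω + (b ω - a ω) ^ 2 := by
      intro ω
      simp [Q, hq, Finset.sum_range_succ, ha, hb]
    have Ba : Bd P a := Bd_condExp hC
    have Bb : Bd P b := Bd_condExp hC
    have Bq : Bd P q := Bd_Q hC k
    have Bδ : Bd P (fun ω => (b ω - a ω) ^ 2) := (Bb.sub Ba).sq
    -- orthogonality
    have ho : ∫ ω, (q ω * a ω) * (b ω - a ω) ∂P = 0 := by
      have hm : StronglyMeasurable[ℱ (τ k)] (fun ω => q ω * a ω) :=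
        (sm_Q hτ U k).mul stronglyMeasurable_condExp
      have hL : MemLp (fun ω => q ω * a ω) 2 P := by
        obtain ⟨D, hD⟩ := (Bq.mul Ba).2
        exact MemLp.of_bound (Bq.mul Ba).1 D (by simpa using hD)
      exact orth (ℱ.mono (hτ (Nat.le_succ k))) (ℱ.le _) hU2 hm hL
    have e1 : ∫ ω, q ω * (b ω) ^ 2 ∂P =
        ∫ ω, q ω * (a ω) ^ 2 ∂P + ∫ ω, q ω * (b ω - a ω) ^ 2 ∂P := by
      have e : ∀ ω, q ω * (b ω) ^ 2 = q ω * (a ω) ^ 2 + q ω * (b ω - a ω) ^ 2 +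
          2 * ((q ω * a ω) * (b ω - a ω)) := by intro ω; ring
      simp only [e]
      have I1 := (Bq.mul Ba.sq).integrable
      have I2 := (Bq.mul Bδ).integrable
      have I3 := (((Bq.mul Ba).mul (Bb.sub Ba))).integrable
      have I12 : Integrable (fun ω => q ω * (a ω) ^ 2 + q ω * (b ω - a ω) ^ 2) P := I1.add I2
      rw [integral_add I12 (I3.const_mul 2), integral_add I1 I2, integral_const_mul, ho]
      ring
    have e2 : ∫ ω, (Q P ℱ τ U (k + 1) ω) ^ 2 ∂P = ∫ ω, (q ω) ^ 2 ∂P +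
        2 * ∫ ω, q ω * (b ω - a ω) ^ 2 ∂P + ∫ ω, ((b ω - a ω) ^ 2) ^ 2 ∂P := by
      have e : ∀ ω, (Q P ℱ τ U (k + 1) ω) ^ 2 = (q ω) ^ 2 + 2 * (q ω * (b ω - a ω) ^ 2) +
          ((b ω - a ω) ^ 2) ^ 2 := by intro ω; rw [hqs]; ring
      simp only [e]
      have I1 := Bq.sq.integrable
      have I2 := ((Bq.mul Bδ).integrable).const_mul 2
      have I3 := Bδ.sq.integrable
      have I12 : Integrable (fun ω => (q ω) ^ 2 + 2 * (q ω * (b ω - a ω) ^ 2)) P := I1.add I2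
      rw [integral_add I12 I3, integral_add I1 I2, integral_const_mul]
    have e3 : ∫ ω, q ω * (b ω) ^ 2 ∂P ≤ ∫ ω, Q P ℱ τ U (k + 1) ω * (b ω) ^ 2 ∂P := by
      apply integral_mono (Bq.mul Bb.sq).integrable ((Bd_Q hC (k + 1)).mul Bb.sq).integrable
      intro ω
      apply mul_le_mul_of_nonneg_right _ (sq_nonneg _)
      rw [hqs]
      linarith [sq_nonneg (b ω - a ω)]
    have e4 : ∫ ω, Q P ℱ τ U (k + 1) ω ∂P = ∫ ω, q ω ∂P + ∫ ω, (b ω - a ω) ^ 2 ∂P := by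
      simp only [hqs]
      exact integral_add Bq.integrable Bδ.integrable
    have e5 : ∫ ω, ((b ω - a ω) ^ 2) ^ 2 ∂P ≤ 4 * C ^ 2 * ∫ ω, (b ω - a ω) ^ 2 ∂P := by
      rw [← integral_const_mul]
      apply integral_mono_ae Bδ.sq.integrable (Bδ.integrable.const_mul _)
      filter_upwards [bd_condExp (P := P) (m := ℱ (τ k)) hC,
        bd_condExp (P := P) (m := ℱ (τ (k + 1))) hC] with ω h1 h2
      have h3 : |b ω - a ω| ≤ 2 * C := (abs_sub _ _).trans (by linarith)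
      have h4 : (b ω - a ω) ^ 2 ≤ 4 * C ^ 2 := by
        have := abs_nonneg (b ω - a ω)
        rw [← sq_abs]
        nlinarith
      have h5 := sq_nonneg (b ω - a ω)
      show ((b ω - a ω) ^ 2) ^ 2 ≤ 4 * C ^ 2 * (b ω - a ω) ^ 2
      nlinarith
    rw [e2, e4]
    nlinarith

lemma Q_sq_le {ℱ : Filtration ℝ≥0 m0} {τ : ℕ → ℝ≥0} (hτ : Monotone τ) {U : Ω → ℝ}
    (hU : AEStronglyMeasurable U P) {C : ℝ} (hC : ∀ ω, |U ω| ≤ C) (k : ℕ) :
    ∫ ω, (Q P ℱ τ U k ω) ^ 2 ∂P ≤ 6 * C ^ 4 := by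
  have hU2 : MemLp U 2 P := MemLp.of_bound hU C (Eventually.of_forall fun ω => by simpa using hC ω)
  have h0 := Q_sq_bound (P := P) (ℱ := ℱ) hτ hU hC k
  have h1 : ∫ ω, Q P ℱ τ U k ω * (P[U | ℱ (τ k)] ω) ^ 2 ∂P ≤ C ^ 2 * ∫ ω, Q P ℱ τ U k ω ∂P := by
    rw [← integral_const_mul]
    apply integral_mono_ae ((Bd_Q hC k).mul (Bd_condExp hC).sq).integrable
      ((Bd_Q hC k).integrable.const_mul _)
    filter_upwards [bd_condExp (P := P) (m := ℱ (τ k)) hC] with ω h1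
    have h2 := Q_nonneg (P := P) ℱ τ U k ω
    have h3 : (P[U | ℱ (τ k)] ω) ^ 2 ≤ C ^ 2 := by
      rw [← sq_abs]
      exact pow_le_pow_left₀ (abs_nonneg _) h1 2
    show Q P ℱ τ U k ω * (P[U | ℱ (τ k)] ω) ^ 2 ≤ C ^ 2 * Q P ℱ τ U k ω
    nlinarith
  have h2 : ∫ ω, Q P ℱ τ U k ω ∂P ≤ C ^ 2 := by
    unfold Q
    rw [integral_finsetSum _ fun j _ => ((Bd_condExp hC).sub (Bd_condExp hC)).sq.integrable]
    refine (sum_sq_le hτ hU2 k).trans ?_
    have : ∫ ω, (P[U | ℱ (τ k)] ω) ^ 2 ∂P ≤ ∫ _, C ^ 2 ∂P := by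
      apply integral_mono_ae (Bd_condExp hC).sq.integrable (integrable_const _)
      filter_upwards [bd_condExp (P := P) (m := ℱ (τ k)) hC] with ω h1
      show (P[U | ℱ (τ k)] ω) ^ 2 ≤ C ^ 2
      rw [← sq_abs]
      exact pow_le_pow_left₀ (abs_nonneg _) h1 2
    simpa using this
  have h3 : 0 ≤ ∫ ω, Q P ℱ τ U k ω ∂P := integral_nonneg fun ω => Q_nonneg ℱ τ U k ω
  nlinarith [sq_nonneg C]

lemma exists_trunc {Z : Ω → ℝ} (hZ : MemLp Z 2 P) {ε : ℝ} (hε : 0 < ε) :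
    ∃ C : ℝ, 0 ≤ C ∧ ∫ ω, (Z ω - (if |Z ω| ≤ C then Z ω else 0)) ^ 2 ∂P ≤ ε := by
  have h1 : Tendsto (fun c : ℕ => ∫ ω, (Z ω - (if |Z ω| ≤ (c : ℝ) then Z ω else 0)) ^ 2 ∂P) atTop
      (𝓝 (∫ _, (0 : ℝ) ∂P)) := by
    apply tendsto_integral_of_dominated_convergence (fun ω => (Z ω) ^ 2)
    · intro c
      have hm : AEMeasurable Z P := hZ.1.aemeasurable
      have hm' : Measurable (fun z : ℝ => (z - (if |z| ≤ (c : ℝ) then z else 0)) ^ 2) := by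
        refine Measurable.pow_const (Measurable.sub measurable_id ?_) 2
        refine Measurable.ite ?_ measurable_id measurable_const
        exact measurableSet_le continuous_abs.measurable measurable_const
      exact (hm'.comp_aemeasurable hm).aestronglyMeasurable
    · exact hZ.integrable_sq
    · intro c
      refine Eventually.of_forall fun ω => ?_
      rw [Real.norm_eq_abs, abs_of_nonneg (sq_nonneg _)]
      split_ifs
      · simp only [sub_self]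
        nlinarith [sq_nonneg (Z ω)]
      · simp
    · refine Eventually.of_forall fun ω => ?_
      apply tendsto_const_nhds.congr'
      filter_upwards [eventually_ge_atTop ⌈|Z ω|⌉₊] with c hc
      have : |Z ω| ≤ (c : ℝ) := (Nat.le_ceil _).trans (by exact_mod_cast hc)
      simp [this]
  simp only [integral_zero] at h1
  obtain ⟨c, hc⟩ := (h1.eventually (ge_mem_nhds hε)).exists
  exact ⟨c, Nat.cast_nonneg c, hc⟩

/-- Uniform integrability of the sums of squared increments of a square integrable martingale. -/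
theorem ui {ℱ : Filtration ℝ≥0 m0} {M : ℝ≥0 → Ω → ℝ} (hM : Martingale M ℱ P)
    (hM2 : ∀ t, MemLp (M t) 2 P) (t : ℝ≥0) {ε : ℝ} (hε : 0 < ε) :
    ∃ ρ : ℝ, 0 < ρ ∧ ∀ (τ : ℕ → ℝ≥0) (_ : Monotone τ) (N : ℕ) (_ : τ N = t) (B : Set Ω)
      (_ : MeasurableSet B), P.real B ≤ ρ →
      ∑ k ∈ Finset.range N, ∫ ω in B, (M (τ (k + 1)) ω - M (τ k) ω) ^ 2 ∂P ≤ ε := by
  obtain ⟨C, hC0, hC⟩ := exists_trunc (hM2 t) (ε := ε / 8) (by positivity)
  set U : Ω → ℝ := fun ω => if |M t ω| ≤ C then M t ω else 0 with hUdef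
  set V : Ω → ℝ := fun ω => M t ω - U ω with hVdef
  have hUC : ∀ ω, |U ω| ≤ C := by
    intro ω
    simp only [hUdef]
    split_ifs with h
    · exact h
    · simpa using hC0
  have hUm : StronglyMeasurable[ℱ t] U := by
    have h0 : StronglyMeasurable[ℱ t] (M t) := hM.stronglyMeasurable t
    refine StronglyMeasurable.ite ?_ h0 stronglyMeasurable_const
    exact measurableSet_le (continuous_abs.measurable.comp h0.measurable) measurable_const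
  have hVm : StronglyMeasurable[ℱ t] V := (hM.stronglyMeasurable t).sub hUm
  have hUa : AEStronglyMeasurable U P := (hUm.mono (ℱ.le t)).aestronglyMeasurable
  have hU2 : MemLp U 2 P :=
    MemLp.of_bound hUa C (Eventually.of_forall fun ω => by simpa using hUC ω)
  have hV2 : MemLp V 2 P := (hM2 t).sub hU2
  set l : ℝ := ε / (12 * (C ^ 4 + 1)) with hl
  have hC4 : 0 ≤ C ^ 4 := by positivity
  have hl0 : 0 < l := by positivity
  refine ⟨l * (ε / 4), by positivity, ?_⟩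
  intro τ hτ N hN B hB hPB
  have hdec : ∀ k ≤ N, M (τ k) =ᵐ[P] fun ω => P[U | ℱ (τ k)] ω + P[V | ℱ (τ k)] ω := by
    intro k hk
    have h1 : P[M t | ℱ (τ k)] =ᵐ[P] M (τ k) := hM.condExp_ae_eq (by rw [← hN]; exact hτ hk)
    have h2 : P[U + V | ℱ (τ k)] =ᵐ[P] P[U | ℱ (τ k)] + P[V | ℱ (τ k)] :=
      condExp_add (hU2.integrable (by norm_num)) (hV2.integrable (by norm_num)) _
    have h3 : U + V = M t := by
      ext ω
      simp [hVdef]
    rw [h3] at h2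
    filter_upwards [h1, h2] with ω a1 a2
    rw [← a1, a2]
    rfl
  have hinc : ∀ k ∈ Finset.range N, ∫ ω in B, (M (τ (k + 1)) ω - M (τ k) ω) ^ 2 ∂P ≤
      2 * ∫ ω in B, (P[U | ℱ (τ (k + 1))] ω - P[U | ℱ (τ k)] ω) ^ 2 ∂P +
      2 * ∫ ω, (P[V | ℱ (τ (k + 1))] ω - P[V | ℱ (τ k)] ω) ^ 2 ∂P := by
    intro k hk
    have hk' := Finset.mem_range.1 hk
    have I1 : Integrable (fun ω => (P[U | ℱ (τ (k + 1))] ω - P[U | ℱ (τ k)] ω) ^ 2) P :=
      ((Bd_condExp hUC).sub (Bd_condExp hUC)).sq.integrable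
    have hVk : ∀ k, MemLp (P[V | ℱ (τ k)]) 2 P := fun k => hV2.condExp (by norm_num)
    have I2 : Integrable (fun ω => (P[V | ℱ (τ (k + 1))] ω - P[V | ℱ (τ k)] ω) ^ 2) P :=
      ((hVk (k + 1)).sub (hVk k)).integrable_sq
    have I3 : Integrable (fun ω => (M (τ (k + 1)) ω - M (τ k) ω) ^ 2) P :=
      ((hM2 _).sub (hM2 _)).integrable_sq
    have s1 : ∫ ω in B, (M (τ (k + 1)) ω - M (τ k) ω) ^ 2 ∂P ≤
        ∫ ω in B, (2 * (P[U | ℱ (τ (k + 1))] ω - P[U | ℱ (τ k)] ω) ^ 2 +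
          2 * (P[V | ℱ (τ (k + 1))] ω - P[V | ℱ (τ k)] ω) ^ 2) ∂P := by
      apply setIntegral_mono_ae I3.integrableOn
        ((I1.const_mul 2).add (I2.const_mul 2)).integrableOn
      filter_upwards [hdec k hk'.le, hdec (k + 1) hk'] with ω a1 a2
      rw [a1, a2]
      simp only [Pi.add_apply]
      nlinarith [sq_nonneg ((P[U | ℱ (τ (k + 1))] ω - P[U | ℱ (τ k)] ω) -
        (P[V | ℱ (τ (k + 1))] ω - P[V | ℱ (τ k)] ω))]
    refine s1.trans ?_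
    rw [integral_add (I1.const_mul 2).integrableOn (I2.const_mul 2).integrableOn,
      integral_const_mul, integral_const_mul]
    have s2 : ∫ ω in B, (P[V | ℱ (τ (k + 1))] ω - P[V | ℱ (τ k)] ω) ^ 2 ∂P ≤
        ∫ ω, (P[V | ℱ (τ (k + 1))] ω - P[V | ℱ (τ k)] ω) ^ 2 ∂P :=
      setIntegral_le_integral I2 (Eventually.of_forall fun ω => sq_nonneg _)
    linarith
  refine (Finset.sum_le_sum hinc).trans ?_
  rw [Finset.sum_add_distrib, ← Finset.mul_sum, ← Finset.mul_sum]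
  have hV : ∑ k ∈ Finset.range N, ∫ ω, (P[V | ℱ (τ (k + 1))] ω - P[V | ℱ (τ k)] ω) ^ 2 ∂P ≤
      ε / 8 := by
    refine (sum_sq_le hτ hV2 N).trans ?_
    rw [hN, condExp_of_stronglyMeasurable (ℱ.le t) hVm (hV2.integrable (by norm_num))]
    exact hC
  have hU : ∑ k ∈ Finset.range N,
      ∫ ω in B, (P[U | ℱ (τ (k + 1))] ω - P[U | ℱ (τ k)] ω) ^ 2 ∂P ≤
      (l / 2) * (6 * C ^ 4) + (1 / (2 * l)) * P.real B := by
    rw [← integral_finsetSum _ fun j _ =>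
      ((Bd_condExp hUC).sub (Bd_condExp hUC)).sq.integrable.integrableOn]
    have e1 : ∫ ω in B, ∑ k ∈ Finset.range N,
        (P[U | ℱ (τ (k + 1))] ω - P[U | ℱ (τ k)] ω) ^ 2 ∂P = ∫ ω in B, Q P ℱ τ U N ω ∂P := rfl
    rw [e1]
    have hq := Bd_Q (P := P) (ℱ := ℱ) (τ := τ) hUC N
    have s1 : ∫ ω in B, Q P ℱ τ U N ω ∂P ≤
        ∫ ω in B, ((l / 2) * (Q P ℱ τ U N ω) ^ 2 + 1 / (2 * l)) ∂P := by
      apply setIntegral_mono hq.integrable.integrableOn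
        ((hq.sq.integrable.const_mul _).add (integrable_const _)).integrableOn
      intro ω
      have : 0 ≤ (l * Q P ℱ τ U N ω - 1) ^ 2 / (2 * l) := by positivity
      have e : (l * Q P ℱ τ U N ω - 1) ^ 2 / (2 * l) =
          (l / 2) * (Q P ℱ τ U N ω) ^ 2 + 1 / (2 * l) - Q P ℱ τ U N ω := by
        field_simp
        ring
      simp only [Pi.add_apply]
      linarith
    refine s1.trans ?_
    rw [integral_add (hq.sq.integrable.const_mul _).integrableOn (integrable_const _).integrableOn,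
      integral_const_mul, setIntegral_const]
    have s2 : ∫ ω in B, (Q P ℱ τ U N ω) ^ 2 ∂P ≤ ∫ ω, (Q P ℱ τ U N ω) ^ 2 ∂P :=
      setIntegral_le_integral hq.sq.integrable (Eventually.of_forall fun ω => sq_nonneg _)
    have s3 := Q_sq_le (P := P) (ℱ := ℱ) hτ hUa hUC N
    have s4 : (l / 2) * ∫ ω in B, (Q P ℱ τ U N ω) ^ 2 ∂P ≤ (l / 2) * (6 * C ^ 4) :=
      mul_le_mul_of_nonneg_left (s2.trans s3) (by positivity)
    rw [smul_eq_mul, mul_comm (P.real B)]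
    linarith
  have h1 : 2 * ((l / 2) * (6 * C ^ 4)) ≤ ε / 2 := by
    have : l * (12 * (C ^ 4 + 1)) = ε := by
      rw [hl]; field_simp
    nlinarith
  have h2 : 2 * ((1 / (2 * l)) * P.real B) ≤ ε / 4 := by
    have : 2 * ((1 / (2 * l)) * P.real B) = P.real B / l := by field_simp
    rw [this, div_le_iff₀ hl0]
    linarith
  linarith

end Pool.Agent.H88.HW.UI
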