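import Pool.Agent.H88.HW.Step
import Pool.Agent.H88.HW.UI

open MeasureTheory ProbabilityTheory Filter Set
open scoped ENNReal NNReal Topology

namespace Pool.Agent.H88.HW

variable {Ω : Type*} [MeasurableSpace Ω] {P : Measure Ω}

namespace SolvesHW

variable {β : ℝ} {ν : Measure ℝ} {n : ℕ} {x₀ : Fin n → ℝ} {X : ℝ≥0 → Ω → Fin n → ℝ}
  [IsProbabilityMeasure P]

/-- the grid `s + k/N` -/
noncomputable def grid (s : ℝ≥0) (N k : ℕ) : ℝ≥0 := s + (k : ℝ≥0) / N

lemma grid_mono (s : ℝ≥0) (N : ℕ) : Monotone (grid s N) := by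
  intro k l hkl
  unfold grid
  gcongr

lemma grid_zero (s : ℝ≥0) (N : ℕ) : grid s N 0 = s := by simp [grid]

lemma grid_self (s : ℝ≥0) {N : ℕ} (hN : 0 < N) : grid s N N = s + 1 := by
  unfold grid
  rw [div_self]
  exact_mod_cast hN.ne'

lemma grid_step (s : ℝ≥0) (N k : ℕ) :
    ((grid s N (k + 1) : ℝ≥0) : ℝ) - grid s N k = 1 / N := by
  unfold grid
  push_cast
  ring

lemma measurable_Qs (h : SolvesHW β ν x₀ P X) (u u' : ℝ≥0) : Measurable (Qs β X u u') := by
  unfold Qs
  refine Finset.measurable_sum _ fun l _ => Measurable.pow_const ?_ 2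
  unfold dM M
  exact (((measurable_pi_apply l).comp (h.measurable u').measurable).sub_const _).sub
    (((measurable_pi_apply l).comp (h.measurable u).measurable).sub_const _)

/-- the event that some increment over the grid is large -/
def badSet (β : ℝ) (X : ℝ≥0 → Ω → Fin n → ℝ) (η : ℝ) (s : ℝ≥0) (N : ℕ) : Set Ω :=
  ⋃ k ∈ Finset.range N, {ω | η ^ 2 < Qs β X (grid s N k) (grid s N (k + 1)) ω}

lemma measurableSet_badSet (h : SolvesHW β ν x₀ P X) (η : ℝ) (s : ℝ≥0) (N : ℕ) :
    MeasurableSet (badSet β X η s N) :=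
  Finset.measurableSet_biUnion _ fun _ _ => measurableSet_lt measurable_const (h.measurable_Qs _ _)

lemma eventually_notMem_badSet (h : SolvesHW β ν x₀ P X) {η : ℝ} (hη : 0 < η) (s : ℝ≥0) (ω : Ω) :
    ∀ᶠ N : ℕ in atTop, ω ∉ badSet β X η s N := by
  set g : ℝ≥0 → Fin n → ℝ := fun r l => M β X l r ω with hg
  have hgc : Continuous g := by
    refine continuous_pi fun l => ?_
    unfold g M
    exact ((continuous_apply l).comp (h.continuous ω)).sub
      (continuous_const.mul NNReal.continuous_coe)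
  have hK : IsCompact (Icc s (s + 1)) := isCompact_Icc
  have huc := hK.uniformContinuousOn_of_continuous hgc.continuousOn
  rw [Metric.uniformContinuousOn_iff] at huc
  set η₁ := η / (n + 1) with hη₁
  have hη₁0 : 0 < η₁ := by positivity
  obtain ⟨d, hd0, hd⟩ := huc η₁ hη₁0
  obtain ⟨N₀, hN₀⟩ := exists_nat_gt (1 / d)
  filter_upwards [eventually_ge_atTop (max N₀ 1)] with N hN
  have hN1 : 1 ≤ N := (le_max_right _ _).trans hN
  have hNpos : (0 : ℝ) < N := by exact_mod_cast hN1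
  have hNd : 1 / (N : ℝ) < d := by
    have : 1 / d < N := hN₀.trans_le (by exact_mod_cast (le_max_left _ _).trans hN)
    rw [div_lt_iff₀ hd0] at this
    rw [div_lt_iff₀ hNpos]
    linarith
  intro hω
  simp only [badSet, mem_iUnion, Finset.mem_range, mem_setOf_eq] at hω
  obtain ⟨k, hk, hlt⟩ := hω
  have hmem : ∀ j ≤ N, grid s N j ∈ Icc s (s + 1) := by
    intro j hj
    constructor
    · unfold grid; exact le_self_add
    · rw [← grid_self s hN1]; exact grid_mono s N hj
  have hdist : dist (grid s N (k + 1)) (grid s N k) < d := by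
    rw [NNReal.dist_eq, grid_step, abs_of_pos (by positivity)]
    exact hNd
  have h1 := hd _ (hmem (k + 1) hk) _ (hmem k hk.le) hdist
  have h2 : ∀ l, (dM β X l (grid s N k) (grid s N (k + 1)) ω) ^ 2 ≤ η₁ ^ 2 := by
    intro l
    have h3 := (dist_le_pi_dist (g (grid s N (k + 1))) (g (grid s N k)) l).trans h1.le
    rw [Real.dist_eq] at h3
    rw [← sq_abs]
    exact pow_le_pow_left₀ (abs_nonneg _) h3 2
  have h4 : Qs β X (grid s N k) (grid s N (k + 1)) ω ≤ n * η₁ ^ 2 := by
    unfold Qs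
    refine (Finset.sum_le_sum fun l _ => h2 l).trans ?_
    simp
  have h5 : (n : ℝ) * η₁ ^ 2 ≤ η ^ 2 := by
    rw [hη₁, div_pow, mul_div_assoc', div_le_iff₀ (by positivity)]
    have hn : (0 : ℝ) ≤ n := Nat.cast_nonneg n
    nlinarith [sq_nonneg η, mul_nonneg hn (sq_nonneg η), mul_nonneg (mul_nonneg hn hn) (sq_nonneg η)]
  linarith

lemma tendsto_badSet (h : SolvesHW β ν x₀ P X) {η : ℝ} (hη : 0 < η) (s : ℝ≥0) :
    Tendsto (fun N : ℕ => P.real (badSet β X η s N)) atTop (𝓝 0) := by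
  have h1 : Tendsto (fun N : ℕ => ∫ ω, (badSet β X η s N).indicator (fun _ => (1 : ℝ)) ω ∂P) atTop
      (𝓝 (∫ _, (0 : ℝ) ∂P)) := by
    apply tendsto_integral_of_dominated_convergence (fun _ => (1 : ℝ))
    · intro N
      exact (stronglyMeasurable_const.indicator (h.measurableSet_badSet η s N)).aestronglyMeasurable
    · exact integrable_const _
    · intro N
      refine Eventually.of_forall fun ω => ?_
      by_cases hω : ω ∈ badSet β X η s N <;> simp [hω]
    · refine Eventually.of_forall fun ω => ?_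
      apply tendsto_const_nhds.congr'
      filter_upwards [h.eventually_notMem_badSet hη s ω] with N hN
      rw [indicator_of_notMem hN]
  simp only [integral_zero] at h1
  refine h1.congr fun N => ?_
  rw [integral_indicator (h.measurableSet_badSet η s N)]
  simp

/-- The bad parts of the squared increments are negligible. -/
lemma eventually_sum_Qbad (h : SolvesHW β ν x₀ P X) {η : ℝ} (hη : 0 < η) (s : ℝ≥0) {κ : ℝ}
    (hκ : 0 < κ) :
    ∀ᶠ N : ℕ in atTop,
      ∑ k ∈ Finset.range N, ∫ ω, Qbad β X η (grid s N k) (grid s N (k + 1)) ω ∂P ≤ κ := by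
  have hn : (0 : ℝ) < n + 1 := by positivity
  choose r hr0 hr using fun l : Fin n => UI.ui (h.M_martingale l) (h.M_memLp l) (s + 1)
    (ε := κ / (n + 1)) (by positivity)
  have hev : ∀ᶠ N : ℕ in atTop, ∀ l : Fin n, P.real (badSet β X η s N) ≤ r l := by
    rw [eventually_all]
    intro l
    exact (h.tendsto_badSet hη s).eventually (ge_mem_nhds (hr0 l))
  filter_upwards [hev, eventually_ge_atTop 1] with N hN hN1
  set B := badSet β X η s N with hB
  have hBm : MeasurableSet B := h.measurableSet_badSet η s N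
  have s1 : ∀ k ∈ Finset.range N,
      ∫ ω, Qbad β X η (grid s N k) (grid s N (k + 1)) ω ∂P ≤
        ∑ l, ∫ ω in B, (M β X l (grid s N (k + 1)) ω - M β X l (grid s N k) ω) ^ 2 ∂P := by
    intro k hk
    rw [← integral_finsetSum]
    · rw [← integral_indicator hBm]
      apply integral_mono (h.integrable_Qbad _ _ _)
      · refine Integrable.indicator ?_ hBm
        exact h.integrable_Qs (grid s N k) (grid s N (k + 1))
      · intro ω
        unfold Qbad
        split_ifs with hlt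
        · have hω : ω ∈ B := by
            rw [hB]
            unfold badSet
            simp only [mem_iUnion]
            exact ⟨k, hk, hlt⟩
          rw [indicator_of_mem hω]
          exact le_rfl
        · by_cases hω : ω ∈ B
          · rw [indicator_of_mem hω]
            exact Finset.sum_nonneg fun _ _ => sq_nonneg _
          · rw [indicator_of_notMem hω]
    · intro l _
      exact ((h.dM_memLp l (grid s N k) (grid s N (k + 1))).integrable_sq).integrableOn
  refine (Finset.sum_le_sum s1).trans ?_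
  rw [Finset.sum_comm]
  have s2 : ∀ l ∈ (Finset.univ : Finset (Fin n)), ∑ k ∈ Finset.range N,
      ∫ ω in B, (M β X l (grid s N (k + 1)) ω - M β X l (grid s N k) ω) ^ 2 ∂P ≤ κ / (n + 1) :=
    fun l _ => hr l (grid s N) (grid_mono s N) N (grid_self s hN1) B hBm (hN l)
  refine (Finset.sum_le_sum s2).trans ?_
  rw [Finset.sum_const, Finset.card_univ, Fintype.card_fin, nsmul_eq_mul, mul_div_assoc',
    div_le_iff₀ hn]
  nlinarith

/-- iteration of a perturbed linear inequality -/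
lemma iterate_ineq {y e : ℕ → ℝ} {a : ℝ} (ha0 : 0 ≤ a) (ha1 : a ≤ 1) (he : ∀ k, 0 ≤ e k)
    (h : ∀ k, a * y k - e k ≤ y (k + 1)) (N : ℕ) :
    a ^ N * y 0 - ∑ k ∈ Finset.range N, e k ≤ y N := by
  induction N with
  | zero => simp
  | succ N ih =>
    rw [Finset.sum_range_succ, pow_succ]
    have h1 := h N
    have h2 := mul_le_mul_of_nonneg_left ih ha0
    have h3 : 0 ≤ ∑ k ∈ Finset.range N, e k := Finset.sum_nonneg fun k _ => he k
    have h4 : a * ∑ k ∈ Finset.range N, e k ≤ ∑ k ∈ Finset.range N, e k :=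
      mul_le_of_le_one_left h3 ha1
    linarith

/-- The expectation of the bump function does not decay faster than exponentially. -/
theorem evolve [IsFiniteMeasure ν] (hν : FiniteSpeed ν)
    (h : SolvesHW β ν x₀ P X) (Δ₁ Δ₂ : Finset (Fin n)) (hΔ₁ : Δ₁.Nonempty) (hΔ₂ : Δ₂.Nonempty)
    (s : ℝ≥0) {G : Set Ω} (hG : MeasurableSet[h.filt s] G) {ρ θ : Ω → ℝ}
    (hρ : Measurable[h.filt s] ρ) (hθ : Measurable[h.filt s] θ) (hρ0 : ∀ ω ∈ G, 0 ≤ ρ ω)
    {ε : ℝ} (hε : 0 < ε) :
    Real.exp (-Bump.Lam (spd ν)) *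
        ∫ ω in G, Bump.F (Bump.KK (spd ν)) (xP X Δ₁ Δ₂ hΔ₁ hΔ₂ ρ ε s s ω)
          (mP β X Δ₁ Δ₂ hΔ₁ hΔ₂ θ s s ω) ∂P ≤
      ∫ ω in G, Bump.F (Bump.KK (spd ν)) (xP X Δ₁ Δ₂ hΔ₁ hΔ₂ ρ ε s (s + 1) ω)
        (mP β X Δ₁ Δ₂ hΔ₁ hΔ₂ θ s (s + 1) ω) ∂P := by
  have hb : 0 ≤ spd ν := hν.spd_nonneg
  set b := spd ν with hbdef
  set K := Bump.KK b with hKdef
  have hK : 1 ≤ K := Bump.KK_ge hb
  have hK0 : 0 < K := by linarith
  set C := Bump.C0 K with hCdef
  have hC0 : 0 ≤ C := by rw [hCdef]; unfold Bump.C0; positivity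
  set L := Bump.Lam b with hL
  have hL0 : 0 ≤ L := Bump.Lam_nonneg hb
  set Y : ℝ≥0 → ℝ := fun u => ∫ ω in G, Bump.F K (xP X Δ₁ Δ₂ hΔ₁ hΔ₂ ρ ε s u ω)
        (mP β X Δ₁ Δ₂ hΔ₁ hΔ₂ θ s u ω) ∂P with hY
  -- it suffices to prove this up to κ
  suffices H : ∀ κ > 0, ∀ᶠ N : ℕ in atTop, (1 - L / N) ^ N * Y s - κ ≤ Y (s + 1) by
    have hlim : Tendsto (fun N : ℕ => (1 - L / (N : ℝ)) ^ N * Y s) atTop
        (𝓝 (Real.exp (-L) * Y s)) := by
      apply Tendsto.mul_const
      have := Real.tendsto_one_add_div_pow_exp (-L)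
      refine this.congr fun N => ?_
      congr 1
      ring
    have hκ : ∀ κ > 0, Real.exp (-L) * Y s - κ ≤ Y (s + 1) := by
      intro κ hκ
      refine le_of_tendsto (hlim.sub_const κ) (H κ hκ)
    have : Real.exp (-L) * Y s ≤ Y (s + 1) := by
      apply le_of_forall_pos_le_add
      intro κ hκ'
      linarith [hκ κ hκ']
    exact this
  intro κ hκ
  -- choose η
  obtain ⟨η, hη0, hη1, hη2⟩ : ∃ η : ℝ, 0 < η ∧ 9 * η ≤ 1 / K ∧
      600 * C ^ 2 * η * (n + 2 * b + 1) ≤ κ / 3 := by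
    refine ⟨min (1 / (9 * K)) (κ / (3 * (600 * C ^ 2 * (n + 2 * b + 1) + 1))), ?_, ?_, ?_⟩
    · apply lt_min <;> positivity
    · calc 9 * min (1 / (9 * K)) (κ / (3 * (600 * C ^ 2 * (n + 2 * b + 1) + 1))) ≤
          9 * (1 / (9 * K)) := by gcongr; exact min_le_left _ _
        _ = 1 / K := by field_simp
    · set D := 600 * C ^ 2 * (n + 2 * b + 1) with hD
      have hD0 : 0 ≤ D := by positivity
      have h1 : min (1 / (9 * K)) (κ / (3 * (D + 1))) ≤ κ / (3 * (D + 1)) := min_le_right _ _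
      have h2 : D * (κ / (3 * (D + 1))) ≤ κ / 3 := by
        rw [mul_div_assoc', div_le_div_iff₀ (by positivity) (by positivity)]
        nlinarith
      have h3 := mul_le_mul_of_nonneg_left h1 hD0
      calc 600 * C ^ 2 * min (1 / (9 * K)) (κ / (3 * (D + 1))) * (n + 2 * b + 1) =
          D * min (1 / (9 * K)) (κ / (3 * (D + 1))) := by rw [hD]; ring
        _ ≤ κ / 3 := h3.trans h2
  set E := 600 * C ^ 2 * (1 + 1 / η ^ 2) with hE
  have hE0 : 0 ≤ E := by positivity
  have ev1 := h.eventually_sum_Qbad hη0 s (κ := κ / (3 * (E + 1))) (by positivity)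
  have ev2 : ∀ᶠ N : ℕ in atTop, n ^ 2 * (8 * C ^ 2 / ε ^ 2) / (N : ℝ) ≤ κ / 3 :=
    (tendsto_const_div_atTop_nhds_zero_nat _).eventually (ge_mem_nhds (by positivity))
  have ev3 : ∀ᶠ N : ℕ in atTop, 1 / (N : ℝ) ≤ η :=
    (tendsto_const_div_atTop_nhds_zero_nat _).eventually (ge_mem_nhds hη0)
  have ev4 : ∀ᶠ N : ℕ in atTop, L / (N : ℝ) ≤ 1 :=
    (tendsto_const_div_atTop_nhds_zero_nat _).eventually (ge_mem_nhds one_pos)
  filter_upwards [ev1, ev2, ev3, ev4, eventually_ge_atTop 1] with N h1 h2 h3 h4 hN1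
  have hNpos : (0 : ℝ) < N := by exact_mod_cast hN1
  set e : ℕ → ℝ := fun k => n ^ 2 * (8 * C ^ 2 / ε ^ 2 * (1 / (N : ℝ)) ^ 2) +
    600 * C ^ 2 * η * ((n + 2 * b + 1) * (1 / (N : ℝ))) +
    E * ∫ ω, Qbad β X η (grid s N k) (grid s N (k + 1)) ω ∂P with he
  have Qbad0 : ∀ k, 0 ≤ ∫ ω, Qbad β X η (grid s N k) (grid s N (k + 1)) ω ∂P := by
    intro k
    apply integral_nonneg
    intro ω
    show 0 ≤ Qbad β X η (grid s N k) (grid s N (k + 1)) ω
    unfold Qbad
    have := Qs_nonneg (β := β) (X := X) (grid s N k) (grid s N (k + 1)) ω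
    split_ifs
    · exact this
    · exact le_rfl
  have he0 : ∀ k, 0 ≤ e k := by
    intro k
    have := Qbad0 k
    simp only [he]
    positivity
  have hstep : ∀ k, (1 - L / N) * Y (grid s N k) - e k ≤ Y (grid s N (k + 1)) := by
    intro k
    have hsu : s ≤ grid s N k := by unfold grid; exact le_self_add
    have huu' : grid s N k ≤ grid s N (k + 1) := grid_mono s N (Nat.le_succ k)
    have := h.one_step hν Δ₁ Δ₂ hΔ₁ hΔ₂ hsu huu' hG hρ hθ hρ0 hε hη0 hη1
      (by rw [grid_step]; exact h3)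
    rw [grid_step] at this
    have e1 : L * (1 / (N : ℝ)) = L / N := by ring
    rw [← hbdef, ← hKdef, ← hCdef, ← hL, e1] at this
    exact this
  have fin := iterate_ineq (y := fun k => Y (grid s N k)) (e := e) (a := 1 - L / N)
    (by linarith) (by have : 0 ≤ L / (N : ℝ) := by positivity
                      linarith) he0 hstep N
  simp only [grid_zero, grid_self s hN1] at fin
  -- sum of errors
  have hsum : ∑ k ∈ Finset.range N, e k ≤ κ := by
    simp only [he]
    rw [Finset.sum_add_distrib, Finset.sum_const, Finset.card_range, nsmul_eq_mul,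
      ← Finset.mul_sum]
    have t1 : (N : ℝ) * (n ^ 2 * (8 * C ^ 2 / ε ^ 2 * (1 / (N : ℝ)) ^ 2) +
        600 * C ^ 2 * η * ((n + 2 * b + 1) * (1 / (N : ℝ)))) =
        n ^ 2 * (8 * C ^ 2 / ε ^ 2) / N + 600 * C ^ 2 * η * (n + 2 * b + 1) := by
      field_simp
    rw [t1]
    have t2 : E * ∑ k ∈ Finset.range N, ∫ ω, Qbad β X η (grid s N k) (grid s N (k + 1)) ω ∂P ≤
        κ / 3 := by
      have h5 := mul_le_mul_of_nonneg_left h1 hE0
      refine h5.trans ?_
      rw [mul_div_assoc', div_le_div_iff₀ (by positivity) (by positivity)]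
      nlinarith
    linarith
  linarith

end SolvesHW

end Pool.Agent.H88.HW
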