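import Pool.Agent.H88.HW.Evolve

open MeasureTheory ProbabilityTheory Filter Set
open scoped ENNReal NNReal Topology

namespace Pool.Agent.H88.HW

variable {Ω : Type*} [MeasurableSpace Ω] {P : Measure Ω}

namespace Bump

lemma F_lower {K x m : ℝ} (hK : 0 ≤ K) (h0 : 0 < x) (h1 : x ≤ 1 / 2) (hm : |m| ≤ 1 / 4) :
    x / 16 ≤ F K x m := by
  rw [F_eq_A0 h0 (by linarith) (by linarith)]
  unfold A0 S q
  have h2 : (1 / 2 : ℝ) ^ 3 ≤ (1 - x) ^ 3 := pow_le_pow_left₀ (by norm_num) (by linarith) 3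
  have h3 : m ^ 2 ≤ (1 / 4) ^ 2 := by
    rw [← sq_abs]; exact pow_le_pow_left₀ (abs_nonneg _) hm 2
  have h4 : (15 / 16 : ℝ) ^ 3 ≤ (1 - m ^ 2) ^ 3 :=
    pow_le_pow_left₀ (by norm_num) (by linarith) 3
  have h5 : x ≤ x * (1 + K * x) := by
    nlinarith [mul_nonneg hK (mul_nonneg h0.le h0.le)]
  have h6 : x * (1 / 2) ^ 3 ≤ x * (1 + K * x) * (1 - x) ^ 3 :=
    mul_le_mul h5 h2 (by norm_num) (by positivity)
  have h7 : x * (1 / 2) ^ 3 * (15 / 16) ^ 3 ≤
      x * (1 + K * x) * (1 - x) ^ 3 * (1 - m ^ 2) ^ 3 :=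
    mul_le_mul h6 h4 (by norm_num) ((by positivity : 0 ≤ x * (1 / 2) ^ 3).trans h6)
  refine le_trans ?_ h7
  norm_num
  linarith

lemma F_pos {K x m : ℝ} (h : F K x m ≠ 0) : 0 < x ∧ x < 1 ∧ |m| < 1 := by
  unfold F Sp qp at h
  split_ifs at h with h1 h2 h2
  · exact ⟨h1.1, h1.2, h2⟩
  · simp at h
  · simp at h
  · simp at h

end Bump

namespace SolvesHW

/-- length of the part of the window `[W1, W2]` in the gap between `Δ` and its complement -/
noncomputable def gl {n : ℕ} (W1 W2 : ℝ) (Δ : Finset (Fin n)) (z : Fin n → ℝ) : ℝ :=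
  if h : Δ.Nonempty ∧ Δᶜ.Nonempty then
    max 0 (min (fMin Δᶜ h.2 z) W2 - max (fMax Δ h.1 z) W1) else 0

lemma gl_nonneg {n : ℕ} (W1 W2 : ℝ) (Δ : Finset (Fin n)) (z : Fin n → ℝ) : 0 ≤ gl W1 W2 Δ z := by
  unfold gl
  split_ifs
  · exact le_max_left _ _
  · exact le_rfl

lemma gl_le {n : ℕ} {W1 W2 : ℝ} (hW : W1 ≤ W2) (Δ : Finset (Fin n)) (z : Fin n → ℝ) :
    gl W1 W2 Δ z ≤ W2 - W1 := by
  unfold gl
  split_ifs with h
  · apply max_le
    · linarith
    · have h1 := min_le_right (fMin Δᶜ h.2 z) W2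
      have h2 := le_max_right (fMax Δ h.1 z) W1
      linarith
  · linarith

lemma measurable_gl {n : ℕ} (W1 W2 : ℝ) (Δ : Finset (Fin n)) :
    Measurable (gl W1 W2 Δ : (Fin n → ℝ) → ℝ) := by
  by_cases h : Δ.Nonempty ∧ Δᶜ.Nonempty
  · have : (gl W1 W2 Δ : (Fin n → ℝ) → ℝ) = fun z =>
        max 0 (min (fMin Δᶜ h.2 z) W2 - max (fMax Δ h.1 z) W1) := by
      ext z; simp [gl, h]
    rw [this]
    exact measurable_const.max (((measurable_fMin Δᶜ h.2).min measurable_const).sub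
      ((measurable_fMax Δ h.1).max measurable_const))
  · have : (gl W1 W2 Δ : (Fin n → ℝ) → ℝ) = fun z => 0 := by
      ext z; unfold gl; rw [dif_neg h]
    rw [this]
    exact measurable_const

/-- The gaps cover the window. -/
lemma sum_gl {n : ℕ} {W1 W2 : ℝ} (hW : W1 ≤ W2) {z : Fin n → ℝ} {p m : Fin n}
    (hm : z m < W1) (hp : W2 < z p) : W2 - W1 ≤ ∑ Δ : Finset (Fin n), gl W1 W2 Δ z := by
  classical
  -- intervals
  set I : Finset (Fin n) → Set ℝ := fun Δ =>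
    if h : Δ.Nonempty ∧ Δᶜ.Nonempty then
      Ico (max (fMax Δ h.1 z) W1) (min (fMin Δᶜ h.2 z) W2) else ∅ with hI
  have hcover : Ico W1 W2 ⊆ ⋃ Δ ∈ (Finset.univ : Finset (Finset (Fin n))), I Δ := by
    intro ξ hξ
    simp only [Finset.mem_univ, iUnion_true, mem_iUnion]
    refine ⟨Finset.univ.filter fun i => z i ≤ ξ, ?_⟩
    set Δ := Finset.univ.filter fun i => z i ≤ ξ with hΔ
    have h1 : Δ.Nonempty := ⟨m, by rw [hΔ, Finset.mem_filter]; exact ⟨Finset.mem_univ _, by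
      linarith [hξ.1]⟩⟩
    have h2 : Δᶜ.Nonempty := ⟨p, by
      rw [Finset.mem_compl, hΔ, Finset.mem_filter]
      push Not
      intro _
      linarith [hξ.2]⟩
    rw [hI]
    simp only
    rw [dif_pos ⟨h1, h2⟩]
    constructor
    · apply max_le _ hξ.1
      apply Finset.sup'_le
      intro i hi
      rw [hΔ, Finset.mem_filter] at hi
      exact hi.2
    · apply lt_min _ hξ.2
      unfold fMin
      rw [Finset.lt_inf'_iff]
      intro i hi
      rw [Finset.mem_compl, hΔ, Finset.mem_filter] at hi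
      push Not at hi
      exact hi (Finset.mem_univ _)
  have h1 : volume.real (Ico W1 W2) ≤ ∑ Δ : Finset (Fin n), volume.real (I Δ) := by
    have hfin : ∀ Δ : Finset (Fin n), volume (I Δ) ≠ ∞ := by
      intro Δ
      rw [hI]
      simp only
      split_ifs
      · simp
      · simp
    refine (measureReal_mono hcover ?_).trans (measureReal_biUnion_finset_le _ _)
    exact (measure_biUnion_lt_top (Finset.finite_toSet _) fun Δ _ => (hfin Δ).lt_top).ne
  rw [Real.volume_real_Ico_of_le hW] at h1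
  refine h1.trans (Finset.sum_le_sum fun Δ _ => ?_)
  rw [hI]
  unfold gl
  simp only
  split_ifs with h
  · rw [Real.volume_real_Ico, max_comm]
  · simp

variable {β : ℝ} {ν : Measure ℝ} {n : ℕ} {x₀ : Fin n → ℝ} {X : ℝ≥0 → Ω → Fin n → ℝ}
  [IsProbabilityMeasure P]

/-- event that the gap opens around `[a, a+1]` -/
def Eset (X : ℝ≥0 → Ω → Fin n → ℝ) (a : ℝ) (t : ℝ≥0) (Δ : Finset (Fin n)) : Set Ω :=
  {ω | (∀ i ∈ Δ, X t ω i < a) ∧ ∀ i ∉ Δ, a + 1 < X t ω i}

/-- estimate for one gap -/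
lemma one_gap [IsFiniteMeasure ν] (hν : FiniteSpeed ν) (h : SolvesHW β ν x₀ P X) (s : ℝ≥0)
    (a : ℝ) {Ω₀ : Set Ω} (hΩ₀ : MeasurableSet[h.filt s] Ω₀) {ε : ℝ} (hε : 0 < ε)
    (Δ : Finset (Fin n)) :
    Real.exp (-Bump.Lam (spd ν)) / 32 *
      ∫ ω in Ω₀ ∩ {ω | 2 * ε ≤ gl (a + 1 / 2 - β - 1 / 4) (a + 1 / 2 - β + 1 / 4) Δ (X s ω)},
        gl (a + 1 / 2 - β - 1 / 4) (a + 1 / 2 - β + 1 / 4) Δ (X s ω) ∂P ≤
      Bump.C0 (Bump.KK (spd ν)) * P.real (Eset X a (s + 1) Δ) := by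
  have hb : 0 ≤ spd ν := hν.spd_nonneg
  set b := spd ν with hbdef
  set K := Bump.KK b with hKdef
  have hK : 1 ≤ K := Bump.KK_ge hb
  have hK0 : 0 ≤ K := by linarith
  set C := Bump.C0 K with hCdef
  have hC0 : 0 ≤ C := by rw [hCdef]; unfold Bump.C0; positivity
  set L := Bump.Lam b with hL
  set z0 := a + 1 / 2 - β with hz0
  set W1 := z0 - 1 / 4 with hW1
  set W2 := z0 + 1 / 4 with hW2
  have hW : W1 ≤ W2 := by rw [hW1, hW2]; linarith
  by_cases hΔ : Δ.Nonempty ∧ Δᶜ.Nonempty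
  swap
  · have : ∀ ω, gl W1 W2 Δ (X s ω) = 0 := by
      intro ω; unfold gl; rw [dif_neg hΔ]
    simp only [this, integral_zero, mul_zero]
    positivity
  set G : Set Ω := Ω₀ ∩ {ω | 2 * ε ≤ gl W1 W2 Δ (X s ω)} with hG
  have hglm : Measurable[h.filt s] (fun ω => gl W1 W2 Δ (X s ω)) :=
    (measurable_gl W1 W2 Δ).comp (h.adapted s)
  have hGm : MeasurableSet[h.filt s] G := hΩ₀.inter (measurableSet_le measurable_const hglm)
  have hGm' : MeasurableSet G := h.filt.le s _ hGm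
  -- R, L, p, q
  set R : Ω → ℝ := fun ω => fMax Δ hΔ.1 (X s ω) with hR
  set Lf : Ω → ℝ := fun ω => fMin Δᶜ hΔ.2 (X s ω) with hLf
  have mR : Measurable[h.filt s] R := (measurable_fMax Δ hΔ.1).comp (h.adapted s)
  have mL : Measurable[h.filt s] Lf := (measurable_fMin Δᶜ hΔ.2).comp (h.adapted s)
  set p : Ω → ℝ := fun ω => max (R ω) W1 with hp
  set q' : Ω → ℝ := fun ω => min (Lf ω) W2 with hq'
  have mp : Measurable[h.filt s] p := mR.max measurable_const
  have mq : Measurable[h.filt s] q' := mL.min measurable_const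
  set ρ : Ω → ℝ := fun ω => (p ω - R ω) + (Lf ω - q' ω) with hρ
  set θ : Ω → ℝ := fun ω => (Lf ω + R ω) / 2 - (p ω + q' ω) / 2 + z0 with hθ
  have mρ : Measurable[h.filt s] ρ := (mp.sub mR).add (mL.sub mq)
  have mθ : Measurable[h.filt s] θ :=
    (((mL.add mR).div_const 2).sub ((mp.add mq).div_const 2)).add_const z0
  have hpR : ∀ ω, 0 ≤ p ω - R ω := fun ω => sub_nonneg.2 (le_max_left _ _)
  have hLq : ∀ ω, 0 ≤ Lf ω - q' ω := fun ω => sub_nonneg.2 (min_le_left _ _)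
  have hρ0 : ∀ ω ∈ G, 0 ≤ ρ ω := fun ω _ => add_nonneg (hpR ω) (hLq ω)
  have ev := h.evolve hν Δ Δᶜ hΔ.1 hΔ.2 s hGm mρ mθ hρ0 hε
  rw [← hbdef, ← hKdef, ← hL] at ev
  -- lower bound at time s
  have hlow : ∀ ω ∈ G, gl W1 W2 Δ (X s ω) / 32 ≤
      Bump.F K (xP X Δ Δᶜ hΔ.1 hΔ.2 ρ ε s s ω) (mP β X Δ Δᶜ hΔ.1 hΔ.2 θ s s ω) := by
    intro ω hω
    have h2 : 2 * ε ≤ gl W1 W2 Δ (X s ω) := hω.2
    have hgl : gl W1 W2 Δ (X s ω) = max 0 (q' ω - p ω) := by
      unfold gl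
      rw [dif_pos hΔ]
    have hglpos : 0 < gl W1 W2 Δ (X s ω) := by linarith
    have hqp : gl W1 W2 Δ (X s ω) = q' ω - p ω := by
      rw [hgl] at hglpos ⊢
      rcases le_total (q' ω - p ω) 0 with h3 | h3
      · rw [max_eq_left h3] at hglpos
        exact absurd hglpos (lt_irrefl _)
      · exact max_eq_right h3
    have hx : xP X Δ Δᶜ hΔ.1 hΔ.2 ρ ε s s ω = gl W1 W2 Δ (X s ω) - ε := by
      rw [hqp]
      unfold xP
      simp only [hρ, hR, hLf]
      ring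
    have hm : mP β X Δ Δᶜ hΔ.1 hΔ.2 θ s s ω = (p ω + q' ω) / 2 - z0 := by
      unfold mP
      simp only [hθ, hR, hLf]
      ring
    have hle := gl_le hW Δ (X s ω)
    have hp1 : W1 ≤ p ω := le_max_right _ _
    have hq1 : q' ω ≤ W2 := min_le_right _ _
    rw [hx, hm]
    have hlo := Bump.F_lower (K := K) (x := gl W1 W2 Δ (X s ω) - ε) (m := (p ω + q' ω) / 2 - z0)
      hK0 (by linarith) (by rw [hW1, hW2] at hle; linarith)
      (by
        rw [hqp] at hglpos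
        rw [abs_le]
        rw [hW1] at hp1
        rw [hW2] at hq1
        constructor <;> linarith)
    refine le_trans ?_ hlo
    linarith
  have glint : Integrable (fun ω => gl W1 W2 Δ (X s ω)) P := by
    refine Integrable.of_bound (hglm.mono (h.filt.le s) le_rfl).aestronglyMeasurable (W2 - W1)
      (Eventually.of_forall fun ω => ?_)
    rw [Real.norm_eq_abs, abs_of_nonneg (gl_nonneg _ _ _ _)]
    exact gl_le hW Δ _
  have mx : ∀ u, s ≤ u → Measurable (xP X Δ Δᶜ hΔ.1 hΔ.2 ρ ε s u) := fun u hu =>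
    (h.measurable_xP Δ Δᶜ hΔ.1 hΔ.2 hu mρ ε).mono (h.filt.le u) le_rfl
  have mm : ∀ u, s ≤ u → Measurable (mP β X Δ Δᶜ hΔ.1 hΔ.2 θ s u) := fun u hu =>
    (h.measurable_mP Δ Δᶜ hΔ.1 hΔ.2 hu mθ).mono (h.filt.le u) le_rfl
  have IF : ∀ u, s ≤ u → Integrable (fun ω => Bump.F K (xP X Δ Δᶜ hΔ.1 hΔ.2 ρ ε s u ω)
      (mP β X Δ Δᶜ hΔ.1 hΔ.2 θ s u ω)) P := fun u hu => h.integrable_F hK0 (mx u hu) (mm u hu)
  have s1 : ∫ ω in G, gl W1 W2 Δ (X s ω) / 32 ∂P ≤
      ∫ ω in G, Bump.F K (xP X Δ Δᶜ hΔ.1 hΔ.2 ρ ε s s ω)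
        (mP β X Δ Δᶜ hΔ.1 hΔ.2 θ s s ω) ∂P := by
    apply setIntegral_mono_on (glint.div_const 32).integrableOn (IF s le_rfl).integrableOn hGm'
    exact hlow
  -- upper bound at time s + 1
  have hEm : MeasurableSet (Eset X a (s + 1) Δ) := by
    have hmi : ∀ i : Fin n, Measurable fun ω => X (s + 1) ω i := fun i =>
      (measurable_pi_apply i).comp (h.measurable (s + 1)).measurable
    have : Eset X a (s + 1) Δ = (⋂ i ∈ Δ, {ω | X (s + 1) ω i < a}) ∩
        ⋂ i ∈ Δᶜ, {ω | a + 1 < X (s + 1) ω i} := by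
      ext ω; simp [Eset]
    rw [this]
    exact (Finset.measurableSet_biInter _ fun i _ => measurableSet_lt (hmi i) measurable_const).inter
      (Finset.measurableSet_biInter _ fun i _ => measurableSet_lt measurable_const (hmi i))
  have hup : ∀ ω, Bump.F K (xP X Δ Δᶜ hΔ.1 hΔ.2 ρ ε s (s + 1) ω)
      (mP β X Δ Δᶜ hΔ.1 hΔ.2 θ s (s + 1) ω) ≤ (Eset X a (s + 1) Δ).indicator (fun _ => C) ω := by
    intro ω
    by_cases hF : Bump.F K (xP X Δ Δᶜ hΔ.1 hΔ.2 ρ ε s (s + 1) ω)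
      (mP β X Δ Δᶜ hΔ.1 hΔ.2 θ s (s + 1) ω) = 0
    · rw [hF]
      apply indicator_nonneg
      intro _ _
      exact hC0
    · obtain ⟨f1, -, f3⟩ := Bump.F_pos hF
      have hω : ω ∈ Eset X a (s + 1) Δ := by
        unfold xP at f1
        unfold mP at f3
        simp only [hρ] at f1
        simp only [hθ] at f3
        push_cast at f1 f3
        have g1 := hpR ω
        have g2 := hLq ω
        rw [abs_lt] at f3
        obtain ⟨f4, f5⟩ := f3
        constructor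
        · intro i hi
          have h4 : X (s + 1) ω i ≤ fMax Δ hΔ.1 (X (s + 1) ω) := Finset.le_sup' _ hi
          rw [hz0] at f4 f5
          linarith
        · intro i hi
          have h4 : fMin Δᶜ hΔ.2 (X (s + 1) ω) ≤ X (s + 1) ω i :=
            Finset.inf'_le _ (Finset.mem_compl.2 hi)
          rw [hz0] at f4 f5
          linarith
      rw [indicator_of_mem hω]
      exact Bump.F_le hK0
  have s2 : ∫ ω in G, Bump.F K (xP X Δ Δᶜ hΔ.1 hΔ.2 ρ ε s (s + 1) ω)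
      (mP β X Δ Δᶜ hΔ.1 hΔ.2 θ s (s + 1) ω) ∂P ≤ C * P.real (Eset X a (s + 1) Δ) := by
    have hs : s ≤ s + 1 := le_self_add
    have t1 : ∫ ω in G, Bump.F K (xP X Δ Δᶜ hΔ.1 hΔ.2 ρ ε s (s + 1) ω)
        (mP β X Δ Δᶜ hΔ.1 hΔ.2 θ s (s + 1) ω) ∂P ≤
        ∫ ω, Bump.F K (xP X Δ Δᶜ hΔ.1 hΔ.2 ρ ε s (s + 1) ω)
        (mP β X Δ Δᶜ hΔ.1 hΔ.2 θ s (s + 1) ω) ∂P :=
      setIntegral_le_integral (IF (s + 1) hs)
        (Eventually.of_forall fun ω => Bump.F_nonneg hK0)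
    refine t1.trans ?_
    have t2 : ∫ ω, Bump.F K (xP X Δ Δᶜ hΔ.1 hΔ.2 ρ ε s (s + 1) ω)
        (mP β X Δ Δᶜ hΔ.1 hΔ.2 θ s (s + 1) ω) ∂P ≤
        ∫ ω, (Eset X a (s + 1) Δ).indicator (fun _ => C) ω ∂P := by
      apply integral_mono (IF (s + 1) hs)
      · exact (integrable_const C).indicator hEm
      · exact hup
    refine t2.trans (le_of_eq ?_)
    rw [integral_indicator hEm, setIntegral_const, smul_eq_mul, mul_comm]
  have s3 : ∫ ω in G, gl W1 W2 Δ (X s ω) / 32 ∂P = (1 / 32) * ∫ ω in G, gl W1 W2 Δ (X s ω) ∂P := by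
    rw [← integral_const_mul]
    congr 1
    ext ω
    ring
  have s4 := mul_le_mul_of_nonneg_left s1 (Real.exp_pos (-L)).le
  rw [s3] at s4
  calc Real.exp (-L) / 32 * ∫ ω in G, gl W1 W2 Δ (X s ω) ∂P
      = Real.exp (-L) * (1 / 32 * ∫ ω in G, gl W1 W2 Δ (X s ω) ∂P) := by ring
    _ ≤ _ := s4.trans (ev.trans s2)

/-- the constant in the estimate -/
noncomputable def cst (b : ℝ) : ℝ := Real.exp (-Bump.Lam b) / (512 * Bump.C0 (Bump.KK b))

lemma cst_pos {b : ℝ} (hb : 0 ≤ b) : 0 < cst b := by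
  unfold cst
  have := Bump.KK_ge hb
  have : 0 < Bump.C0 (Bump.KK b) := by unfold Bump.C0; linarith
  positivity

/-- With probability bounded below there is no particle in `[a, a+1]` at time `s+1`. -/
theorem no_particle [IsFiniteMeasure ν] (hν : FiniteSpeed ν) (h : SolvesHW β ν x₀ P X) (s : ℝ≥0)
    (a : ℝ) (p m : Fin n)
    (hpm : 1 / 2 ≤ P.real {ω | X s ω m < a + 1 / 2 - β - 1 / 4 ∧ a + 1 / 2 - β + 1 / 4 < X s ω p}) :
    cst (spd ν) ≤ P.real {ω | ∀ i, X (s + 1) ω i ∈ (Icc a (a + 1))ᶜ} := by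
  classical
  have hb : 0 ≤ spd ν := hν.spd_nonneg
  set b := spd ν with hbdef
  set K := Bump.KK b with hKdef
  have hK : 1 ≤ K := Bump.KK_ge hb
  set C := Bump.C0 K with hCdef
  have hC0 : 0 < C := by rw [hCdef]; unfold Bump.C0; linarith
  set L := Bump.Lam b with hL
  set W1 := a + 1 / 2 - β - 1 / 4 with hW1
  set W2 := a + 1 / 2 - β + 1 / 4 with hW2
  have hW : W1 ≤ W2 := by rw [hW1, hW2]; linarith
  set Ω₀ : Set Ω := {ω | X s ω m < W1 ∧ W2 < X s ω p} with hΩ₀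
  have hΩ₀m : MeasurableSet[h.filt s] Ω₀ := by
    have hmi : ∀ i : Fin n, Measurable[h.filt s] fun ω => X s ω i := fun i =>
      (measurable_pi_apply i).comp (h.adapted s)
    exact (measurableSet_lt (hmi m) measurable_const).inter
      (measurableSet_lt measurable_const (hmi p))
  have hΩ₀m' : MeasurableSet Ω₀ := h.filt.le s _ hΩ₀m
  set ε : ℝ := 1 / (8 * 2 ^ n) with hε
  have hε0 : 0 < ε := by positivity
  have glm : ∀ Δ : Finset (Fin n), Measurable (fun ω => gl W1 W2 Δ (X s ω)) := fun Δ =>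
    (measurable_gl W1 W2 Δ).comp (h.measurable s).measurable
  have hsetm : ∀ Δ : Finset (Fin n), MeasurableSet {ω | 2 * ε ≤ gl W1 W2 Δ (X s ω)} := fun Δ =>
    measurableSet_le measurable_const (glm Δ)
  have glint : ∀ Δ : Finset (Fin n), Integrable (fun ω => gl W1 W2 Δ (X s ω)) P := by
    intro Δ
    refine Integrable.of_bound (glm Δ).aestronglyMeasurable (W2 - W1)
      (Eventually.of_forall fun ω => ?_)
    rw [Real.norm_eq_abs, abs_of_nonneg (gl_nonneg _ _ _ _)]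
    exact gl_le hW Δ _
  -- sum over all gaps
  have sum1 := Finset.sum_le_sum fun (Δ : Finset (Fin n)) (_ : Δ ∈ Finset.univ) =>
    h.one_gap hν s a hΩ₀m hε0 Δ
  rw [← hbdef, ← hKdef, ← hCdef, ← hL, ← Finset.mul_sum, ← Finset.mul_sum] at sum1
  have hdisj : Pairwise (Function.onFun Disjoint (Eset X a (s + 1))) := by
    intro Δ Δ' hne
    rw [Function.onFun, Set.disjoint_left]
    rintro ω ⟨h1, h2⟩ ⟨h3, h4⟩
    apply hne
    ext i
    constructor
    · intro hi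
      by_contra hi'
      have := h1 i hi
      have := h4 i hi'
      linarith
    · intro hi
      by_contra hi'
      have := h3 i hi
      have := h2 i hi'
      linarith
  have hEm : ∀ Δ, MeasurableSet (Eset X a (s + 1) Δ) := by
    intro Δ
    have hmi : ∀ i : Fin n, Measurable fun ω => X (s + 1) ω i := fun i =>
      (measurable_pi_apply i).comp (h.measurable (s + 1)).measurable
    have : Eset X a (s + 1) Δ = (⋂ i ∈ Δ, {ω | X (s + 1) ω i < a}) ∩
        ⋂ i ∈ Δᶜ, {ω | a + 1 < X (s + 1) ω i} := by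
      ext ω; simp [Eset]
    rw [this]
    exact (Finset.measurableSet_biInter _ fun i _ => measurableSet_lt (hmi i) measurable_const).inter
      (Finset.measurableSet_biInter _ fun i _ => measurableSet_lt measurable_const (hmi i))
  have hE : ∑ Δ : Finset (Fin n), P.real (Eset X a (s + 1) Δ) ≤
      P.real {ω | ∀ i, X (s + 1) ω i ∈ (Icc a (a + 1))ᶜ} := by
    rw [← measureReal_biUnion_finset (fun Δ _ Δ' _ hne => hdisj hne) (fun Δ _ => hEm Δ)]
    apply measureReal_mono _ (measure_ne_top P _)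
    intro ω hω
    simp only [Finset.mem_univ, iUnion_true, mem_iUnion] at hω
    obtain ⟨Δ, h1, h2⟩ := hω
    intro i
    by_cases hi : i ∈ Δ
    · have := h1 i hi
      intro hcon
      linarith [hcon.1]
    · have := h2 i hi
      intro hcon
      linarith [hcon.2]
  -- lower bound of the left side
  have hL1 : (1 / 4) * P.real Ω₀ ≤ ∑ Δ : Finset (Fin n),
      ∫ ω in Ω₀ ∩ {ω | 2 * ε ≤ gl W1 W2 Δ (X s ω)}, gl W1 W2 Δ (X s ω) ∂P := by
    have e1 : ∀ Δ : Finset (Fin n),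
        ∫ ω in Ω₀ ∩ {ω | 2 * ε ≤ gl W1 W2 Δ (X s ω)}, gl W1 W2 Δ (X s ω) ∂P =
        ∫ ω in Ω₀, {ω | 2 * ε ≤ gl W1 W2 Δ (X s ω)}.indicator
          (fun ω => gl W1 W2 Δ (X s ω)) ω ∂P := by
      intro Δ
      rw [setIntegral_indicator (hsetm Δ)]
    simp only [e1]
    rw [← integral_finsetSum _ fun Δ _ => ((glint Δ).indicator (hsetm Δ)).integrableOn]
    have e2 : (1 / 4) * P.real Ω₀ = ∫ _ in Ω₀, (1 / 4 : ℝ) ∂P := by
      rw [setIntegral_const, smul_eq_mul, mul_comm]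
    rw [e2]
    apply setIntegral_mono_on (integrable_const _).integrableOn
      (integrable_finsetSum _ fun Δ _ => (glint Δ).indicator (hsetm Δ)).integrableOn hΩ₀m'
    intro ω hω
    have h1 := sum_gl hW hω.1 hω.2
    have h2 : ∑ Δ : Finset (Fin n), gl W1 W2 Δ (X s ω) ≤
        ∑ Δ : Finset (Fin n), ({ω | 2 * ε ≤ gl W1 W2 Δ (X s ω)}.indicator
          (fun ω => gl W1 W2 Δ (X s ω)) ω + 2 * ε) := by
      apply Finset.sum_le_sum
      intro Δ _
      by_cases hω2 : ω ∈ {ω | 2 * ε ≤ gl W1 W2 Δ (X s ω)}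
      · rw [indicator_of_mem hω2]
        linarith
      · rw [indicator_of_notMem hω2]
        have : gl W1 W2 Δ (X s ω) < 2 * ε := not_le.1 hω2
        linarith
    rw [Finset.sum_add_distrib, Finset.sum_const, Finset.card_univ, Fintype.card_finset,
      Fintype.card_fin, nsmul_eq_mul] at h2
    have h3 : ((2 ^ n : ℕ) : ℝ) * (2 * ε) = 1 / 4 := by
      rw [hε]; push_cast; field_simp; norm_num
    rw [h3] at h2
    have h4 : W2 - W1 = 1 / 2 := by rw [hW1, hW2]; ring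
    linarith
  have h5 : (1 / 8 : ℝ) ≤ (1 / 4) * P.real Ω₀ := by linarith
  have h6 := mul_le_mul_of_nonneg_left (h5.trans hL1) (by positivity : 0 ≤ Real.exp (-L) / 32)
  have h7 := mul_le_mul_of_nonneg_left hE hC0.le
  have h8 : Real.exp (-L) / 32 * (1 / 8) ≤
      C * P.real {ω | ∀ i, X (s + 1) ω i ∈ (Icc a (a + 1))ᶜ} := h6.trans (sum1.trans h7)
  have h9 : cst b = Real.exp (-L) / (512 * C) := rfl
  rw [h9, div_le_iff₀ (by positivity)]
  have h10 := Real.exp_pos (-L)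
  nlinarith

end SolvesHW

end Pool.Agent.H88.HW
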