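import Pool.Agent.H88.HW.Basic

open MeasureTheory ProbabilityTheory Filter Set
open scoped ENNReal NNReal Topology

namespace Pool.Agent.H88.HW

variable {β : ℝ} {ν : Measure ℝ} {n : ℕ} {x₀ : Fin n → ℝ} {Ω : Type*} [MeasurableSpace Ω]
  {P : Measure Ω} {X : ℝ≥0 → Ω → Fin n → ℝ}

lemma betaPlus_one (β : ℝ) (ν : Measure ℝ) : betaPlus β ν 1 = β := by simp [betaPlus]

lemma fMax_singleton (i : Fin n) (x : Fin n → ℝ) : fMax {i} (Finset.singleton_nonempty i) x = x i := by
  simp [fMax]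

lemma gCount_singleton (i : Fin n) (x : Fin n → ℝ) :
    gCount {i} (Finset.singleton_nonempty i) x = 1 := by
  simp [gCount, fMax_singleton, Finset.filter_singleton]

lemma measurable_fMax (Δ : Finset (Fin n)) (hΔ : Δ.Nonempty) : Measurable (fMax Δ hΔ) := by
  have : Measurable (Δ.sup' hΔ (fun i (x : Fin n → ℝ) => x i)) :=
    Finset.measurable_sup' hΔ (fun i _ => measurable_pi_apply i)
  have h2 : fMax Δ hΔ = Δ.sup' hΔ (fun i (x : Fin n → ℝ) => x i) := by
    ext x
    simp [fMax]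
  rwa [h2]

lemma measurable_gCount (Δ : Finset (Fin n)) (hΔ : Δ.Nonempty) : Measurable (gCount Δ hΔ) := by
  have h2 : gCount Δ hΔ = fun x => ∑ i ∈ Δ, if x i = fMax Δ hΔ x then 1 else 0 := by
    ext x
    rw [gCount, Finset.card_filter]
  rw [h2]
  refine Finset.measurable_sum _ fun i _ => ?_
  refine Measurable.ite ?_ measurable_const measurable_const
  exact measurableSet_eq_fun (measurable_pi_apply i) (measurable_fMax Δ hΔ)

namespace SolvesHW

lemma M_martingale (h : SolvesHW β ν x₀ P X) (i : Fin n) : Martingale (M β X i) h.filt P := by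
  have := h.max_martingale {i} (Finset.singleton_nonempty i)
  convert! this using 1
  ext t ω
  simp only [fMax_singleton, gCount_singleton, betaPlus_one, M]
  simp [mul_comm]

lemma M_memLp [IsProbabilityMeasure P] (h : SolvesHW β ν x₀ P X) (i : Fin n) (t : ℝ≥0) :
    MemLp (M β X i t) 2 P :=
  (h.sqInt t i).sub (memLp_const _)

lemma M_meas (h : SolvesHW β ν x₀ P X) (i : Fin n) (t : ℝ≥0) :
    StronglyMeasurable[h.filt t] (M β X i t) := (h.M_martingale i).stronglyMeasurable t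

lemma integrable_MM [IsProbabilityMeasure P] (h : SolvesHW β ν x₀ P X) (i j : Fin n)
    (t t' : ℝ≥0) : Integrable (fun ω => M β X i t ω * M β X j t' ω) P :=
  (h.M_memLp i t).integrable_mul (h.M_memLp j t')

/-- indicator of `x i = x j` -/
noncomputable def eqInd (i j : Fin n) (x : Fin n → ℝ) : ℝ := if x i = x j then 1 else 0

lemma measurable_eqInd (i j : Fin n) : Measurable (eqInd i j) :=
  Measurable.ite (measurableSet_eq_fun (measurable_pi_apply i) (measurable_pi_apply j))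
    measurable_const measurable_const

lemma eqInd_nonneg (i j : Fin n) (x : Fin n → ℝ) : 0 ≤ eqInd i j x := by
  unfold eqInd; split_ifs <;> norm_num

lemma eqInd_le (i j : Fin n) (x : Fin n → ℝ) : |eqInd i j x| ≤ 1 := by
  unfold eqInd; split_ifs <;> norm_num

lemma pair_M [IsProbabilityMeasure P] (h : SolvesHW β ν x₀ P X) (i : Fin n)
    {u u' : ℝ≥0} (huu' : u ≤ u') {ξ : Ω → ℝ} (hξ : StronglyMeasurable[h.filt u] ξ) {C : ℝ}
    (hC : ∀ ω, |ξ ω| ≤ C) :
    ∫ ω, ξ ω * (M β X i u' ω - M β X i u ω) ∂P = 0 :=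
  mart_pair_bdd (h.M_martingale i) huu' hξ hC

lemma integrable_pair_sq [IsProbabilityMeasure P] (h : SolvesHW β ν x₀ P X) (i j : Fin n)
    (u u' : ℝ≥0) {ξ : Ω → ℝ} (hξ : AEStronglyMeasurable ξ P) {C : ℝ}
    (hC : ∀ ω, |ξ ω| ≤ C) :
    Integrable (fun ω => ξ ω * ((M β X i u' ω - M β X i u ω) * (M β X j u' ω - M β X j u ω))) P := by
  apply integrable_bdd_mul hξ hC
  exact ((h.M_memLp i u').sub (h.M_memLp i u)).integrable_mul
    ((h.M_memLp j u').sub (h.M_memLp j u))

lemma pair_cov [IsProbabilityMeasure P] (h : SolvesHW β ν x₀ P X) (i j : Fin n)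
    {u u' : ℝ≥0} (huu' : u ≤ u') {ξ : Ω → ℝ} (hξ : StronglyMeasurable[h.filt u] ξ) {C : ℝ}
    (hC : ∀ ω, |ξ ω| ≤ C) :
    ∫ ω, ξ ω * ((M β X i u' ω - M β X i u ω) * (M β X j u' ω - M β X j u ω)) ∂P =
      ∫ ω, ξ ω * occ X (eqInd i j) u u' ω ∂P := by
  have hξ' : AEStronglyMeasurable ξ P := (hξ.mono (h.filt.le u)).aestronglyMeasurable
  have hmart : Martingale (fun (t : ℝ≥0) ω => M β X i t ω * M β X j t ω -
      ∫ r in (0 : ℝ)..t, eqInd i j (X r.toNNReal ω)) h.filt P := h.covariation i j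
  have h1 := h.pair_increment (N := fun t ω => M β X i t ω * M β X j t ω)
    (fun t => h.integrable_MM i j t t)
    (measurable_eqInd i j) (eqInd_le i j) hmart huu' hξ hC
  rw [← h1]
  -- orthogonality
  have o1 : ∀ i j : Fin n, ∫ ω, ξ ω * M β X i u ω * M β X j u' ω ∂P =
      ∫ ω, ξ ω * M β X i u ω * M β X j u ω ∂P := by
    intro i j
    apply mart_pair (h.M_martingale j) huu' (hξ.mul (h.M_meas i u))
    simp only [Pi.mul_apply, mul_assoc]
    exact integrable_bdd_mul hξ' hC (h.integrable_MM i j u u')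
  have e1 : ∀ ω, ξ ω * ((M β X i u' ω - M β X i u ω) * (M β X j u' ω - M β X j u ω)) =
      ξ ω * (M β X i u' ω * M β X j u' ω - M β X i u ω * M β X j u ω)
      - (ξ ω * M β X i u ω * M β X j u' ω - ξ ω * M β X i u ω * M β X j u ω)
      - (ξ ω * M β X j u ω * M β X i u' ω - ξ ω * M β X j u ω * M β X i u ω) := by
    intro ω; ring
  simp only [e1]
  have I1 : ∀ (i j : Fin n) (t t' : ℝ≥0),
      Integrable (fun ω => ξ ω * M β X i t ω * M β X j t' ω) P := by
    intro i j t t'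
    simp only [mul_assoc]
    exact integrable_bdd_mul hξ' hC (h.integrable_MM i j t t')
  have I2 : Integrable (fun ω => ξ ω * (M β X i u' ω * M β X j u' ω - M β X i u ω * M β X j u ω)) P :=
    integrable_bdd_mul hξ' hC ((h.integrable_MM i j u' u').sub (h.integrable_MM i j u u))
  have I3 : ∀ i j : Fin n, Integrable (fun ω => ξ ω * M β X i u ω * M β X j u' ω -
      ξ ω * M β X i u ω * M β X j u ω) P := fun i j => (I1 i j u u').sub (I1 i j u u)
  have I4 : Integrable (fun ω => ξ ω * (M β X i u' ω * M β X j u' ω - M β X i u ω * M β X j u ω)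
      - (ξ ω * M β X i u ω * M β X j u' ω - ξ ω * M β X i u ω * M β X j u ω)) P :=
    I2.sub (I3 i j)
  rw [integral_sub I4 (I3 j i), integral_sub I2 (I3 i j),
    integral_sub (I1 i j u u') (I1 i j u u), integral_sub (I1 j i u u') (I1 j i u u),
    o1 i j, o1 j i]
  ring

omit [MeasurableSpace Ω] in
lemma occ_eqInd_self (i : Fin n) (a b : ℝ) (ω : Ω) :
    occ X (eqInd i i) a b ω = b - a := by
  simp [occ, eqInd]

lemma pair_sq [IsProbabilityMeasure P] (h : SolvesHW β ν x₀ P X) (i : Fin n)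
    {u u' : ℝ≥0} (huu' : u ≤ u') {ξ : Ω → ℝ} (hξ : StronglyMeasurable[h.filt u] ξ) {C : ℝ}
    (hC : ∀ ω, |ξ ω| ≤ C) :
    ∫ ω, ξ ω * (M β X i u' ω - M β X i u ω) ^ 2 ∂P = ((u' : ℝ) - u) * ∫ ω, ξ ω ∂P := by
  have := h.pair_cov i i huu' hξ hC
  simp only [occ_eqInd_self] at this
  simp only [sq]
  rw [this, integral_mul_const, mul_comm]

lemma pair_max [IsProbabilityMeasure P] (h : SolvesHW β ν x₀ P X) (Δ : Finset (Fin n))
    (hΔ : Δ.Nonempty) {u u' : ℝ≥0} (huu' : u ≤ u') {ξ : Ω → ℝ}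
    (hξ : StronglyMeasurable[h.filt u] ξ) {C : ℝ} (hC : ∀ ω, |ξ ω| ≤ C) :
    ∫ ω, ξ ω * (fMax Δ hΔ (X u' ω) - fMax Δ hΔ (X u ω)) ∂P =
      ∫ ω, ξ ω * occ X (fun x => betaPlus β ν (gCount Δ hΔ x)) u u' ω ∂P := by
  have hG : Measurable (fun x : Fin n → ℝ => betaPlus β ν (gCount Δ hΔ x)) :=
    (measurable_of_countable (fun m : ℕ => betaPlus β ν m)).comp (measurable_gCount Δ hΔ)
  obtain ⟨C', hC'⟩ : ∃ C' : ℝ, ∀ x : Fin n → ℝ, |betaPlus β ν (gCount Δ hΔ x)| ≤ C' := by
    refine ⟨∑ m ∈ Finset.range (n + 1), |betaPlus β ν m|, fun x => ?_⟩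
    refine Finset.single_le_sum (f := fun m => |betaPlus β ν m|) (fun _ _ => abs_nonneg _) ?_
    rw [Finset.mem_range]
    have : gCount Δ hΔ x ≤ Fintype.card (Fin n) := by
      unfold gCount
      exact Finset.card_le_univ _
    simp at this
    omega
  refine h.pair_increment (N := fun t ω => fMax Δ hΔ (X t ω)) (fun t => ?_) hG hC'
    (h.max_martingale Δ hΔ) huu' hξ hC
  have h1 := (h.max_martingale Δ hΔ).integrable t
  have h2 := h.integrable_occ hG hC' (a := 0) (b := t) t.2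
  have h3 := h1.add h2
  refine h3.congr (Eventually.of_forall fun ω => ?_)
  simp [occ]

end SolvesHW

end Pool.Agent.H88.HW
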