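import Pool.Agent.H88.HW.StepExp

open MeasureTheory ProbabilityTheory Filter Set
open scoped ENNReal NNReal Topology

namespace Pool.Agent.H88.HW

variable {Ω : Type*} [MeasurableSpace Ω] {P : Measure Ω}

namespace SolvesHW

variable {β : ℝ} {ν : Measure ℝ} {n : ℕ} {x₀ : Fin n → ℝ} {X : ℝ≥0 → Ω → Fin n → ℝ}
  [IsProbabilityMeasure P]

lemma integral_dM_sq (h : SolvesHW β ν x₀ P X) (i : Fin n) {u u' : ℝ≥0} (huu' : u ≤ u') :
    ∫ ω, (dM β X i u u' ω) ^ 2 ∂P = (u' : ℝ) - u := by
  have := h.pair_sq i huu' (ξ := fun _ => 1) stronglyMeasurable_const (C := 1) (by simp)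
  simpa [dM] using this

/-- The two particles do not meet much if they start far apart. -/
lemma J_bound (h : SolvesHW β ν x₀ P X) (i j : Fin n) {u u' : ℝ≥0} (huu' : u ≤ u')
    {A : Set Ω} (hA : MeasurableSet[h.filt u] A) {ε : ℝ} (hε : 0 < ε)
    (hgap : ∀ ω ∈ A, ε ≤ X u ω j - X u ω i) :
    ∫ ω, A.indicator (fun _ => (1 : ℝ)) ω * occ X (eqInd i j) u u' ω ∂P ≤
      4 / ε ^ 2 * ((u' : ℝ) - u) ^ 2 := by
  have huu'' : (u : ℝ) ≤ u' := by exact_mod_cast huu'
  have hA' : MeasurableSet A := h.filt.le u A hA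
  have hmeas : Measurable (fun p : Ω × ℝ =>
      A.indicator (fun _ => (1 : ℝ)) p.1 * eqInd i j (X p.2.toNNReal p.1)) := by
    apply Measurable.mul
    · exact (measurable_const.indicator hA').comp measurable_fst
    · exact (measurable_eqInd i j).comp h.jointly
  have hint : Integrable (fun p : Ω × ℝ =>
      A.indicator (fun _ => (1 : ℝ)) p.1 * eqInd i j (X p.2.toNNReal p.1))
      (P.prod (volume.restrict (Ioc (u : ℝ) u'))) := by
    refine Integrable.of_bound hmeas.aestronglyMeasurable 1 (Eventually.of_forall fun p => ?_)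
    rw [Real.norm_eq_abs]
    have h1 : |A.indicator (fun _ => (1 : ℝ)) p.1| ≤ 1 := by
      by_cases hp : p.1 ∈ A <;> simp [hp]
    have h2 := eqInd_le i j (X p.2.toNNReal p.1)
    have := Bump.absmul h1 h2
    linarith
  have e1 : ∀ ω, A.indicator (fun _ => (1 : ℝ)) ω * occ X (eqInd i j) u u' ω =
      ∫ r in Ioc (u : ℝ) u', A.indicator (fun _ => (1 : ℝ)) ω * eqInd i j (X r.toNNReal ω) := by
    intro ω
    rw [occ, intervalIntegral.integral_of_le huu'', integral_const_mul]
  simp only [e1]
  rw [integral_integral_swap hint]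
  have key : ∀ r ∈ Ioc (u : ℝ) u',
      ∫ ω, A.indicator (fun _ => (1 : ℝ)) ω * eqInd i j (X r.toNNReal ω) ∂P ≤
        4 / ε ^ 2 * ((u' : ℝ) - u) := by
    intro r hr
    have hr0 : 0 ≤ r := u.2.trans hr.1.le
    have hur : u ≤ r.toNNReal := by
      rw [← NNReal.coe_le_coe, Real.coe_toNNReal r hr0]; exact hr.1.le
    have hb : ∀ ω, A.indicator (fun _ => (1 : ℝ)) ω * eqInd i j (X r.toNNReal ω) ≤
        2 / ε ^ 2 * (dM β X i u r.toNNReal ω) ^ 2 + 2 / ε ^ 2 * (dM β X j u r.toNNReal ω) ^ 2 := by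
      intro ω
      by_cases hω : ω ∈ A
      · rw [indicator_of_mem hω, one_mul]
        unfold eqInd
        split_ifs with heq
        · have h1 := hgap ω hω
          have h2 : dM β X i u r.toNNReal ω - dM β X j u r.toNNReal ω = X u ω j - X u ω i := by
            unfold dM M
            rw [heq]; ring
          have h3 : ε ^ 2 ≤ (dM β X i u r.toNNReal ω - dM β X j u r.toNNReal ω) ^ 2 := by
            rw [h2]; exact pow_le_pow_left₀ hε.le h1 2
          have h4 : ε ^ 2 ≤ 2 * (dM β X i u r.toNNReal ω) ^ 2 + 2 * (dM β X j u r.toNNReal ω) ^ 2 := by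
            nlinarith [sq_nonneg (dM β X i u r.toNNReal ω + dM β X j u r.toNNReal ω)]
          have h5 : 2 / ε ^ 2 * (dM β X i u r.toNNReal ω) ^ 2 +
              2 / ε ^ 2 * (dM β X j u r.toNNReal ω) ^ 2 =
              (2 * (dM β X i u r.toNNReal ω) ^ 2 + 2 * (dM β X j u r.toNNReal ω) ^ 2) / ε ^ 2 := by
            ring
          rw [h5, le_div_iff₀ (by positivity)]
          linarith
        · positivity
      · rw [indicator_of_notMem hω, zero_mul]
        positivity
    have s1 : Integrable (fun ω => (dM β X i u r.toNNReal ω) ^ 2) P :=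
      (h.dM_memLp i u r.toNNReal).integrable_sq
    have s2 : Integrable (fun ω => (dM β X j u r.toNNReal ω) ^ 2) P :=
      (h.dM_memLp j u r.toNNReal).integrable_sq
    have s0 : Integrable (fun ω => A.indicator (fun _ => (1 : ℝ)) ω *
        eqInd i j (X r.toNNReal ω)) P := by
      refine Integrable.of_bound (Measurable.aestronglyMeasurable ?_) 1
        (Eventually.of_forall fun ω => ?_)
      · exact (measurable_const.indicator hA').mul
          ((measurable_eqInd i j).comp (h.measurable _).measurable)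
      · rw [Real.norm_eq_abs]
        have h1 : |A.indicator (fun _ => (1 : ℝ)) ω| ≤ 1 := by
          by_cases hp : ω ∈ A <;> simp [hp]
        have h2 := eqInd_le i j (X r.toNNReal ω)
        have := Bump.absmul h1 h2
        linarith
    have := integral_mono s0 ((s1.const_mul (2 / ε ^ 2)).add (s2.const_mul (2 / ε ^ 2))) hb
    refine this.trans ?_
    have e2 := integral_add (s1.const_mul (2 / ε ^ 2)) (s2.const_mul (2 / ε ^ 2))
    simp only [Pi.add_apply]
    rw [e2, integral_const_mul, integral_const_mul, h.integral_dM_sq i hur,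
      h.integral_dM_sq j hur, Real.coe_toNNReal r hr0]
    have h6 : 2 / ε ^ 2 * (r - u) + 2 / ε ^ 2 * (r - u) = 4 / ε ^ 2 * (r - u) := by ring
    rw [h6]
    apply mul_le_mul_of_nonneg_left _ (by positivity)
    linarith [hr.2]
  have hfin : ∫ r in Ioc (u : ℝ) u', (4 / ε ^ 2 * ((u' : ℝ) - u)) =
      4 / ε ^ 2 * ((u' : ℝ) - u) ^ 2 := by
    rw [setIntegral_const, Real.volume_real_Ioc_of_le huu'', smul_eq_mul]
    ring
  rw [← hfin]
  apply setIntegral_mono_on
  · exact hint.integral_prod_right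
  · exact integrableOn_const (by simp)
  · exact measurableSet_Ioc
  · exact key

end SolvesHW

end Pool.Agent.H88.HW
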