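import Pool.Agent.H88.HW.Gap

open MeasureTheory ProbabilityTheory Filter Set
open scoped ENNReal NNReal Topology

namespace Pool.Agent.H88.HW

variable {Ω : Type*} [MeasurableSpace Ω] {P : Measure Ω}

namespace SolvesHW

variable {β : ℝ} {ν : Measure ℝ} {n : ℕ} {x₀ : Fin n → ℝ} {X : ℝ≥0 → Ω → Fin n → ℝ}
  [IsProbabilityMeasure P]

/-- Chebyshev bound for a single particle. -/
lemma chebyshev (h : SolvesHW β ν x₀ P X) (i : Fin n) (s : ℝ≥0) :
    P.real {ω | (2 * ((s : ℝ) + 1)) ^ 2 ≤ (dM β X i 0 s ω) ^ 2} ≤ 1 / 4 := by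
  have h1 : ∫ ω, (dM β X i 0 s ω) ^ 2 ∂P = s := by
    rw [h.integral_dM_sq i zero_le]
    simp
  have h2 := mul_meas_ge_le_integral_of_nonneg (μ := P) (f := fun ω => (dM β X i 0 s ω) ^ 2)
    (Eventually.of_forall fun ω => sq_nonneg _) ((h.dM_memLp i 0 s).integrable_sq)
    ((2 * ((s : ℝ) + 1)) ^ 2)
  rw [h1] at h2
  have hs : (0 : ℝ) ≤ s := s.2
  have h3 : (0 : ℝ) < (2 * ((s : ℝ) + 1)) ^ 2 := by positivity
  have h4 : P.real {ω | (2 * ((s : ℝ) + 1)) ^ 2 ≤ (dM β X i 0 s ω) ^ 2} ≤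
      s / (2 * ((s : ℝ) + 1)) ^ 2 := by
    rw [le_div_iff₀ h3, mul_comm]
    exact h2
  refine h4.trans ?_
  rw [div_le_div_iff₀ h3 (by norm_num)]
  nlinarith

/-- Two extreme particles started far away stay outside of a given window. -/
lemma far_particles (h : SolvesHW β ν x₀ P X) (s : ℝ≥0) (W1 W2 : ℝ) (p m : Fin n)
    (hm : x₀ m + β * s + 2 * (s + 1) < W1) (hp : W2 < x₀ p + β * s - 2 * (s + 1)) :
    1 / 2 ≤ P.real {ω | X s ω m < W1 ∧ W2 < X s ω p} := by
  have hmi : ∀ i : Fin n, Measurable fun ω => X s ω i := fun i =>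
    (measurable_pi_apply i).comp (h.measurable s).measurable
  have hset : MeasurableSet {ω | X s ω m < W1 ∧ W2 < X s ω p} :=
    (measurableSet_lt (hmi m) measurable_const).inter (measurableSet_lt measurable_const (hmi p))
  have h1 := h.chebyshev m s
  have h2 := h.chebyshev p s
  have hs : (0 : ℝ) ≤ s := s.2
  have hcomp : P.real {ω | X s ω m < W1 ∧ W2 < X s ω p}ᶜ ≤ 1 / 2 := by
    have hsub : P.real {ω | X s ω m < W1 ∧ W2 < X s ω p}ᶜ ≤
        P.real ({ω | (2 * ((s : ℝ) + 1)) ^ 2 ≤ (dM β X m 0 s ω) ^ 2} ∪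
          {ω | (2 * ((s : ℝ) + 1)) ^ 2 ≤ (dM β X p 0 s ω) ^ 2}) := by
      unfold Measure.real
      apply ENNReal.toReal_mono (measure_ne_top P _)
      apply measure_mono_ae
      filter_upwards [h.start] with ω hω
      intro hcon
      by_contra hnot
      apply hcon
      have hnot' : ¬ ((2 * ((s : ℝ) + 1)) ^ 2 ≤ (dM β X m 0 s ω) ^ 2) ∧
          ¬ ((2 * ((s : ℝ) + 1)) ^ 2 ≤ (dM β X p 0 s ω) ^ 2) := by
        constructor
        · intro hc; exact hnot (Or.inl hc)
        · intro hc; exact hnot (Or.inr hc)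
      obtain ⟨a1, a2⟩ := hnot'
      have e1 : dM β X m 0 s ω = X s ω m - β * s - x₀ m := by
        unfold dM M; rw [hω]; simp
      have e2 : dM β X p 0 s ω = X s ω p - β * s - x₀ p := by
        unfold dM M; rw [hω]; simp
      have b1 := abs_lt_of_sq_lt_sq (not_le.1 a1) (by positivity)
      have b2 := abs_lt_of_sq_lt_sq (not_le.1 a2) (by positivity)
      rw [e1, abs_lt] at b1
      rw [e2, abs_lt] at b2
      constructor
      · linarith [b1.2]
      · linarith [b2.1]
    refine hsub.trans ((measureReal_union_le _ _).trans ?_)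
    linarith
  rw [probReal_compl_eq_one_sub hset] at hcomp
  linarith

end SolvesHW

variable {β : ℝ} {ν : Measure ℝ} [IsProbabilityMeasure P]

/-- For a finite speed flow the mass of any unit interval vanishes with probability bounded
below. -/
theorem mass_zero [IsFiniteMeasure ν] (hν : FiniteSpeed ν) {K : ℝ → ℝ → Ω → ℝ → Measure ℝ}
    (hK : IsHowittWarrenFlow β ν P K) {t : ℝ≥0} (ht : 1 ≤ t) (a : ℝ) :
    ENNReal.ofReal (SolvesHW.cst (spd ν)) ≤ P {ω | K 0 t ω 0 (Icc a (a + 1)) = 0} := by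
  have ht0 : (0 : ℝ) ≤ t := t.2
  set A : Set ℝ := (Icc a (a + 1))ᶜ with hA
  have hAm : MeasurableSet A := measurableSet_Icc.compl
  set f : Ω → ℝ≥0∞ := fun ω => K 0 t ω 0 A with hf
  have hprob : ∀ ω y, IsProbabilityMeasure (K 0 t ω y) := fun ω y => hK.prob 0 t ht0 ω y
  have hf1 : ∀ ω, f ω ≤ 1 := fun ω => by
    have := hprob ω 0
    exact prob_le_one
  have hfm : Measurable f := by
    have h1 : Measurable fun ω : Ω => K 0 t ω 0 :=
      (hK.measurable 0 t ht0).comp (measurable_id.prodMk measurable_const)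
    exact (Measure.measurable_coe hAm).comp h1
  -- moment bounds
  have key : ∀ n : ℕ, ENNReal.ofReal (SolvesHW.cst (spd ν)) ≤ ∫⁻ ω, f ω ^ n ∂P := by
    intro n
    set s : ℝ≥0 := t - 1 with hs
    have hst : s + 1 = t := tsub_add_cancel_of_le ht
    set H : ℝ := |β * s| + 2 * (s + 1) + |a + 1 / 2 - β| + 1 with hH
    set x : Fin (n + 2) → ℝ := Fin.cons (-H) (Fin.cons H fun _ => 0) with hx
    obtain ⟨Ω', _, P', _, X, hX, hlaw⟩ := hK.nPoint (n + 2) x
    have hx0 : x 0 = -H := rfl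
    have hx1 : x 1 = H := rfl
    have hx2 : ∀ i : Fin n, x i.succ.succ = 0 := fun i => rfl
    have hfar := hX.far_particles s (a + 1 / 2 - β - 1 / 4) (a + 1 / 2 - β + 1 / 4) 1 0
      (by
        rw [hx0, hH]
        have := le_abs_self (β * s)
        have := neg_abs_le (a + 1 / 2 - β)
        linarith)
      (by
        rw [hx1, hH]
        have := neg_abs_le (β * s)
        have := le_abs_self (a + 1 / 2 - β)
        linarith)
    have hno := hX.no_particle hν s a 1 0 hfar
    rw [hst] at hno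
    have hl := hlaw t (fun _ => A) (fun _ => hAm)
    have h2 : ENNReal.ofReal (SolvesHW.cst (spd ν)) ≤ P' {ω | ∀ i, X t ω i ∈ A} := by
      rw [← ENNReal.ofReal_toReal (measure_ne_top P' _)]
      exact ENNReal.ofReal_le_ofReal hno
    rw [hl] at h2
    refine h2.trans (lintegral_mono fun ω => ?_)
    rw [Fin.prod_univ_succ, Fin.prod_univ_succ]
    have h3 : ∀ y, K 0 t ω y A ≤ 1 := fun y => by
      have := hprob ω y
      exact prob_le_one
    have h4 : ∏ i : Fin n, K 0 t ω (x i.succ.succ) A = f ω ^ n := by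
      simp only [hx2]
      rw [Finset.prod_const, Finset.card_univ, Fintype.card_fin]
    rw [h4]
    calc K 0 t ω (x 0) A * (K 0 t ω (x (Fin.succ 0)) A * f ω ^ n)
        ≤ 1 * (1 * f ω ^ n) := by gcongr <;> exact h3 _
      _ = f ω ^ n := by rw [one_mul, one_mul]
  -- limit n → ∞
  have hlim : Tendsto (fun n : ℕ => ∫⁻ ω, f ω ^ n ∂P) atTop
      (𝓝 (∫⁻ ω, {ω | f ω = 1}.indicator (fun _ => (1 : ℝ≥0∞)) ω ∂P)) := by
    apply tendsto_lintegral_of_dominated_convergence (fun _ => (1 : ℝ≥0∞))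
    · exact fun n => hfm.pow_const n
    · intro n
      exact Eventually.of_forall fun ω => pow_le_one₀ zero_le (hf1 ω)
    · simp
    · refine Eventually.of_forall fun ω => ?_
      by_cases hω : f ω = 1
      · rw [indicator_of_mem (show ω ∈ {ω | f ω = 1} from hω), hω]
        simp
      · rw [indicator_of_notMem (show ω ∉ {ω | f ω = 1} from hω)]
        exact ENNReal.tendsto_pow_atTop_nhds_zero_of_lt_one (lt_of_le_of_ne (hf1 ω) hω)
  have hset : MeasurableSet {ω | f ω = 1} := hfm (measurableSet_singleton 1)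
  rw [lintegral_indicator hset, lintegral_const, Measure.restrict_apply MeasurableSet.univ,
    univ_inter, one_mul] at hlim
  have h5 : ENNReal.ofReal (SolvesHW.cst (spd ν)) ≤ P {ω | f ω = 1} := ge_of_tendsto' hlim key
  refine h5.trans (measure_mono fun ω hω => ?_)
  have := hprob ω 0
  have h6 : K 0 t ω 0 A = 1 := hω
  rw [hA, prob_compl_eq_one_iff measurableSet_Icc] at h6
  exact h6

end Pool.Agent.H88.HW
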