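import Pool.Agent.H88.HW.Incr

open MeasureTheory ProbabilityTheory Filter Set
open scoped ENNReal NNReal Topology

namespace Pool.Agent.H88.HW

/-- finite speed: no atoms at the endpoints and `1/(q(1-q))` integrable. -/
structure FiniteSpeed (ν : Measure ℝ) : Prop where
  supp : ν (Ioo 0 1)ᶜ = 0
  int : Integrable (fun q : ℝ => 1 / (q * (1 - q))) ν

/-- the speed constant `2 ∫ 1/(q(1-q)) ν(dq)` -/
noncomputable def spd (ν : Measure ℝ) : ℝ := 2 * ∫ q, 1 / (q * (1 - q)) ∂ν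

lemma FiniteSpeed.ae {ν : Measure ℝ} (hν : FiniteSpeed ν) : ∀ᵐ q ∂ν, q ∈ Ioo (0 : ℝ) 1 := by
  rw [ae_iff]
  exact hν.supp

lemma FiniteSpeed.spd_nonneg {ν : Measure ℝ} (hν : FiniteSpeed ν) : 0 ≤ spd ν := by
  unfold spd
  have : 0 ≤ ∫ q, 1 / (q * (1 - q)) ∂ν := by
    apply integral_nonneg_of_ae
    filter_upwards [hν.ae] with q hq
    have := hq.1
    have := hq.2
    exact one_div_nonneg.2 (mul_nonneg hq.1.le (by linarith))
  linarith

lemma integrable_pow {ν : Measure ℝ} [IsFiniteMeasure ν] (hν : FiniteSpeed ν) (k : ℕ) :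
    Integrable (fun q : ℝ => (1 - q) ^ k) ν := by
  refine Integrable.of_bound (by fun_prop) 1 ?_
  filter_upwards [hν.ae] with q hq
  rw [Real.norm_eq_abs, abs_pow]
  have : |1 - q| ≤ 1 := by
    rw [abs_le]
    constructor <;> linarith [hq.1, hq.2]
  exact pow_le_one₀ (abs_nonneg _) this

lemma betaPlus_le {β : ℝ} {ν : Measure ℝ} [IsFiniteMeasure ν] (hν : FiniteSpeed ν) (m : ℕ) :
    betaPlus β ν m ≤ β + spd ν := by
  unfold betaPlus spd
  have : ∫ q, ∑ k ∈ Finset.range (m - 1), (1 - q) ^ k ∂ν ≤ ∫ q, 1 / (q * (1 - q)) ∂ν := by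
    apply integral_mono_ae
    · exact integrable_finsetSum _ fun k _ => integrable_pow hν k
    · exact hν.int
    · filter_upwards [hν.ae] with q hq
      have h0 := hq.1
      have h1 : 0 < 1 - q := by linarith [hq.2]
      have h2 : (∑ k ∈ Finset.range (m - 1), (1 - q) ^ k) * q ≤ 1 := by
        have := geom_sum_mul (1 - q) (m - 1)
        have h3 : 0 ≤ (1 - q) ^ (m - 1) := by positivity
        nlinarith
      rw [le_div_iff₀ (by positivity)]
      have h4 : 0 ≤ ∑ k ∈ Finset.range (m - 1), (1 - q) ^ k := by positivity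
      nlinarith [mul_nonneg (mul_nonneg h4 h0.le) h0.le]
  linarith

lemma betaPlus_succ {β : ℝ} {ν : Measure ℝ} [IsFiniteMeasure ν] (hν : FiniteSpeed ν) (k : ℕ) :
    betaPlus β ν (k + 2) - betaPlus β ν (k + 1) = 2 * ∫ q, (1 - q) ^ k ∂ν := by
  unfold betaPlus
  have h1 : k + 2 - 1 = k + 1 := rfl
  have h2 : k + 1 - 1 = k := rfl
  rw [h1, h2]
  have h3 : ∀ j : ℕ, ∫ q, ∑ k ∈ Finset.range j, (1 - q) ^ k ∂ν =
      ∑ k ∈ Finset.range j, ∫ q, (1 - q) ^ k ∂ν := fun j =>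
    integral_finsetSum _ fun k _ => integrable_pow hν k
  rw [h3, h3, Finset.sum_range_succ]
  ring

variable {β : ℝ} {ν : Measure ℝ} {n : ℕ}

/-- total version of `fMax` -/
noncomputable def fM (Γ : Finset (Fin n)) (x : Fin n → ℝ) : ℝ :=
  if h : Γ.Nonempty then fMax Γ h x else 0

/-- total version of the drift of `fMax` -/
noncomputable def bG (β : ℝ) (ν : Measure ℝ) (Γ : Finset (Fin n)) (x : Fin n → ℝ) : ℝ :=
  if h : Γ.Nonempty then betaPlus β ν (gCount Γ h x) else 0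

lemma fMax_insert_min {Γ : Finset (Fin n)} (hΓ : Γ.Nonempty) {j : Fin n} {x : Fin n → ℝ}
    (hj : ∀ i ∈ Γ, x j ≤ x i) :
    fMax (insert j Γ) (Finset.insert_nonempty j Γ) x = fMax Γ hΓ x := by
  unfold fMax
  rw [Finset.sup'_insert (H := hΓ)]
  apply sup_of_le_right
  obtain ⟨i, hi⟩ := hΓ
  exact (hj i hi).trans (Finset.le_sup' x hi)

lemma sum_powerset_sign {Δ' : Finset (Fin n)} {j : Fin n} (hj : j ∉ Δ')
    (φ : Finset (Fin n) → ℝ) :
    ∑ Γ ∈ (insert j Δ').powerset, (-1 : ℝ) ^ (Γ.card + 1) * φ Γ =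
      ∑ Γ ∈ Δ'.powerset, (-1 : ℝ) ^ Γ.card * (φ (insert j Γ) - φ Γ) := by
  rw [Finset.sum_powerset_insert hj, ← Finset.sum_add_distrib]
  apply Finset.sum_congr rfl
  intro Γ hΓ
  have : j ∉ Γ := fun h => hj (Finset.mem_powerset.1 hΓ h)
  rw [Finset.card_insert_of_notMem this]
  ring

lemma incl_excl_min {Δ : Finset (Fin n)} {j : Fin n} (hj : j ∈ Δ) {x : Fin n → ℝ}
    (hmin : ∀ i ∈ Δ, x j ≤ x i) :
    ∑ Γ ∈ Δ.powerset, (-1 : ℝ) ^ (Γ.card + 1) * fM Γ x = x j := by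
  obtain ⟨Δ', hj', rfl⟩ : ∃ Δ', j ∉ Δ' ∧ Δ = insert j Δ' :=
    ⟨Δ.erase j, Finset.notMem_erase j Δ, (Finset.insert_erase hj).symm⟩
  rw [sum_powerset_sign hj', Finset.sum_eq_single ∅]
  · simp [fM, fMax_singleton]
  · intro Γ hΓ hne
    have hΓ' : Γ.Nonempty := Finset.nonempty_iff_ne_empty.2 hne
    have h1 := fMax_insert_min hΓ' (j := j) (x := x) fun i hi =>
      hmin i (Finset.mem_insert_of_mem (Finset.mem_powerset.1 hΓ hi))
    simp [fM, hΓ', h1]
  · simp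

lemma bG_diff_of_lt {Γ : Finset (Fin n)} {j : Fin n} {x : Fin n → ℝ} (hΓ : Γ.Nonempty)
    (hj : ∀ i ∈ Γ, x j ≤ x i) (hlt : x j < fMax Γ hΓ x) :
    bG β ν (insert j Γ) x = bG β ν Γ x := by
  have h1 := fMax_insert_min hΓ hj
  have h2 : gCount (insert j Γ) (Finset.insert_nonempty j Γ) x = gCount Γ hΓ x := by
    unfold gCount
    rw [h1, Finset.filter_insert, if_neg hlt.ne]
  simp [bG, hΓ, h2]

lemma bG_of_const {Γ : Finset (Fin n)} {y : ℝ} {x : Fin n → ℝ} (hΓ : Γ.Nonempty)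
    (h : ∀ i ∈ Γ, x i = y) : bG β ν Γ x = betaPlus β ν Γ.card := by
  have h1 : fMax Γ hΓ x = y := by
    unfold fMax
    apply le_antisymm
    · exact Finset.sup'_le _ _ fun i hi => (h i hi).le
    · obtain ⟨i, hi⟩ := hΓ
      rw [← h i hi]
      exact Finset.le_sup' x hi
  have h2 : gCount Γ hΓ x = Γ.card := by
    unfold gCount
    rw [Finset.filter_true_of_mem]
    intro i hi
    rw [h i hi, h1]
  simp [bG, hΓ, h2]

lemma sum_powerset_pow (Z : Finset (Fin n)) (t : ℝ) :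
    ∑ Γ ∈ Z.powerset, (-t) ^ Γ.card = (1 - t) ^ Z.card := by
  have := Finset.sum_pow_mul_eq_add_pow (-t) 1 Z
  simp only [one_pow, mul_one] at this
  rw [this]
  ring

lemma drift_min_ge [IsFiniteMeasure ν] (hν : FiniteSpeed ν) {Δ : Finset (Fin n)}
    (hΔ : Δ.Nonempty) (x : Fin n → ℝ) :
    β - spd ν ≤ ∑ Γ ∈ Δ.powerset, (-1 : ℝ) ^ (Γ.card + 1) * bG β ν Γ x := by
  obtain ⟨j, hj, hmin⟩ := Finset.exists_min_image Δ x hΔ
  obtain ⟨Δ', hj', rfl⟩ : ∃ Δ', j ∉ Δ' ∧ Δ = insert j Δ' :=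
    ⟨Δ.erase j, Finset.notMem_erase j Δ, (Finset.insert_erase hj).symm⟩
  rw [sum_powerset_sign hj']
  set Z := Δ'.filter (fun i => x i = x j) with hZ
  have hsub : Z.powerset ⊆ Δ'.powerset := Finset.powerset_mono.2 (Finset.filter_subset _ _)
  rw [← Finset.sum_subset hsub]
  swap
  · intro Γ hΓ hΓ2
    have hΓ' : Γ.Nonempty := by
      rw [Finset.nonempty_iff_ne_empty]
      rintro rfl
      simp at hΓ2
    have hle : ∀ i ∈ Γ, x j ≤ x i := fun i hi =>
      hmin i (Finset.mem_insert_of_mem (Finset.mem_powerset.1 hΓ hi))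
    have hlt : x j < fMax Γ hΓ' x := by
      by_contra hcon
      push Not at hcon
      apply hΓ2
      rw [Finset.mem_powerset]
      intro i hi
      rw [hZ, Finset.mem_filter]
      refine ⟨Finset.mem_powerset.1 hΓ hi, le_antisymm ?_ (hle i hi)⟩
      exact (Finset.le_sup' x hi).trans hcon
    rw [bG_diff_of_lt hΓ' hle hlt]
    ring
  -- now only subsets of `Z`
  have hterm : ∀ Γ ∈ Z.powerset, (-1 : ℝ) ^ Γ.card * (bG β ν (insert j Γ) x - bG β ν Γ x) =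
      if Γ = ∅ then β else 2 * ∫ q, (-1 : ℝ) ^ Γ.card * (1 - q) ^ (Γ.card - 1) ∂ν := by
    intro Γ hΓ
    have hΓZ := Finset.mem_powerset.1 hΓ
    have hc : ∀ i ∈ Γ, x i = x j := fun i hi => (Finset.mem_filter.1 (hΓZ hi)).2
    have hjΓ : j ∉ Γ := fun h => hj' (Finset.mem_filter.1 (hΓZ h)).1
    have h1 : bG β ν (insert j Γ) x = betaPlus β ν (Γ.card + 1) := by
      rw [bG_of_const (Finset.insert_nonempty j Γ) (y := x j), Finset.card_insert_of_notMem hjΓ]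
      intro i hi
      rcases Finset.mem_insert.1 hi with rfl | hi
      · rfl
      · exact hc i hi
    split_ifs with he
    · subst he
      rw [h1]
      simp [bG, betaPlus_one]
    · have hΓ' : Γ.Nonempty := Finset.nonempty_iff_ne_empty.2 he
      rw [h1, bG_of_const hΓ' hc]
      obtain ⟨k, hk⟩ : ∃ k, Γ.card = k + 1 := ⟨Γ.card - 1, by
        have := Finset.card_pos.2 hΓ'
        omega⟩
      rw [hk, integral_const_mul]
      have := betaPlus_succ (β := β) hν k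
      have h3 : k + 1 + 1 = k + 2 := rfl
      rw [h3, this]
      simp only [Nat.add_sub_cancel]
      ring
  rw [Finset.sum_congr rfl hterm]
  have hsplit : ∑ Γ ∈ Z.powerset, (if Γ = ∅ then β else
      2 * ∫ q, (-1 : ℝ) ^ Γ.card * (1 - q) ^ (Γ.card - 1) ∂ν) =
      β + 2 * ∫ q, ∑ Γ ∈ Z.powerset.erase ∅, (-1 : ℝ) ^ Γ.card * (1 - q) ^ (Γ.card - 1) ∂ν := by
    rw [integral_finsetSum _ fun Γ _ => (integrable_pow hν _).const_mul _, Finset.mul_sum,
      ← Finset.add_sum_erase _ _ (Finset.empty_mem_powerset Z)]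
    rw [if_pos rfl]
    congr 1
    apply Finset.sum_congr rfl
    intro Γ hΓ
    rw [if_neg (Finset.mem_erase.1 hΓ).1]
  rw [hsplit]
  unfold spd
  have key : -∫ q, 1 / (q * (1 - q)) ∂ν ≤
      ∫ q, ∑ Γ ∈ Z.powerset.erase ∅, (-1 : ℝ) ^ Γ.card * (1 - q) ^ (Γ.card - 1) ∂ν := by
    rw [← integral_neg]
    apply integral_mono_ae hν.int.neg
    · exact integrable_finsetSum _ fun Γ _ => (integrable_pow hν _).const_mul _
    · filter_upwards [hν.ae] with q hq
      have h0 := hq.1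
      have h1 : 0 < 1 - q := by linarith [hq.2]
      have e1 : (1 - q) * ∑ Γ ∈ Z.powerset.erase ∅, (-1 : ℝ) ^ Γ.card * (1 - q) ^ (Γ.card - 1) =
          q ^ Z.card - 1 := by
        have e2 := sum_powerset_pow Z (1 - q)
        rw [← Finset.add_sum_erase _ _ (Finset.empty_mem_powerset Z)] at e2
        simp only [Finset.card_empty, pow_zero, sub_sub_cancel] at e2
        rw [Finset.mul_sum]
        rw [← e2, add_sub_cancel_left]
        apply Finset.sum_congr rfl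
        intro Γ hΓ
        have hne := (Finset.mem_erase.1 hΓ).1
        have hpos := Finset.card_pos.2 (Finset.nonempty_iff_ne_empty.2 hne)
        obtain ⟨k, hk⟩ : ∃ k, Γ.card = k + 1 := ⟨Γ.card - 1, by omega⟩
        rw [hk]
        simp only [Nat.add_sub_cancel]
        rw [neg_pow (1 - q) (k + 1), pow_succ (1 - q) k]
        ring
      set S := ∑ Γ ∈ Z.powerset.erase ∅, (-1 : ℝ) ^ Γ.card * (1 - q) ^ (Γ.card - 1) with hS
      have h2 : 0 ≤ q ^ Z.card := by positivity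
      have h3 : -1 ≤ (1 - q) * S := by rw [e1]; linarith
      have h4 : -(1 / (q * (1 - q))) = (-1 / q) / (1 - q) := by
        field_simp
      simp only [Pi.neg_apply]
      rw [h4, div_le_iff₀ h1]
      have h5 : -1 / q ≤ -1 := by
        rw [div_le_iff₀ h0]
        linarith [hq.2]
      linarith
  linarith

namespace SolvesHW

variable {x₀ : Fin n → ℝ} {Ω : Type*} [MeasurableSpace Ω]
  {P : Measure Ω} {X : ℝ≥0 → Ω → Fin n → ℝ}

lemma bdd_gfun (Δ : Finset (Fin n)) (hΔ : Δ.Nonempty) :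
    ∃ C' : ℝ, ∀ x : Fin n → ℝ, |betaPlus β ν (gCount Δ hΔ x)| ≤ C' := by
  refine ⟨∑ m ∈ Finset.range (n + 1), |betaPlus β ν m|, fun x => ?_⟩
  refine Finset.single_le_sum (f := fun m => |betaPlus β ν m|) (fun _ _ => abs_nonneg _) ?_
  rw [Finset.mem_range]
  have : gCount Δ hΔ x ≤ Fintype.card (Fin n) := by
    unfold gCount
    exact Finset.card_le_univ _
  simp at this
  omega

lemma measurable_gfun (Δ : Finset (Fin n)) (hΔ : Δ.Nonempty) :
    Measurable (fun x : Fin n → ℝ => betaPlus β ν (gCount Δ hΔ x)) :=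
  (measurable_of_countable (fun m : ℕ => betaPlus β ν m)).comp (measurable_gCount Δ hΔ)

lemma measurable_bG (Γ : Finset (Fin n)) : Measurable (bG β ν Γ : (Fin n → ℝ) → ℝ) := by
  by_cases hΓ : Γ.Nonempty
  · have : (bG β ν Γ : (Fin n → ℝ) → ℝ) = fun x => betaPlus β ν (gCount Γ hΓ x) := by
      ext x; simp [bG, hΓ]
    rw [this]
    exact measurable_gfun Γ hΓ
  · have : (bG β ν Γ : (Fin n → ℝ) → ℝ) = fun x => 0 := by
      ext x; simp [bG, hΓ]
    rw [this]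
    exact measurable_const

lemma bdd_bG (Γ : Finset (Fin n)) : ∃ C' : ℝ, ∀ x : Fin n → ℝ, |bG β ν Γ x| ≤ C' := by
  by_cases hΓ : Γ.Nonempty
  · obtain ⟨C, hC⟩ := bdd_gfun (β := β) (ν := ν) Γ hΓ
    exact ⟨C, fun x => by simpa [bG, hΓ] using hC x⟩
  · exact ⟨0, fun x => by simp [bG, hΓ]⟩

lemma pair_fM [IsProbabilityMeasure P] (h : SolvesHW β ν x₀ P X) (Γ : Finset (Fin n))
    {u u' : ℝ≥0} (huu' : u ≤ u') {ξ : Ω → ℝ}
    (hξ : StronglyMeasurable[h.filt u] ξ) {C : ℝ} (hC : ∀ ω, |ξ ω| ≤ C) :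
    ∫ ω, ξ ω * (fM Γ (X u' ω) - fM Γ (X u ω)) ∂P =
      ∫ ω, ξ ω * occ X (bG β ν Γ) u u' ω ∂P := by
  by_cases hΓ : Γ.Nonempty
  · have := h.pair_max Γ hΓ huu' hξ hC
    simpa [fM, bG, hΓ, occ] using this
  · simp [fM, bG, hΓ, occ]

lemma integrable_fMax [IsProbabilityMeasure P] (h : SolvesHW β ν x₀ P X) (Γ : Finset (Fin n))
    (hΓ : Γ.Nonempty) (t : ℝ≥0) : Integrable (fun ω => fMax Γ hΓ (X t ω)) P := by
  obtain ⟨C, hC⟩ := bdd_gfun (β := β) (ν := ν) Γ hΓ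
  have h1 := (h.max_martingale Γ hΓ).integrable t
  have h2 := h.integrable_occ (measurable_gfun (β := β) (ν := ν) Γ hΓ) hC (a := 0) (b := t) t.2
  have h3 := h1.add h2
  refine h3.congr (Eventually.of_forall fun ω => ?_)
  simp [occ]

lemma integrable_fM [IsProbabilityMeasure P] (h : SolvesHW β ν x₀ P X) (Γ : Finset (Fin n))
    (t : ℝ≥0) : Integrable (fun ω => fM Γ (X t ω)) P := by
  by_cases hΓ : Γ.Nonempty
  · simpa [fM, hΓ] using h.integrable_fMax Γ hΓ t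
  · simp [fM, hΓ]

/-- the minimum over `Δ` -/
noncomputable def fMin (Δ : Finset (Fin n)) (hΔ : Δ.Nonempty) (x : Fin n → ℝ) : ℝ := Δ.inf' hΔ x

lemma fMin_eq (Δ : Finset (Fin n)) (hΔ : Δ.Nonempty) (x : Fin n → ℝ) :
    fMin Δ hΔ x = ∑ Γ ∈ Δ.powerset, (-1 : ℝ) ^ (Γ.card + 1) * fM Γ x := by
  obtain ⟨j, hj, hmin⟩ := Finset.exists_min_image Δ x hΔ
  rw [incl_excl_min hj hmin]
  unfold fMin
  apply le_antisymm
  · exact Finset.inf'_le x hj
  · exact Finset.le_inf' _ _ hmin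

/-- the drift of the minimum -/
noncomputable def bMin (β : ℝ) (ν : Measure ℝ) (Δ : Finset (Fin n)) (x : Fin n → ℝ) : ℝ :=
  ∑ Γ ∈ Δ.powerset, (-1 : ℝ) ^ (Γ.card + 1) * bG β ν Γ x

lemma integrable_fMin [IsProbabilityMeasure P] (h : SolvesHW β ν x₀ P X) (Δ : Finset (Fin n))
    (hΔ : Δ.Nonempty) (t : ℝ≥0) : Integrable (fun ω => fMin Δ hΔ (X t ω)) P := by
  simp only [fMin_eq]
  exact integrable_finsetSum _ fun Γ _ => (h.integrable_fM Γ t).const_mul _

lemma integrable_occ_bG [IsProbabilityMeasure P] (h : SolvesHW β ν x₀ P X) (Γ : Finset (Fin n))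
    {a b : ℝ} (hab : a ≤ b) : Integrable (occ X (bG β ν Γ) a b) P := by
  obtain ⟨C, hC⟩ := bdd_bG (β := β) (ν := ν) Γ
  exact h.integrable_occ (measurable_bG Γ) hC hab

lemma pair_min [IsProbabilityMeasure P] (h : SolvesHW β ν x₀ P X) (Δ : Finset (Fin n))
    (hΔ : Δ.Nonempty) {u u' : ℝ≥0} (huu' : u ≤ u') {ξ : Ω → ℝ}
    (hξ : StronglyMeasurable[h.filt u] ξ) {C : ℝ} (hC : ∀ ω, |ξ ω| ≤ C) :
    ∫ ω, ξ ω * (fMin Δ hΔ (X u' ω) - fMin Δ hΔ (X u ω)) ∂P =
      ∫ ω, ξ ω * occ X (bMin β ν Δ) u u' ω ∂P := by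
  have huu'' : (u : ℝ) ≤ u' := by exact_mod_cast huu'
  have hξ' : AEStronglyMeasurable ξ P := (hξ.mono (h.filt.le u)).aestronglyMeasurable
  have e1 : ∀ ω, ξ ω * (fMin Δ hΔ (X u' ω) - fMin Δ hΔ (X u ω)) =
      ∑ Γ ∈ Δ.powerset, (-1 : ℝ) ^ (Γ.card + 1) * (ξ ω * (fM Γ (X u' ω) - fM Γ (X u ω))) := by
    intro ω
    rw [fMin_eq, fMin_eq, ← Finset.sum_sub_distrib, Finset.mul_sum]
    exact Finset.sum_congr rfl fun Γ _ => by ring
  have e2 : ∀ ω, ξ ω * occ X (bMin β ν Δ) u u' ω =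
      ∑ Γ ∈ Δ.powerset, (-1 : ℝ) ^ (Γ.card + 1) * (ξ ω * occ X (bG β ν Γ) u u' ω) := by
    intro ω
    have : occ X (bMin β ν Δ) u u' ω =
        ∑ Γ ∈ Δ.powerset, (-1 : ℝ) ^ (Γ.card + 1) * occ X (bG β ν Γ) u u' ω := by
      unfold occ bMin
      rw [intervalIntegral.integral_finsetSum]
      · exact Finset.sum_congr rfl fun Γ _ => by rw [intervalIntegral.integral_const_mul]
      · intro Γ _
        obtain ⟨C, hC⟩ := bdd_bG (β := β) (ν := ν) Γ
        exact (h.intervalIntegrable_occ (measurable_bG Γ) hC _ _ _).const_mul _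
    rw [this, Finset.mul_sum]
    exact Finset.sum_congr rfl fun Γ _ => by ring
  simp only [e1, e2]
  rw [integral_finsetSum, integral_finsetSum]
  · apply Finset.sum_congr rfl
    intro Γ _
    rw [integral_const_mul, integral_const_mul, h.pair_fM Γ huu' hξ hC]
  · intro Γ _
    exact (integrable_bdd_mul hξ' hC (h.integrable_occ_bG Γ huu'')).const_mul _
  · intro Γ _
    exact (integrable_bdd_mul hξ' hC ((h.integrable_fM Γ u').sub (h.integrable_fM Γ u))).const_mul _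

lemma integrable_X [IsProbabilityMeasure P] (h : SolvesHW β ν x₀ P X) (i : Fin n) (t : ℝ≥0) :
    Integrable (fun ω => X t ω i) P := (h.sqInt t i).integrable (by norm_num)

lemma pair_X [IsProbabilityMeasure P] (h : SolvesHW β ν x₀ P X) (i : Fin n)
    {u u' : ℝ≥0} (huu' : u ≤ u') {ξ : Ω → ℝ} (hξ : StronglyMeasurable[h.filt u] ξ) {C : ℝ}
    (hC : ∀ ω, |ξ ω| ≤ C) :
    ∫ ω, ξ ω * (X u' ω i - X u ω i) ∂P = β * ((u' : ℝ) - u) * ∫ ω, ξ ω ∂P := by
  have hξ' : AEStronglyMeasurable ξ P := (hξ.mono (h.filt.le u)).aestronglyMeasurable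
  have hξi : Integrable ξ P := by
    have := integrable_bdd_mul hξ' hC (integrable_const (1 : ℝ))
    simpa using this
  have h1 := h.pair_M i huu' hξ hC
  have e1 : ∀ ω, ξ ω * (M β X i u' ω - M β X i u ω) =
      ξ ω * (X u' ω i - X u ω i) - (β * ((u' : ℝ) - u)) * ξ ω := by
    intro ω; unfold M; ring
  simp only [e1] at h1
  rw [integral_sub, integral_const_mul] at h1
  · linarith
  · exact integrable_bdd_mul hξ' hC ((h.integrable_X i u').sub (h.integrable_X i u))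
  · exact hξi.const_mul _

/-- Over a time step the maximum moves like the particle at the maximum, up to a nonnegative error
of mean at most `spd * h`. -/
lemma pair_excess_max [IsFiniteMeasure ν] (hν : FiniteSpeed ν) [IsProbabilityMeasure P]
    (h : SolvesHW β ν x₀ P X) (Δ : Finset (Fin n))
    (hΔ : Δ.Nonempty) (i : Fin n) {u u' : ℝ≥0} (huu' : u ≤ u') {ξ : Ω → ℝ}
    (hξ : StronglyMeasurable[h.filt u] ξ) {C : ℝ} (hC : ∀ ω, |ξ ω| ≤ C) (hξ0 : ∀ ω, 0 ≤ ξ ω)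
    (hi : ∀ ω, ξ ω ≠ 0 → fMax Δ hΔ (X u ω) = X u ω i) :
    ∫ ω, ξ ω * (fMax Δ hΔ (X u' ω) - X u' ω i) ∂P ≤ spd ν * ((u' : ℝ) - u) * ∫ ω, ξ ω ∂P := by
  have huu'' : (u : ℝ) ≤ u' := by exact_mod_cast huu'
  have hξ' : AEStronglyMeasurable ξ P := (hξ.mono (h.filt.le u)).aestronglyMeasurable
  have hξi : Integrable ξ P := by
    have := integrable_bdd_mul hξ' hC (integrable_const (1 : ℝ))
    simpa using this
  have e1 : ∀ ω, ξ ω * (fMax Δ hΔ (X u' ω) - X u' ω i) =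
      ξ ω * (fMax Δ hΔ (X u' ω) - fMax Δ hΔ (X u ω)) - ξ ω * (X u' ω i - X u ω i) := by
    intro ω
    by_cases h0 : ξ ω = 0
    · simp [h0]
    · rw [hi ω h0]; ring
  simp only [e1]
  have I1 := integrable_bdd_mul hξ' hC ((h.integrable_fMax Δ hΔ u').sub (h.integrable_fMax Δ hΔ u))
  have I2 := integrable_bdd_mul hξ' hC ((h.integrable_X i u').sub (h.integrable_X i u))
  have e2 := integral_sub I1 I2
  simp only [Pi.sub_apply] at e2
  rw [e2, h.pair_max Δ hΔ huu' hξ hC, h.pair_X i huu' hξ hC]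
  obtain ⟨C₁, hC₁⟩ := bdd_gfun (β := β) (ν := ν) Δ hΔ
  have h3 : ∫ ω, ξ ω * occ X (fun x => betaPlus β ν (gCount Δ hΔ x)) u u' ω ∂P ≤
      ∫ ω, ξ ω * ((β + spd ν) * ((u' : ℝ) - u)) ∂P := by
    apply integral_mono (integrable_bdd_mul hξ' hC
      (h.integrable_occ (measurable_gfun Δ hΔ) hC₁ huu'')) (hξi.mul_const _)
    intro ω
    apply mul_le_mul_of_nonneg_left _ (hξ0 ω)
    unfold occ
    have h4 : ∫ r in (u : ℝ)..u', betaPlus β ν (gCount Δ hΔ (X r.toNNReal ω)) ≤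
        ∫ r in (u : ℝ)..u', (β + spd ν) := by
      apply intervalIntegral.integral_mono_on huu''
      · exact h.intervalIntegrable_occ (measurable_gfun Δ hΔ) hC₁ _ _ _
      · simp
      · intro r _
        exact betaPlus_le hν _
    rw [intervalIntegral.integral_const, smul_eq_mul, mul_comm] at h4
    exact h4
  rw [integral_mul_const] at h3
  nlinarith

/-- Over a time step the minimum moves like the particle at the minimum, up to a nonpositive error
of mean at least `-spd * h`. -/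
lemma pair_excess_min [IsFiniteMeasure ν] (hν : FiniteSpeed ν) [IsProbabilityMeasure P]
    (h : SolvesHW β ν x₀ P X) (Δ : Finset (Fin n))
    (hΔ : Δ.Nonempty) (i : Fin n) {u u' : ℝ≥0} (huu' : u ≤ u') {ξ : Ω → ℝ}
    (hξ : StronglyMeasurable[h.filt u] ξ) {C : ℝ} (hC : ∀ ω, |ξ ω| ≤ C) (hξ0 : ∀ ω, 0 ≤ ξ ω)
    (hi : ∀ ω, ξ ω ≠ 0 → fMin Δ hΔ (X u ω) = X u ω i) :
    ∫ ω, ξ ω * (X u' ω i - fMin Δ hΔ (X u' ω)) ∂P ≤ spd ν * ((u' : ℝ) - u) * ∫ ω, ξ ω ∂P := by
  have huu'' : (u : ℝ) ≤ u' := by exact_mod_cast huu'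
  have hξ' : AEStronglyMeasurable ξ P := (hξ.mono (h.filt.le u)).aestronglyMeasurable
  have hξi : Integrable ξ P := by
    have := integrable_bdd_mul hξ' hC (integrable_const (1 : ℝ))
    simpa using this
  have e1 : ∀ ω, ξ ω * (X u' ω i - fMin Δ hΔ (X u' ω)) =
      ξ ω * (X u' ω i - X u ω i) - ξ ω * (fMin Δ hΔ (X u' ω) - fMin Δ hΔ (X u ω)) := by
    intro ω
    by_cases h0 : ξ ω = 0
    · simp [h0]
    · rw [hi ω h0]; ring
  simp only [e1]
  have I1 := integrable_bdd_mul hξ' hC ((h.integrable_fMin Δ hΔ u').sub (h.integrable_fMin Δ hΔ u))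
  have I2 := integrable_bdd_mul hξ' hC ((h.integrable_X i u').sub (h.integrable_X i u))
  have e2 := integral_sub I2 I1
  simp only [Pi.sub_apply] at e2
  rw [e2, h.pair_min Δ hΔ huu' hξ hC, h.pair_X i huu' hξ hC]
  have hB : Measurable (bMin β ν Δ) := by
    unfold bMin
    exact Finset.measurable_sum _ fun Γ _ => (measurable_bG Γ).const_mul _
  obtain ⟨C₁, hC₁⟩ : ∃ C₁, ∀ x : Fin n → ℝ, |bMin β ν Δ x| ≤ C₁ := by
    choose D hD using fun Γ => bdd_bG (β := β) (ν := ν) (n := n) Γ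
    refine ⟨∑ Γ ∈ Δ.powerset, D Γ, fun x => ?_⟩
    unfold bMin
    refine (Finset.abs_sum_le_sum_abs _ _).trans (Finset.sum_le_sum fun Γ _ => ?_)
    rw [abs_mul, abs_pow, abs_neg, abs_one, one_pow, one_mul]
    exact hD Γ x
  have h3 : ∫ ω, ξ ω * ((β - spd ν) * ((u' : ℝ) - u)) ∂P ≤
      ∫ ω, ξ ω * occ X (bMin β ν Δ) u u' ω ∂P := by
    apply integral_mono (hξi.mul_const _) (integrable_bdd_mul hξ' hC
      (h.integrable_occ hB hC₁ huu''))
    intro ω
    apply mul_le_mul_of_nonneg_left _ (hξ0 ω)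
    unfold occ
    have h4 : ∫ r in (u : ℝ)..u', (β - spd ν) ≤
        ∫ r in (u : ℝ)..u', bMin β ν Δ (X r.toNNReal ω) := by
      apply intervalIntegral.integral_mono_on huu''
      · simp
      · exact h.intervalIntegrable_occ hB hC₁ _ _ _
      · intro r _
        exact drift_min_ge hν hΔ _
    rw [intervalIntegral.integral_const, smul_eq_mul, mul_comm] at h4
    exact h4
  rw [integral_mul_const] at h3
  nlinarith

end SolvesHW

end Pool.Agent.H88.HW
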