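import Pool.Agent.H88.HW.StepIJ

open MeasureTheory ProbabilityTheory Filter Set
open scoped ENNReal NNReal Topology

namespace Pool.Agent.H88.HW

/-- `i` is the first index of `Δ` at which the value `S z` is attained -/
def First {n : ℕ} (Δ : Finset (Fin n)) (S : (Fin n → ℝ) → ℝ) (z : Fin n → ℝ) (i : Fin n) : Prop :=
  i ∈ Δ ∧ z i = S z ∧ ∀ k ∈ Δ, k < i → z k ≠ S z

lemma First.unique {n : ℕ} {Δ : Finset (Fin n)} {S : (Fin n → ℝ) → ℝ} {z : Fin n → ℝ}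
    {i j : Fin n} (hi : First Δ S z i) (hj : First Δ S z j) : i = j := by
  rcases lt_trichotomy i j with h | h | h
  · exact absurd hi.2.1 (hj.2.2 i hi.1 h)
  · exact h
  · exact absurd hj.2.1 (hi.2.2 j hj.1 h)

lemma First.exists {n : ℕ} {Δ : Finset (Fin n)} {S : (Fin n → ℝ) → ℝ} {z : Fin n → ℝ}
    (h : ∃ i ∈ Δ, z i = S z) : ∃ i, First Δ S z i := by
  classical
  have hne : (Δ.filter fun i => z i = S z).Nonempty := by
    obtain ⟨i, hi, hi'⟩ := h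
    exact ⟨i, Finset.mem_filter.2 ⟨hi, hi'⟩⟩
  refine ⟨(Δ.filter fun i => z i = S z).min' hne, ?_⟩
  have hm := Finset.mem_filter.1 (Finset.min'_mem _ hne)
  refine ⟨hm.1, hm.2, fun k hk hlt heq => ?_⟩
  have := Finset.min'_le (Δ.filter fun i => z i = S z) k (Finset.mem_filter.2 ⟨hk, heq⟩)
  exact absurd this (not_le.2 hlt)

lemma measurableSet_First {n : ℕ} (Δ : Finset (Fin n)) {S : (Fin n → ℝ) → ℝ} (hS : Measurable S)
    (i : Fin n) : MeasurableSet {z | First Δ S z i} := by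
  have : {z | First Δ S z i} = {z : Fin n → ℝ | i ∈ Δ} ∩ ({z : Fin n → ℝ | z i = S z} ∩
      ⋂ k ∈ Δ, ⋂ (_ : k < i), {z : Fin n → ℝ | z k = S z}ᶜ) := by
    ext z; simp [First]
  rw [this]
  refine MeasurableSet.inter (MeasurableSet.const _) (MeasurableSet.inter ?_ ?_)
  · exact measurableSet_eq_fun (measurable_pi_apply i) hS
  · refine Finset.measurableSet_biInter _ fun k _ => MeasurableSet.iInter fun _ => ?_
    exact (measurableSet_eq_fun (measurable_pi_apply k) hS).compl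

variable {Ω : Type*} [MeasurableSpace Ω] {P : Measure Ω}

namespace SolvesHW

variable {β : ℝ} {ν : Measure ℝ} {n : ℕ} {x₀ : Fin n → ℝ} {X : ℝ≥0 → Ω → Fin n → ℝ}

/-- gap coordinate -/
noncomputable def xP (X : ℝ≥0 → Ω → Fin n → ℝ) (Δ₁ Δ₂ : Finset (Fin n)) (hΔ₁ : Δ₁.Nonempty)
    (hΔ₂ : Δ₂.Nonempty) (ρ : Ω → ℝ) (ε : ℝ) (s u : ℝ≥0) (ω : Ω) : ℝ :=
  fMin Δ₂ hΔ₂ (X u ω) - fMax Δ₁ hΔ₁ (X u ω) - ρ ω - ε - 3 * ((u : ℝ) - s)

/-- midpoint coordinate -/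
noncomputable def mP (β : ℝ) (X : ℝ≥0 → Ω → Fin n → ℝ) (Δ₁ Δ₂ : Finset (Fin n))
    (hΔ₁ : Δ₁.Nonempty) (hΔ₂ : Δ₂.Nonempty) (θ : Ω → ℝ) (s u : ℝ≥0) (ω : Ω) : ℝ :=
  (fMin Δ₂ hΔ₂ (X u ω) + fMax Δ₁ hΔ₁ (X u ω)) / 2 - θ ω - β * ((u : ℝ) - s)

lemma measurable_fMin (Δ : Finset (Fin n)) (hΔ : Δ.Nonempty) :
    Measurable (fMin Δ hΔ : (Fin n → ℝ) → ℝ) := by
  refine measurable_of_Ici fun c => ?_
  have : (fMin Δ hΔ : (Fin n → ℝ) → ℝ) ⁻¹' Ici c = ⋂ i ∈ Δ, {x : Fin n → ℝ | c ≤ x i} := by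
    ext x
    simp [fMin]
  rw [this]
  exact Finset.measurableSet_biInter _ fun i _ =>
    measurableSet_le measurable_const (measurable_pi_apply i)

lemma measurable_xP (h : SolvesHW β ν x₀ P X) (Δ₁ Δ₂ : Finset (Fin n)) (hΔ₁ : Δ₁.Nonempty)
    (hΔ₂ : Δ₂.Nonempty) {ρ : Ω → ℝ} {s u : ℝ≥0} (hsu : s ≤ u) (hρ : Measurable[h.filt s] ρ)
    (ε : ℝ) : Measurable[h.filt u] (xP X Δ₁ Δ₂ hΔ₁ hΔ₂ ρ ε s u) := by
  have h1 : Measurable[h.filt u] (fun ω => fMin Δ₂ hΔ₂ (X u ω)) :=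
    (measurable_fMin Δ₂ hΔ₂).comp (h.adapted u)
  have h2 : Measurable[h.filt u] (fun ω => fMax Δ₁ hΔ₁ (X u ω)) :=
    (measurable_fMax Δ₁ hΔ₁).comp (h.adapted u)
  have h3 : Measurable[h.filt u] ρ := hρ.mono (h.filt.mono hsu) le_rfl
  exact (((h1.sub h2).sub h3).sub_const ε).sub_const _

lemma measurable_mP (h : SolvesHW β ν x₀ P X) (Δ₁ Δ₂ : Finset (Fin n)) (hΔ₁ : Δ₁.Nonempty)
    (hΔ₂ : Δ₂.Nonempty) {θ : Ω → ℝ} {s u : ℝ≥0} (hsu : s ≤ u) (hθ : Measurable[h.filt s] θ) :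
    Measurable[h.filt u] (mP β X Δ₁ Δ₂ hΔ₁ hΔ₂ θ s u) := by
  have h1 : Measurable[h.filt u] (fun ω => fMin Δ₂ hΔ₂ (X u ω)) :=
    (measurable_fMin Δ₂ hΔ₂).comp (h.adapted u)
  have h2 : Measurable[h.filt u] (fun ω => fMax Δ₁ hΔ₁ (X u ω)) :=
    (measurable_fMax Δ₁ hΔ₁).comp (h.adapted u)
  have h3 : Measurable[h.filt u] θ := hθ.mono (h.filt.mono hsu) le_rfl
  exact (((h1.add h2).div_const 2).sub h3).sub_const _

variable [IsProbabilityMeasure P]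

lemma integrable_F (_ : SolvesHW β ν x₀ P X) {K : ℝ} (hK : 0 ≤ K) {x m : Ω → ℝ}
    (hx : Measurable x) (hm : Measurable m) : Integrable (fun ω => Bump.F K (x ω) (m ω)) P := by
  refine Integrable.of_bound ((Bump.measurable_F K).comp (hx.prodMk hm)).aestronglyMeasurable
    (Bump.C0 K) (Eventually.of_forall fun ω => ?_)
  rw [Real.norm_eq_abs, abs_of_nonneg (Bump.F_nonneg hK)]
  exact Bump.F_le hK

/-- One step inequality. -/
theorem one_step [IsFiniteMeasure ν] (hν : FiniteSpeed ν)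
    (h : SolvesHW β ν x₀ P X) (Δ₁ Δ₂ : Finset (Fin n)) (hΔ₁ : Δ₁.Nonempty) (hΔ₂ : Δ₂.Nonempty)
    {s u u' : ℝ≥0} (hsu : s ≤ u) (huu' : u ≤ u')
    {G : Set Ω} (hG : MeasurableSet[h.filt s] G) {ρ θ : Ω → ℝ} (hρ : Measurable[h.filt s] ρ)
    (hθ : Measurable[h.filt s] θ) (hρ0 : ∀ ω ∈ G, 0 ≤ ρ ω) {ε : ℝ} (hε : 0 < ε)
    {η : ℝ} (hη0 : 0 < η) (hη : 9 * η ≤ 1 / Bump.KK (spd ν)) (hh : (u' : ℝ) - u ≤ η) :
    (1 - Bump.Lam (spd ν) * ((u' : ℝ) - u)) *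
        ∫ ω in G, Bump.F (Bump.KK (spd ν)) (xP X Δ₁ Δ₂ hΔ₁ hΔ₂ ρ ε s u ω)
          (mP β X Δ₁ Δ₂ hΔ₁ hΔ₂ θ s u ω) ∂P -
      (n ^ 2 * (8 * Bump.C0 (Bump.KK (spd ν)) ^ 2 / ε ^ 2 * ((u' : ℝ) - u) ^ 2) +
        600 * Bump.C0 (Bump.KK (spd ν)) ^ 2 * η * ((n + 2 * spd ν + 1) * ((u' : ℝ) - u)) +
        600 * Bump.C0 (Bump.KK (spd ν)) ^ 2 * (1 + 1 / η ^ 2) * ∫ ω, Qbad β X η u u' ω ∂P) ≤
      ∫ ω in G, Bump.F (Bump.KK (spd ν)) (xP X Δ₁ Δ₂ hΔ₁ hΔ₂ ρ ε s u' ω)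
        (mP β X Δ₁ Δ₂ hΔ₁ hΔ₂ θ s u' ω) ∂P := by
  have hb : 0 ≤ spd ν := hν.spd_nonneg
  set b := spd ν with hbdef
  set K := Bump.KK b with hKdef
  have hK : 1 ≤ K := Bump.KK_ge hb
  have hK0 : 0 ≤ K := by linarith
  set C := Bump.C0 K with hCdef
  have hC0 : 0 ≤ C := by rw [hCdef]; unfold Bump.C0; positivity
  have huu'' : (u : ℝ) ≤ u' := by exact_mod_cast huu'
  set δ : ℝ := (u' : ℝ) - u with hδ
  have hδ0 : 0 ≤ δ := by rw [hδ]; linarith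
  have hsu' : (s : ℝ) ≤ u := by exact_mod_cast hsu
  set x := xP X Δ₁ Δ₂ hΔ₁ hΔ₂ ρ ε s u with hxdef
  set m := mP β X Δ₁ Δ₂ hΔ₁ hΔ₂ θ s u with hmdef
  set x' := xP X Δ₁ Δ₂ hΔ₁ hΔ₂ ρ ε s u' with hx'def
  set m' := mP β X Δ₁ Δ₂ hΔ₁ hΔ₂ θ s u' with hm'def
  have mx : Measurable[h.filt u] x := h.measurable_xP Δ₁ Δ₂ hΔ₁ hΔ₂ hsu hρ ε
  have mm : Measurable[h.filt u] m := h.measurable_mP Δ₁ Δ₂ hΔ₁ hΔ₂ hsu hθ
  have mx' : Measurable x' :=
    (h.measurable_xP Δ₁ Δ₂ hΔ₁ hΔ₂ (hsu.trans huu') hρ ε).mono (h.filt.le u') le_rfl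
  have mm' : Measurable m' :=
    (h.measurable_mP Δ₁ Δ₂ hΔ₁ hΔ₂ (hsu.trans huu') hθ).mono (h.filt.le u') le_rfl
  have hGu : MeasurableSet[h.filt u] G := h.filt.mono hsu G hG
  have hG' : MeasurableSet G := h.filt.le s G hG
  set D : Set Ω := {ω | 0 < x ω} ∩ ({ω | x ω < 1} ∩ {ω | |m ω| < 1}) with hD
  have hDm : MeasurableSet[h.filt u] D := by
    refine MeasurableSet.inter (measurableSet_lt measurable_const mx) (MeasurableSet.inter
      (measurableSet_lt mx measurable_const) (measurableSet_lt ?_ measurable_const))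
    exact continuous_abs.measurable.comp mm
  set A : Fin n × Fin n → Set Ω := fun p => (G ∩ D) ∩
    ({ω | First Δ₁ (fMax Δ₁ hΔ₁) (X u ω) p.1} ∩ {ω | First Δ₂ (fMin Δ₂ hΔ₂) (X u ω) p.2}) with hAdef
  have hAm : ∀ p, MeasurableSet[h.filt u] (A p) := by
    intro p
    refine (hGu.inter hDm).inter (MeasurableSet.inter ?_ ?_)
    · exact h.adapted u (measurableSet_First Δ₁ (measurable_fMax Δ₁ hΔ₁) p.1)
    · exact h.adapted u (measurableSet_First Δ₂ (measurable_fMin Δ₂ hΔ₂) p.2)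
  have hAm' : ∀ p, MeasurableSet (A p) := fun p => h.filt.le u _ (hAm p)
  have hdisj : Pairwise (Function.onFun Disjoint A) := by
    intro p p' hpp'
    rw [Function.onFun, Set.disjoint_left]
    intro ω h1 h2
    apply hpp'
    exact Prod.ext (First.unique h1.2.1 h2.2.1) (First.unique h1.2.2 h2.2.2)
  have hUn : ⋃ p, A p = G ∩ D := by
    ext ω
    simp only [mem_iUnion]
    constructor
    · rintro ⟨p, hp⟩
      exact hp.1
    · intro hω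
      obtain ⟨i, hi, hi'⟩ := Finset.exists_mem_eq_sup' hΔ₁ (X u ω)
      obtain ⟨j, hj, hj'⟩ := Finset.exists_mem_eq_inf' hΔ₂ (X u ω)
      obtain ⟨i', hi2⟩ := First.exists (Δ := Δ₁) (S := fMax Δ₁ hΔ₁) (z := X u ω) ⟨i, hi, hi'.symm⟩
      obtain ⟨j', hj2⟩ := First.exists (Δ := Δ₂) (S := fMin Δ₂ hΔ₂) (z := X u ω) ⟨j, hj, hj'.symm⟩
      exact ⟨(i', j'), hω, hi2, hj2⟩
  have IF' : Integrable (fun ω => Bump.F K (x' ω) (m' ω)) P := h.integrable_F hK0 mx' mm'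
  have IF : Integrable (fun ω => Bump.F K (x ω) (m ω)) P :=
    h.integrable_F hK0 (mx.mono (h.filt.le u) le_rfl) (mm.mono (h.filt.le u) le_rfl)
  have sumsplit : ∀ {f : Ω → ℝ}, Integrable f P →
      ∫ ω in G ∩ D, f ω ∂P = ∑ p, ∫ ω in A p, f ω ∂P := by
    intro f hf
    rw [← hUn, integral_iUnion_fintype hAm' hdisj fun p => hf.integrableOn]
  -- individual steps
  have step : ∀ p ∈ (Finset.univ : Finset (Fin n × Fin n)),
      (1 - Bump.Lam b * δ) * ∫ ω in A p, Bump.F K (x ω) (m ω) ∂P -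
      (8 * C ^ 2 / ε ^ 2 * δ ^ 2 +
        600 * C ^ 2 * η * (∫ ω in A p, Qs β X u u' ω ∂P + (2 * b + 1) * δ * P.real (A p)) +
        600 * C ^ 2 * (1 + 1 / η ^ 2) * ∫ ω in A p, Qbad β X η u u' ω ∂P) ≤
      ∫ ω in A p, Bump.F K (x' ω) (m' ω) ∂P := by
    intro p _
    by_cases hne : (A p).Nonempty
    · obtain ⟨ω₀, hω₀⟩ := hne
      have hi : p.1 ∈ Δ₁ := hω₀.2.1.1
      have hj : p.2 ∈ Δ₂ := hω₀.2.2.1
      apply h.one_step_ij hν Δ₁ Δ₂ hΔ₁ hΔ₂ hi hj huu' (hAm p) mx mm hε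
        (fun ω hω => hω.1.2.1) (fun ω hω => hω.1.2.2.1) (fun ω hω => hω.1.2.2.2)
        (fun ω hω => hω.2.1.2.1.symm) (fun ω hω => hω.2.2.2.1.symm) ?_ hη0 hη hh mx' mm' ?_ ?_
      · intro ω hω
        have h1 : X u ω p.1 = fMax Δ₁ hΔ₁ (X u ω) := hω.2.1.2.1
        have h2 : X u ω p.2 = fMin Δ₂ hΔ₂ (X u ω) := hω.2.2.2.1
        have h3 : 0 < x ω := hω.1.2.1
        have h4 := hρ0 ω hω.1.1
        rw [hxdef] at h3
        unfold xP at h3
        rw [h1, h2]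
        linarith
      · intro ω hω
        have h1 : X u ω p.1 = fMax Δ₁ hΔ₁ (X u ω) := hω.2.1.2.1
        have h2 : X u ω p.2 = fMin Δ₂ hΔ₂ (X u ω) := hω.2.2.2.1
        rw [hx'def, hxdef]
        unfold xP dM M
        rw [h1, h2]
        ring
      · intro ω hω
        have h1 : X u ω p.1 = fMax Δ₁ hΔ₁ (X u ω) := hω.2.1.2.1
        have h2 : X u ω p.2 = fMin Δ₂ hΔ₂ (X u ω) := hω.2.2.2.1
        rw [hm'def, hmdef]
        unfold mP dM M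
        rw [h1, h2]
        ring
    · rw [Set.not_nonempty_iff_eq_empty] at hne
      rw [hne]
      simp only [Measure.restrict_empty, integral_zero_measure, mul_zero, measureReal_empty,
        add_zero, zero_sub, Left.neg_nonpos_iff]
      positivity
  have total := Finset.sum_le_sum step
  simp only [Finset.sum_sub_distrib, Finset.sum_add_distrib, ← Finset.mul_sum] at total
  rw [← sumsplit IF, ← sumsplit IF', ← sumsplit (h.integrable_Qs u u'),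
    ← sumsplit (h.integrable_Qbad η u u'), Finset.sum_const, Finset.card_univ,
    Fintype.card_prod, Fintype.card_fin, nsmul_eq_mul] at total
  -- bounds
  have hA1 : ∑ p, P.real (A p) ≤ 1 := by
    rw [← measureReal_biUnion_finset (fun p _ p' _ hpp' => hdisj hpp') (fun p _ => hAm' p)]
    exact measureReal_le_one
  have hQ : ∫ ω in G ∩ D, Qs β X u u' ω ∂P ≤ n * δ := by
    rw [hδ, ← h.integral_Qs huu']
    exact setIntegral_le_integral (h.integrable_Qs u u')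
      (Eventually.of_forall fun ω => Qs_nonneg u u' ω)
  have hQb : ∫ ω in G ∩ D, Qbad β X η u u' ω ∂P ≤ ∫ ω, Qbad β X η u u' ω ∂P := by
    refine setIntegral_le_integral (h.integrable_Qbad η u u')
      (Eventually.of_forall fun ω => ?_)
    show 0 ≤ Qbad β X η u u' ω
    unfold Qbad
    have := Qs_nonneg (β := β) (X := X) u u' ω
    split_ifs
    · exact this
    · exact le_rfl
  have hGD : ∫ ω in G, Bump.F K (x ω) (m ω) ∂P = ∫ ω in G ∩ D, Bump.F K (x ω) (m ω) ∂P := by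
    have hD' : MeasurableSet D := h.filt.le u _ hDm
    rw [← integral_indicator hG', ← integral_indicator (hG'.inter hD')]
    congr 1
    ext ω
    by_cases hω : ω ∈ G
    · by_cases hωD : ω ∈ D
      · rw [indicator_of_mem hω, indicator_of_mem (show ω ∈ G ∩ D from ⟨hω, hωD⟩)]
      · rw [indicator_of_mem hω, indicator_of_notMem (fun h => hωD h.2)]
        unfold Bump.F Bump.Sp Bump.qp
        split_ifs with h1 h2 h2
        · exact absurd ⟨h1.1, h1.2, h2⟩ hωD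
        · simp
        · simp
        · simp
    · rw [indicator_of_notMem hω, indicator_of_notMem (fun h => hω h.1)]
  have hGD' : ∫ ω in G ∩ D, Bump.F K (x' ω) (m' ω) ∂P ≤ ∫ ω in G, Bump.F K (x' ω) (m' ω) ∂P := by
    apply setIntegral_mono_set IF'.integrableOn
      (Eventually.of_forall fun ω => Bump.F_nonneg hK0)
    exact (inter_subset_left).eventuallyLE
  rw [hGD]
  have q1 := mul_le_mul_of_nonneg_left hA1 (by positivity : 0 ≤ 600 * C ^ 2 * η * ((2 * b + 1) * δ))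
  have q2 := mul_le_mul_of_nonneg_left hQ (by positivity : 0 ≤ 600 * C ^ 2 * η)
  have q3 := mul_le_mul_of_nonneg_left hQb
    (by positivity : 0 ≤ 600 * C ^ 2 * (1 + 1 / η ^ 2))
  push_cast at total
  linarith only [total, hGD', q1, q2, q3]

end SolvesHW

end Pool.Agent.H88.HW
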