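import Pool.Agent.H88.HW.Taylor

/-!
Deterministic one step lower bound.
-/

open Set

namespace Pool.Agent.H88.HW.Bump

/-- coefficient functions -/
def A0 (K x m : ℝ) : ℝ := S K x * q m
/-- coefficient functions -/
def A1 (K x m : ℝ) : ℝ := S1 K x * q m
/-- coefficient functions -/
def A2 (K x m : ℝ) : ℝ := S K x * q1 m
/-- coefficient functions -/
def A3 (K x m : ℝ) : ℝ := S2 K x * q m
/-- coefficient functions -/
def A4 (K x m : ℝ) : ℝ := S K x * q2 m
/-- coefficient functions -/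
def A5 (K x m : ℝ) : ℝ := S1 K x * q1 m

/-- the main part of the increment -/
noncomputable def Main (a0 a1 a2 a3 a4 a5 μi μj eL eR h : ℝ) : ℝ :=
  a0 + a1 * (μj - μi) + a2 * ((μi + μj) / 2) + (1 / 2) * a3 * (μj - μi) ^ 2 +
    (1 / 2) * a4 * ((μi + μj) / 2) ^ 2 + a5 * ((μj - μi) * ((μi + μj) / 2)) -
    |a1| * (eL + eR + 3 * h) - |a2| * ((eL + eR) / 2)

lemma T2_eq (K x m d d' : ℝ) : T2 K x m d d' =
    A0 K x m + A1 K x m * d + A2 K x m * d' + (1 / 2) * A3 K x m * d ^ 2 +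
      (1 / 2) * A4 K x m * d' ^ 2 + A5 K x m * (d * d') := by
  unfold T2 A0 A1 A2 A3 A4 A5; ring

lemma main_good {a0 a1 a2 a3 a4 a5 μi μj eL eR h C η : ℝ}
    (h3 : |a3| ≤ C) (h4 : |a4| ≤ C) (h5 : |a5| ≤ C) (hη0 : 0 < η)
    (hi : |μi| ≤ η) (hj : |μj| ≤ η) (heL0 : 0 ≤ eL) (heR0 : 0 ≤ eR) (heL : eL ≤ 2 * η)
    (heR : eR ≤ 2 * η) (hh0 : 0 ≤ h) (hh : h ≤ η) :
    Main a0 a1 a2 a3 a4 a5 μi μj eL eR h - 30 * C * η * (eL + eR + h) ≤
      a0 + a1 * ((μj - μi) - (eL + eR) - 3 * h) + a2 * ((μi + μj) / 2 + (eR - eL) / 2) +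
        (1 / 2) * a3 * ((μj - μi) - (eL + eR) - 3 * h) ^ 2 +
        (1 / 2) * a4 * ((μi + μj) / 2 + (eR - eL) / 2) ^ 2 +
        a5 * (((μj - μi) - (eL + eR) - 3 * h) * ((μi + μj) / 2 + (eR - eL) / 2)) := by
  set r := eL + eR + 3 * h with hr
  set s := (eR - eL) / 2 with hs
  set δ := μj - μi with hδ
  set δ' := (μi + μj) / 2 with hδ'
  set E := eL + eR + h with hE
  have hC0 : 0 ≤ C := (abs_nonneg _).trans h3
  have hr0 : 0 ≤ r := by positivity
  have hE0 : 0 ≤ E := by positivity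
  have hrE : r ≤ 3 * E := by rw [hr, hE]; linarith
  have hr7 : r ≤ 7 * η := by rw [hr]; linarith
  have hsE : |s| ≤ E / 2 := by
    rw [hs, hE, abs_le]; constructor <;> linarith
  have hs2 : |s| ≤ 2 * η := by
    rw [hs, abs_le]; constructor <;> linarith
  have hi' := abs_le.1 hi
  have hj' := abs_le.1 hj
  have hδη : |δ| ≤ 2 * η := by rw [hδ, abs_le]; constructor <;> linarith [hi'.1, hi'.2, hj'.1, hj'.2]
  have hδη' : |δ'| ≤ η := by rw [hδ', abs_le]; constructor <;> linarith [hi'.1, hi'.2, hj'.1, hj'.2]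
  have hrabs : |r| ≤ 3 * E := by rw [abs_of_nonneg hr0]; exact hrE
  have hrabs7 : |r| ≤ 7 * η := by rw [abs_of_nonneg hr0]; exact hr7
  have e1 : δ - (eL + eR) - 3 * h = δ - r := by rw [hr]; ring
  rw [e1]
  have k1 : -(|a1| * r) ≤ a1 * (-r) := by
    have := le_abs_self (a1 * r)
    rw [abs_mul, abs_of_nonneg hr0] at this
    linarith
  have k2 : -(|a2| * ((eL + eR) / 2)) ≤ a2 * s := by
    have t := neg_abs_le (a2 * s)
    rw [abs_mul] at t
    have : |s| ≤ (eL + eR) / 2 := by rw [hs, abs_le]; constructor <;> linarith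
    have := mul_le_mul_of_nonneg_left this (abs_nonneg a2)
    linarith
  have k3 : |a3 * ((-2 * δ + r) * r)| ≤ C * ((2 * (2 * η) + 7 * η) * (3 * E)) := by
    apply absmul h3
    apply absmul _ hrabs
    refine (abs_add_le _ _).trans (add_le_add ?_ hrabs7)
    rw [abs_mul]
    norm_num
    linarith
  have k4 : |a4 * ((2 * δ' + s) * s)| ≤ C * ((2 * η + 2 * η) * (E / 2)) := by
    apply absmul h4
    apply absmul _ hsE
    refine (abs_add_le _ _).trans (add_le_add ?_ hs2)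
    rw [abs_mul]
    norm_num
    linarith
  have k5 : |a5 * (δ * s - r * δ' - r * s)| ≤
      C * (2 * η * (E / 2) + 3 * E * η + 3 * E * (2 * η)) := by
    apply absmul h5
    refine (abs_sub _ _).trans (add_le_add ((abs_sub _ _).trans (add_le_add ?_ ?_)) ?_)
    · exact absmul hδη hsE
    · exact absmul hrabs hδη'
    · exact absmul hrabs hs2
  have k3' := (abs_le.1 k3).1
  have k4' := (abs_le.1 k4).1
  have k5' := (abs_le.1 k5).1
  have hCηE : 0 ≤ C * η * E := by positivity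
  unfold Main
  rw [← hδ, ← hδ', ← hr]
  linarith only [k1, k2, k3', k4', k5', hCηE]

/-- Deterministic one step inequality. -/
theorem step_det {K x m μi μj eL eR h Q η : ℝ} (hK : 1 ≤ K) (h0 : 0 < x) (h1 : x < 1)
    (hm : |m| < 1) (hη0 : 0 < η) (hη : 9 * η ≤ 1 / K) (heL0 : 0 ≤ eL) (heR0 : 0 ≤ eR)
    (hh0 : 0 ≤ h) (hh : h ≤ η) (hi : μi ^ 2 ≤ Q) (hj : μj ^ 2 ≤ Q) (heL : eL ^ 2 ≤ 4 * Q)
    (heR : eR ^ 2 ≤ 4 * Q) :
    Main (A0 K x m) (A1 K x m) (A2 K x m) (A3 K x m) (A4 K x m) (A5 K x m) μi μj eL eR h -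
        600 * C0 K ^ 2 * η * (Q + (eL + eR + h)) -
        600 * C0 K ^ 2 * (1 + 1 / η ^ 2) * (if η ^ 2 < Q then Q else 0) ≤
      F K (x + ((μj - μi) - (eL + eR) - 3 * h)) (m + ((μi + μj) / 2 + (eR - eL) / 2)) := by
  have hK0 : 0 < K := by linarith
  have hQ0 : 0 ≤ Q := (sq_nonneg _).trans hi
  set C := C0 K with hC
  have hC1 : 1 ≤ C := by rw [hC]; unfold C0; linarith
  have a1 : |A1 K x m| ≤ C * C := absmul (bS1 hK0.le h0.le h1.le) (bq hK0.le hm.le)
  have a2 : |A2 K x m| ≤ C * C := absmul (bS hK0.le h0.le h1.le) (bq1 hK0.le hm.le)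
  have a3 : |A3 K x m| ≤ C * C := absmul (bS2 hK0.le h0.le h1.le) (bq hK0.le hm.le)
  have a4 : |A4 K x m| ≤ C * C := absmul (bS hK0.le h0.le h1.le) (bq2 hK0.le hm.le)
  have a5 : |A5 K x m| ≤ C * C := absmul (bS1 hK0.le h0.le h1.le) (bq1 hK0.le hm.le)
  have a0 : |A0 K x m| ≤ C * C := absmul (bS hK0.le h0.le h1.le) (bq hK0.le hm.le)
  have hE0 : 0 ≤ eL + eR + h := by positivity
  have hη1 : η ≤ 1 / 9 := by
    have : 1 / K ≤ 1 := by rw [div_le_one hK0]; exact hK
    linarith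
  rcases le_or_gt Q (η ^ 2) with hQ | hQ
  · -- good case
    rw [if_neg (not_lt.2 hQ)]
    have hi' : |μi| ≤ η := abs_le_of_sq_le_sq (hi.trans hQ) hη0.le
    have hj' : |μj| ≤ η := abs_le_of_sq_le_sq (hj.trans hQ) hη0.le
    have heL' : eL ≤ 2 * η := by
      have h4 : eL ^ 2 ≤ (2 * η) ^ 2 := by linarith only [heL, hQ, mul_pow (2 : ℝ) η 2]
      exact abs_le_of_sq_le_sq' h4 (by positivity) |>.2
    have heR' : eR ≤ 2 * η := by
      have h4 : eR ^ 2 ≤ (2 * η) ^ 2 := by linarith only [heR, hQ, mul_pow (2 : ℝ) η 2]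
      exact abs_le_of_sq_le_sq' h4 (by positivity) |>.2
    have g := main_good (a0 := A0 K x m) (a1 := A1 K x m) (a2 := A2 K x m) a3 a4 a5 hη0 hi' hj'
      heL0 heR0 heL' heR' hh0 hh
    set d := (μj - μi) - (eL + eR) - 3 * h with hd
    set d' := (μi + μj) / 2 + (eR - eL) / 2 with hd'
    have hi2 := abs_le.1 hi'
    have hj2 := abs_le.1 hj'
    have hdη : |d| ≤ 9 * η := by
      rw [hd, abs_le]; constructor <;> linarith [hi2.1, hi2.2, hj2.1, hj2.2]
    have hdη' : |d'| ≤ 3 * η := by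
      rw [hd', abs_le]; constructor <;> linarith [hi2.1, hi2.2, hj2.1, hj2.2]
    have t := F_taylor hK h0 h1 hm (hdη.trans hη) (hdη'.trans (by linarith) : |d'| ≤ 1)
    rw [T2_eq] at t
    -- cubic terms
    have c1 : d ^ 2 ≤ 8 * Q + 5 * (eL + eR + h) := by
      have e1 : (μj - μi) ^ 2 ≤ 4 * Q := by nlinarith only [sq_nonneg (μj + μi), hi, hj]
      have e2 : (eL + eR + 3 * h) ^ 2 ≤ 7 * η * (3 * (eL + eR + h)) := by
        have f1 : eL + eR + 3 * h ≤ 7 * η := by linarith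
        have f2 : eL + eR + 3 * h ≤ 3 * (eL + eR + h) := by linarith
        have f3 : 0 ≤ eL + eR + 3 * h := by positivity
        have f4 := mul_le_mul f1 f2 f3 (by positivity)
        rw [sq]
        exact f4
      have e3 : d = (μj - μi) - (eL + eR + 3 * h) := by rw [hd]; ring
      rw [e3]
      have e4 : 7 * η * (3 * (eL + eR + h)) ≤ 5 / 2 * (eL + eR + h) := by
        have := mul_le_mul_of_nonneg_right hη1 hE0
        linarith only [this, hE0]
      have e5 := sq_nonneg ((μj - μi) + (eL + eR + 3 * h))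
      generalize (μj - μi) = z1 at *
      generalize (eL + eR + 3 * h) = z2 at *
      nlinarith only [e1, e2, e4, e5]
    have c2 : d' ^ 2 ≤ 2 * Q + (eL + eR + h) := by
      have e1 : ((μi + μj) / 2) ^ 2 ≤ Q := by nlinarith only [sq_nonneg (μi - μj), hi, hj]
      have e2 : ((eR - eL) / 2) ^ 2 ≤ 2 * η * ((eL + eR + h) / 2) := by
        have f1 : |(eR - eL) / 2| ≤ 2 * η := by rw [abs_le]; constructor <;> linarith
        have f2 : |(eR - eL) / 2| ≤ (eL + eR + h) / 2 := by rw [abs_le]; constructor <;> linarith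
        have f4 := mul_le_mul f1 f2 (abs_nonneg _) (by positivity)
        rw [← sq_abs, sq]
        exact f4
      rw [hd']
      have e4 : 2 * η * ((eL + eR + h) / 2) ≤ (1 / 9) * (eL + eR + h) := by
        have := mul_le_mul_of_nonneg_right hη1 hE0
        linarith only [this, hE0]
      have e5 := sq_nonneg ((μi + μj) / 2 - (eR - eL) / 2)
      generalize (μi + μj) / 2 = z1 at *
      generalize (eR - eL) / 2 = z2 at *
      nlinarith only [e1, e2, e4, e5, hE0]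
    have c3 : |d| ^ 3 ≤ 9 * η * (8 * Q + 5 * (eL + eR + h)) := by
      have : |d| ^ 3 = |d| * d ^ 2 := by rw [← sq_abs]; ring
      rw [this]
      exact mul_le_mul hdη c1 (sq_nonneg _) (by positivity)
    have c4 : |d'| ^ 3 ≤ 3 * η * (2 * Q + (eL + eR + h)) := by
      have : |d'| ^ 3 = |d'| * d' ^ 2 := by rw [← sq_abs]; ring
      rw [this]
      exact mul_le_mul hdη' c2 (sq_nonneg _) (by positivity)
    have c5 : 6 * C ^ 2 * (|d| ^ 3 + |d'| ^ 3) ≤ 6 * C ^ 2 *
        (9 * η * (8 * Q + 5 * (eL + eR + h)) + 3 * η * (2 * Q + (eL + eR + h))) :=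
      mul_le_mul_of_nonneg_left (add_le_add c3 c4) (by positivity)
    have p1 : 0 ≤ C ^ 2 * η * Q := by positivity
    have p2 : 0 ≤ C ^ 2 * η * (eL + eR + h) := by positivity
    linarith only [g, t, c5, p1, p2]
  · -- bad case
    rw [if_pos hQ]
    refine le_trans ?_ (F_nonneg hK0.le)
    have e1 : (μj - μi) ^ 2 ≤ 4 * Q := by nlinarith only [sq_nonneg (μj + μi), hi, hj]
    have e2 : ((μi + μj) / 2) ^ 2 ≤ Q := by nlinarith only [sq_nonneg (μi - μj), hi, hj]
    set δ := μj - μi with hδ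
    set δ' := (μi + μj) / 2 with hδ'
    have q0 : |δ| ≤ 1 + Q := by
      have : |δ| ≤ 1 / 4 * δ ^ 2 + 1 := by
        rw [← sq_abs]; nlinarith only [sq_nonneg (|δ| / 2 - 1)]
      linarith only [this, e1]
    have q1 : |δ'| ≤ 1 + Q := by
      have : |δ'| ≤ δ' ^ 2 + 1 := by
        rw [← sq_abs]; nlinarith only [sq_nonneg (|δ'| - 1), abs_nonneg δ']
      linarith only [this, e2]
    have q2 : |δ ^ 2| ≤ 4 * Q := by rw [abs_of_nonneg (sq_nonneg _)]; exact e1
    have q3 : |δ' ^ 2| ≤ Q := by rw [abs_of_nonneg (sq_nonneg _)]; exact e2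
    have q4 : |δ * δ'| ≤ 3 * Q := by
      rw [abs_le]
      constructor <;> nlinarith only [sq_nonneg (δ + δ'), sq_nonneg (δ - δ'), e1, e2]
    have hhalf : |(1 / 2 : ℝ)| ≤ 1 / 2 := by rw [abs_of_pos] <;> norm_num
    have b0 := (le_abs_self _).trans a0
    have b1 := (le_abs_self _).trans (absmul a1 q0)
    have b2 := (le_abs_self _).trans (absmul a2 q1)
    have b3 := (le_abs_self _).trans (absmul (absmul hhalf a3) q2)
    have b4 := (le_abs_self _).trans (absmul (absmul hhalf a4) q3)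
    have b5 := (le_abs_self _).trans (absmul a5 q4)
    have b6 : 0 ≤ |A1 K x m| * (eL + eR + 3 * h) := by positivity
    have b7 : 0 ≤ |A2 K x m| * ((eL + eR) / 2) := by positivity
    have b8 : 0 ≤ 600 * C ^ 2 * η * (Q + (eL + eR + h)) := by positivity
    have b9 : 1 ≤ 1 / η ^ 2 * Q := by
      rw [one_div, ← div_eq_inv_mul, le_div_iff₀ (by positivity)]
      linarith
    have b10 : C ^ 2 ≤ C ^ 2 * (1 / η ^ 2 * Q) := le_mul_of_one_le_right (by positivity) b9
    have b11 : 0 ≤ C ^ 2 * Q := by positivity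
    have b12 : 0 ≤ C ^ 2 := by positivity
    unfold Main
    rw [← hδ, ← hδ']
    clear_value δ δ' C
    generalize 1 / η ^ 2 = w at *
    linarith only [b0, b1, b2, b3, b4, b5, b6, b7, b8, b10, b11, b12]

end Pool.Agent.H88.HW.Bump
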