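import Pool.Agent.H88.HW.StepDet
import Pool.Agent.H88.HW.MinMax

open MeasureTheory ProbabilityTheory Filter Set
open scoped ENNReal NNReal Topology

namespace Pool.Agent.H88.HW

variable {Ω : Type*} [MeasurableSpace Ω] {P : Measure Ω}

lemma integral_comb8 {f0 f1 f2 f3 f4 f5 f6 f7 : Ω → ℝ} (h0 : Integrable f0 P)
    (h1 : Integrable f1 P) (h2 : Integrable f2 P) (h3 : Integrable f3 P) (h4 : Integrable f4 P)
    (h5 : Integrable f5 P) (h6 : Integrable f6 P) (h7 : Integrable f7 P) :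
    ∫ ω, (f0 ω + f1 ω + f2 ω + f3 ω + f4 ω + f5 ω - f6 ω - f7 ω) ∂P =
      ∫ ω, f0 ω ∂P + ∫ ω, f1 ω ∂P + ∫ ω, f2 ω ∂P + ∫ ω, f3 ω ∂P + ∫ ω, f4 ω ∂P +
        ∫ ω, f5 ω ∂P - ∫ ω, f6 ω ∂P - ∫ ω, f7 ω ∂P := by
  have s1 : Integrable (fun ω => f0 ω + f1 ω) P := h0.add h1
  have s2 : Integrable (fun ω => f0 ω + f1 ω + f2 ω) P := s1.add h2
  have s3 : Integrable (fun ω => f0 ω + f1 ω + f2 ω + f3 ω) P := s2.add h3
  have s4 : Integrable (fun ω => f0 ω + f1 ω + f2 ω + f3 ω + f4 ω) P := s3.add h4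
  have s5 : Integrable (fun ω => f0 ω + f1 ω + f2 ω + f3 ω + f4 ω + f5 ω) P := s4.add h5
  have s6 : Integrable (fun ω => f0 ω + f1 ω + f2 ω + f3 ω + f4 ω + f5 ω - f6 ω) P := s5.sub h6
  rw [integral_sub s6 h7, integral_sub s5 h6, integral_add s4 h5, integral_add s3 h4,
    integral_add s2 h3, integral_add s1 h2, integral_add h0 h1]

namespace SolvesHW

variable {β : ℝ} {ν : Measure ℝ} {n : ℕ} {x₀ : Fin n → ℝ} {X : ℝ≥0 → Ω → Fin n → ℝ}

/-- martingale increment -/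
def dM (β : ℝ) (X : ℝ≥0 → Ω → Fin n → ℝ) (i : Fin n) (u u' : ℝ≥0) (ω : Ω) : ℝ :=
  M β X i u' ω - M β X i u ω

variable [IsProbabilityMeasure P]

lemma dM_memLp (h : SolvesHW β ν x₀ P X) (i : Fin n) (u u' : ℝ≥0) :
    MemLp (dM β X i u u') 2 P := (h.M_memLp i u').sub (h.M_memLp i u)

/-- Lower bound for the expectation of the main part of the increment. -/
theorem integral_Main_ge [IsFiniteMeasure ν] (hν : FiniteSpeed ν)
    (h : SolvesHW β ν x₀ P X) (Δ₁ Δ₂ : Finset (Fin n)) (hΔ₁ : Δ₁.Nonempty) (hΔ₂ : Δ₂.Nonempty)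
    (i j : Fin n) {u u' : ℝ≥0} (huu' : u ≤ u') {a0 a1 a2 a3 a4 a5 : Ω → ℝ} {C : ℝ}
    (m0 : StronglyMeasurable[h.filt u] a0) (m1 : StronglyMeasurable[h.filt u] a1)
    (m2 : StronglyMeasurable[h.filt u] a2) (m3 : StronglyMeasurable[h.filt u] a3)
    (m4 : StronglyMeasurable[h.filt u] a4) (m5 : StronglyMeasurable[h.filt u] a5)
    (c0 : ∀ ω, |a0 ω| ≤ C) (c1 : ∀ ω, |a1 ω| ≤ C) (c2 : ∀ ω, |a2 ω| ≤ C) (c3 : ∀ ω, |a3 ω| ≤ C)
    (c4 : ∀ ω, |a4 ω| ≤ C) (c5 : ∀ ω, |a5 ω| ≤ C)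
    (z1 : ∀ ω, a1 ω ≠ 0 → fMax Δ₁ hΔ₁ (X u ω) = X u ω i ∧ fMin Δ₂ hΔ₂ (X u ω) = X u ω j)
    (z2 : ∀ ω, a2 ω ≠ 0 → fMax Δ₁ hΔ₁ (X u ω) = X u ω i ∧ fMin Δ₂ hΔ₂ (X u ω) = X u ω j) :
    Integrable (fun ω => Bump.Main (a0 ω) (a1 ω) (a2 ω) (a3 ω) (a4 ω) (a5 ω) (dM β X i u u' ω)
        (dM β X j u u' ω) (X u' ω j - fMin Δ₂ hΔ₂ (X u' ω)) (fMax Δ₁ hΔ₁ (X u' ω) - X u' ω i)
        ((u' : ℝ) - u)) P ∧
    ∫ ω, (a0 ω + ((u' : ℝ) - u) * (a3 ω + (1 / 4) * a4 ω - (3 + 2 * spd ν) * |a1 ω| -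
        spd ν * |a2 ω|)) ∂P - ∫ ω, (|a3 ω| + |a4 ω|) * occ X (eqInd i j) u u' ω ∂P ≤
      ∫ ω, Bump.Main (a0 ω) (a1 ω) (a2 ω) (a3 ω) (a4 ω) (a5 ω) (dM β X i u u' ω)
        (dM β X j u u' ω) (X u' ω j - fMin Δ₂ hΔ₂ (X u' ω)) (fMax Δ₁ hΔ₁ (X u' ω) - X u' ω i)
        ((u' : ℝ) - u) ∂P := by
  have huu'' : (u : ℝ) ≤ u' := by exact_mod_cast huu'
  set δ : ℝ := (u' : ℝ) - u with hδ
  have hδ0 : 0 ≤ δ := by rw [hδ]; linarith
  have ae : ∀ {a : Ω → ℝ}, StronglyMeasurable[h.filt u] a → AEStronglyMeasurable a P :=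
    fun {a} ha => (ha.mono (h.filt.le u)).aestronglyMeasurable
  have one : ∀ {a : Ω → ℝ}, StronglyMeasurable[h.filt u] a → (∀ ω, |a ω| ≤ C) →
      Integrable a P := fun {a} ha hc => by
    simpa using integrable_bdd_mul (ae ha) hc (integrable_const (1 : ℝ))
  have sq_int : ∀ k l : Fin n, Integrable (fun ω => dM β X k u u' ω * dM β X l u u' ω) P :=
    fun k l => (h.dM_memLp k u u').integrable_mul (h.dM_memLp l u u')
  have dM_int : ∀ k : Fin n, Integrable (dM β X k u u') P := fun k =>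
    (h.dM_memLp k u u').integrable (by norm_num)
  have J_int : Integrable (occ X (eqInd i j) u u') P :=
    h.integrable_occ (measurable_eqInd i j) (eqInd_le i j) huu''
  have p1 : ∀ (k : Fin n) {a : Ω → ℝ}, StronglyMeasurable[h.filt u] a → (∀ ω, |a ω| ≤ C) →
      ∫ ω, a ω * dM β X k u u' ω ∂P = 0 := fun k {a} ha hc => h.pair_M k huu' ha hc
  have p2 : ∀ (k : Fin n) {a : Ω → ℝ}, StronglyMeasurable[h.filt u] a → (∀ ω, |a ω| ≤ C) →
      ∫ ω, a ω * (dM β X k u u' ω * dM β X k u u' ω) ∂P = δ * ∫ ω, a ω ∂P := by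
    intro k a ha hc
    have := h.pair_sq k huu' ha hc
    simpa [dM, sq] using this
  have p3 : ∀ {a : Ω → ℝ}, StronglyMeasurable[h.filt u] a → (∀ ω, |a ω| ≤ C) →
      ∫ ω, a ω * (dM β X i u u' ω * dM β X j u u' ω) ∂P =
        ∫ ω, a ω * occ X (eqInd i j) u u' ω ∂P := fun {a} ha hc => h.pair_cov i j huu' ha hc
  -- the pieces
  set eL : Ω → ℝ := fun ω => X u' ω j - fMin Δ₂ hΔ₂ (X u' ω) with heL
  set eR : Ω → ℝ := fun ω => fMax Δ₁ hΔ₁ (X u' ω) - X u' ω i with heR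
  have eL_int : Integrable eL P := (h.integrable_X j u').sub (h.integrable_fMin Δ₂ hΔ₂ u')
  have eR_int : Integrable eR P := (h.integrable_fMax Δ₁ hΔ₁ u').sub (h.integrable_X i u')
  have I1 : Integrable (fun ω => a1 ω * (dM β X j u u' ω - dM β X i u u' ω)) P :=
    integrable_bdd_mul (ae m1) c1 ((dM_int j).sub (dM_int i))
  have I2 : Integrable (fun ω => a2 ω * ((dM β X i u u' ω + dM β X j u u' ω) / 2)) P :=
    integrable_bdd_mul (ae m2) c2 (((dM_int i).add (dM_int j)).div_const 2)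
  have I3 : Integrable (fun ω => (1 / 2) * a3 ω * (dM β X j u u' ω - dM β X i u u' ω) ^ 2) P := by
    have := (integrable_bdd_mul (ae m3) c3
      ((h.dM_memLp j u u').sub (h.dM_memLp i u u')).integrable_sq).const_mul (1 / 2)
    refine this.congr (Eventually.of_forall fun ω => ?_)
    simp only [Pi.sub_apply]; ring
  have I4 : Integrable (fun ω => (1 / 2) * a4 ω *
      ((dM β X i u u' ω + dM β X j u u' ω) / 2) ^ 2) P := by
    have := (integrable_bdd_mul (ae m4) c4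
      ((h.dM_memLp i u u').add (h.dM_memLp j u u')).integrable_sq).const_mul (1 / 8)
    refine this.congr (Eventually.of_forall fun ω => ?_)
    simp only [Pi.add_apply]; ring
  have I5 : Integrable (fun ω => a5 ω * ((dM β X j u u' ω - dM β X i u u' ω) *
      ((dM β X i u u' ω + dM β X j u u' ω) / 2))) P := by
    have := (integrable_bdd_mul (ae m5) c5 ((sq_int j j).sub (sq_int i i))).const_mul (1 / 2)
    refine this.congr (Eventually.of_forall fun ω => ?_)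
    simp only [Pi.sub_apply]; ring
  have I6 : Integrable (fun ω => |a1 ω| * (eL ω + eR ω + 3 * δ)) P :=
    integrable_bdd_mul (ae m1).norm (fun ω => by simpa using c1 ω)
      ((eL_int.add eR_int).add (integrable_const _))
  have I7 : Integrable (fun ω => |a2 ω| * ((eL ω + eR ω) / 2)) P :=
    integrable_bdd_mul (ae m2).norm (fun ω => by simpa using c2 ω)
      ((eL_int.add eR_int).div_const 2)
  have E := integral_comb8 (one m0 c0) I1 I2 I3 I4 I5 I6 I7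
  have E1 : ∫ ω, a1 ω * (dM β X j u u' ω - dM β X i u u' ω) ∂P = 0 := by
    simp only [mul_sub]
    rw [integral_sub (integrable_bdd_mul (ae m1) c1 (dM_int j))
      (integrable_bdd_mul (ae m1) c1 (dM_int i)), p1 j m1 c1, p1 i m1 c1, sub_zero]
  have E2 : ∫ ω, a2 ω * ((dM β X i u u' ω + dM β X j u u' ω) / 2) ∂P = 0 := by
    have e : ∀ ω, a2 ω * ((dM β X i u u' ω + dM β X j u u' ω) / 2) =
        (1 / 2) * (a2 ω * dM β X i u u' ω) + (1 / 2) * (a2 ω * dM β X j u u' ω) := by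
      intro ω; ring
    simp only [e]
    rw [integral_add ((integrable_bdd_mul (ae m2) c2 (dM_int i)).const_mul _)
      ((integrable_bdd_mul (ae m2) c2 (dM_int j)).const_mul _), integral_const_mul,
      integral_const_mul, p1 i m2 c2, p1 j m2 c2]
    ring
  have E3 : ∫ ω, (1 / 2) * a3 ω * (dM β X j u u' ω - dM β X i u u' ω) ^ 2 ∂P =
      δ * ∫ ω, a3 ω ∂P - ∫ ω, a3 ω * occ X (eqInd i j) u u' ω ∂P := by
    have e : ∀ ω, (1 / 2) * a3 ω * (dM β X j u u' ω - dM β X i u u' ω) ^ 2 =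
        (1 / 2) * (a3 ω * (dM β X j u u' ω * dM β X j u u' ω)) +
        (1 / 2) * (a3 ω * (dM β X i u u' ω * dM β X i u u' ω)) -
        a3 ω * (dM β X i u u' ω * dM β X j u u' ω) := by intro ω; ring
    simp only [e]
    have q1 := (integrable_bdd_mul (ae m3) c3 (sq_int j j)).const_mul (1 / 2)
    have q2 := (integrable_bdd_mul (ae m3) c3 (sq_int i i)).const_mul (1 / 2)
    have q3 := integrable_bdd_mul (ae m3) c3 (sq_int i j)
    have q12 : Integrable (fun ω => (1 / 2) * (a3 ω * (dM β X j u u' ω * dM β X j u u' ω)) +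
        (1 / 2) * (a3 ω * (dM β X i u u' ω * dM β X i u u' ω))) P := q1.add q2
    rw [integral_sub q12 q3, integral_add q1 q2, integral_const_mul, integral_const_mul,
      p2 j m3 c3, p2 i m3 c3, p3 m3 c3]
    ring
  have E4 : ∫ ω, (1 / 2) * a4 ω * ((dM β X i u u' ω + dM β X j u u' ω) / 2) ^ 2 ∂P =
      (1 / 4) * (δ * ∫ ω, a4 ω ∂P) + (1 / 4) * ∫ ω, a4 ω * occ X (eqInd i j) u u' ω ∂P := by
    have e : ∀ ω, (1 / 2) * a4 ω * ((dM β X i u u' ω + dM β X j u u' ω) / 2) ^ 2 =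
        (1 / 8) * (a4 ω * (dM β X j u u' ω * dM β X j u u' ω)) +
        (1 / 8) * (a4 ω * (dM β X i u u' ω * dM β X i u u' ω)) +
        (1 / 4) * (a4 ω * (dM β X i u u' ω * dM β X j u u' ω)) := by intro ω; ring
    simp only [e]
    have q1 := (integrable_bdd_mul (ae m4) c4 (sq_int j j)).const_mul (1 / 8)
    have q2 := (integrable_bdd_mul (ae m4) c4 (sq_int i i)).const_mul (1 / 8)
    have q3 := (integrable_bdd_mul (ae m4) c4 (sq_int i j)).const_mul (1 / 4)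
    have q12 : Integrable (fun ω => (1 / 8) * (a4 ω * (dM β X j u u' ω * dM β X j u u' ω)) +
        (1 / 8) * (a4 ω * (dM β X i u u' ω * dM β X i u u' ω))) P := q1.add q2
    rw [integral_add q12 q3, integral_add q1 q2, integral_const_mul, integral_const_mul,
      integral_const_mul, p2 j m4 c4, p2 i m4 c4, p3 m4 c4]
    ring
  have E5 : ∫ ω, a5 ω * ((dM β X j u u' ω - dM β X i u u' ω) *
      ((dM β X i u u' ω + dM β X j u u' ω) / 2)) ∂P = 0 := by
    have e : ∀ ω, a5 ω * ((dM β X j u u' ω - dM β X i u u' ω) *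
        ((dM β X i u u' ω + dM β X j u u' ω) / 2)) =
        (1 / 2) * (a5 ω * (dM β X j u u' ω * dM β X j u u' ω)) -
        (1 / 2) * (a5 ω * (dM β X i u u' ω * dM β X i u u' ω)) := by intro ω; ring
    simp only [e]
    have q1 := (integrable_bdd_mul (ae m5) c5 (sq_int j j)).const_mul (1 / 2)
    have q2 := (integrable_bdd_mul (ae m5) c5 (sq_int i i)).const_mul (1 / 2)
    rw [integral_sub q1 q2, integral_const_mul, integral_const_mul, p2 j m5 c5, p2 i m5 c5]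
    ring
  -- excess terms
  have X1 : ∀ {a : Ω → ℝ}, StronglyMeasurable[h.filt u] a → (∀ ω, |a ω| ≤ C) →
      (∀ ω, a ω ≠ 0 → fMax Δ₁ hΔ₁ (X u ω) = X u ω i ∧ fMin Δ₂ hΔ₂ (X u ω) = X u ω j) →
      ∫ ω, |a ω| * (eL ω + eR ω) ∂P ≤ 2 * spd ν * δ * ∫ ω, |a ω| ∂P := by
    intro a ha hc hz
    have ma : StronglyMeasurable[h.filt u] (fun ω => |a ω|) := ha.norm
    have ca : ∀ ω, |(|a ω|)| ≤ C := fun ω => by simpa using hc ω
    have r1 := h.pair_excess_max hν Δ₁ hΔ₁ i huu' ma ca (fun ω => abs_nonneg _)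
      (fun ω h0 => (hz ω (by simpa using h0)).1)
    have r2 := h.pair_excess_min hν Δ₂ hΔ₂ j huu' ma ca (fun ω => abs_nonneg _)
      (fun ω h0 => (hz ω (by simpa using h0)).2)
    have e : ∀ ω, |a ω| * (eL ω + eR ω) = |a ω| * eL ω + |a ω| * eR ω := by intro ω; ring
    simp only [e]
    rw [integral_add (integrable_bdd_mul (ae ma) ca eL_int) (integrable_bdd_mul (ae ma) ca eR_int)]
    simp only [heL, heR]
    linarith
  have i1abs : Integrable (fun ω => |a1 ω|) P := (one m1 c1).abs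
  have i2abs : Integrable (fun ω => |a2 ω|) P := (one m2 c2).abs
  have E6 : ∫ ω, |a1 ω| * (eL ω + eR ω + 3 * δ) ∂P ≤
      (3 + 2 * spd ν) * δ * ∫ ω, |a1 ω| ∂P := by
    have e : ∀ ω, |a1 ω| * (eL ω + eR ω + 3 * δ) = |a1 ω| * (eL ω + eR ω) + 3 * δ * |a1 ω| := by
      intro ω; ring
    simp only [e]
    have q1 : Integrable (fun ω => |a1 ω| * (eL ω + eR ω)) P :=
      integrable_bdd_mul (ae m1).norm (fun ω => by simpa using c1 ω) (eL_int.add eR_int)
    rw [integral_add q1 (i1abs.const_mul _), integral_const_mul]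
    have := X1 m1 c1 z1
    linarith
  have E7 : ∫ ω, |a2 ω| * ((eL ω + eR ω) / 2) ∂P ≤ spd ν * δ * ∫ ω, |a2 ω| ∂P := by
    have e : ∀ ω, |a2 ω| * ((eL ω + eR ω) / 2) = (1 / 2) * (|a2 ω| * (eL ω + eR ω)) := by
      intro ω; ring
    simp only [e]
    rw [integral_const_mul]
    have := X1 m2 c2 z2
    linarith
  -- left hand side
  have L1 : ∫ ω, (a0 ω + δ * (a3 ω + (1 / 4) * a4 ω - (3 + 2 * spd ν) * |a1 ω| -
        spd ν * |a2 ω|)) ∂P = ∫ ω, a0 ω ∂P + δ * (∫ ω, a3 ω ∂P + (1 / 4) * ∫ ω, a4 ω ∂P -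
        (3 + 2 * spd ν) * ∫ ω, |a1 ω| ∂P - spd ν * ∫ ω, |a2 ω| ∂P) := by
    have q1 : Integrable (fun ω => a3 ω + (1 / 4) * a4 ω) P :=
      (one m3 c3).add ((one m4 c4).const_mul _)
    have q2 : Integrable (fun ω => a3 ω + (1 / 4) * a4 ω - (3 + 2 * spd ν) * |a1 ω|) P :=
      q1.sub (i1abs.const_mul _)
    have q3 : Integrable (fun ω => a3 ω + (1 / 4) * a4 ω - (3 + 2 * spd ν) * |a1 ω| -
        spd ν * |a2 ω|) P := q2.sub (i2abs.const_mul _)
    rw [integral_add (one m0 c0) (q3.const_mul _), integral_const_mul,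
      integral_sub q2 (i2abs.const_mul _), integral_sub q1 (i1abs.const_mul _),
      integral_add (one m3 c3) ((one m4 c4).const_mul _), integral_const_mul, integral_const_mul,
      integral_const_mul]
  have J0 : ∀ ω, 0 ≤ occ X (eqInd i j) u u' ω := by
    intro ω
    unfold occ
    exact intervalIntegral.integral_nonneg huu'' fun r _ => eqInd_nonneg i j _
  have JJ : ∫ ω, a3 ω * occ X (eqInd i j) u u' ω ∂P -
      (1 / 4) * ∫ ω, a4 ω * occ X (eqInd i j) u u' ω ∂P ≤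
      ∫ ω, (|a3 ω| + |a4 ω|) * occ X (eqInd i j) u u' ω ∂P := by
    rw [← integral_const_mul, ← integral_sub (integrable_bdd_mul (ae m3) c3 J_int)
      ((integrable_bdd_mul (ae m4) c4 J_int).const_mul _)]
    apply integral_mono
    · exact (integrable_bdd_mul (ae m3) c3 J_int).sub
        ((integrable_bdd_mul (ae m4) c4 J_int).const_mul _)
    · refine integrable_bdd_mul (C := C + C) ((ae m3).norm.add (ae m4).norm) (fun ω => ?_) J_int
      rw [abs_of_nonneg (by positivity)]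
      exact add_le_add (c3 ω) (c4 ω)
    · intro ω
      have := J0 ω
      have h3 := le_abs_self (a3 ω)
      have h4 := neg_abs_le (a4 ω)
      have h5 := abs_nonneg (a4 ω)
      show a3 ω * occ X (eqInd i j) u u' ω - (1 / 4) * (a4 ω * occ X (eqInd i j) u u' ω) ≤
        (|a3 ω| + |a4 ω|) * occ X (eqInd i j) u u' ω
      nlinarith
  refine ⟨?_, ?_⟩
  · unfold Bump.Main
    exact (((((((one m0 c0).add I1).add I2).add I3).add I4).add I5).sub I6).sub I7
  rw [L1]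
  unfold Bump.Main
  rw [E, E1, E2, E3, E4, E5]
  linarith only [E6, E7, JJ]

end SolvesHW

end Pool.Agent.H88.HW
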