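import Pool.Agent.H88.HW.JBound

open MeasureTheory ProbabilityTheory Filter Set
open scoped ENNReal NNReal Topology

namespace Pool.Agent.H88.HW

namespace Bump

lemma continuous_S (K : ℝ) : Continuous (S K) := by unfold S; fun_prop
lemma continuous_q : Continuous q := by unfold q; fun_prop

lemma measurable_F (K : ℝ) : Measurable (fun p : ℝ × ℝ => F K p.1 p.2) := by
  unfold F
  apply Measurable.mul
  · have : Measurable (Sp K) := by
      unfold Sp
      refine Measurable.ite ?_ (continuous_S K).measurable measurable_const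
      exact (measurableSet_lt measurable_const measurable_id).inter
        (measurableSet_lt measurable_id measurable_const)
    exact this.comp measurable_fst
  · have : Measurable qp := by
      unfold qp
      refine Measurable.ite ?_ continuous_q.measurable measurable_const
      exact measurableSet_lt continuous_abs.measurable measurable_const
    exact this.comp measurable_snd

lemma measurable_A0 (K : ℝ) : Measurable (fun p : ℝ × ℝ => A0 K p.1 p.2) := by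
  apply Continuous.measurable; unfold A0 S q; fun_prop
lemma measurable_A1 (K : ℝ) : Measurable (fun p : ℝ × ℝ => A1 K p.1 p.2) := by
  apply Continuous.measurable; unfold A1 S1 q; fun_prop
lemma measurable_A2 (K : ℝ) : Measurable (fun p : ℝ × ℝ => A2 K p.1 p.2) := by
  apply Continuous.measurable; unfold A2 S q1; fun_prop
lemma measurable_A3 (K : ℝ) : Measurable (fun p : ℝ × ℝ => A3 K p.1 p.2) := by
  apply Continuous.measurable; unfold A3 S2 q; fun_prop
lemma measurable_A4 (K : ℝ) : Measurable (fun p : ℝ × ℝ => A4 K p.1 p.2) := by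
  apply Continuous.measurable; unfold A4 S q2; fun_prop
lemma measurable_A5 (K : ℝ) : Measurable (fun p : ℝ × ℝ => A5 K p.1 p.2) := by
  apply Continuous.measurable; unfold A5 S1 q1; fun_prop

lemma F_eq_A0 {K x m : ℝ} (h0 : 0 < x) (h1 : x < 1) (hm : |m| < 1) : F K x m = A0 K x m := by
  unfold F Sp qp A0
  rw [if_pos ⟨h0, h1⟩, if_pos hm]

/-- the exponential rate -/
noncomputable def Lam (b : ℝ) : ℝ := L1 (3 + 2 * b) (3 + 2 * b + 6) + (8 + 6 * b) ^ 2

/-- the parameter `K` as a function of the speed -/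
noncomputable def KK (b : ℝ) : ℝ := 3 + 2 * b + 6

lemma KK_ge {b : ℝ} (hb : 0 ≤ b) : 1 ≤ KK b := by unfold KK; linarith

lemma Lam_nonneg {b : ℝ} (hb : 0 ≤ b) : 0 ≤ Lam b := by
  unfold Lam L1; positivity

lemma A_ineq {b x m : ℝ} (hb : 0 ≤ b) (hx0 : 0 < x) (hx1 : x < 1) (hm : |m| < 1) :
    -(Lam b * A0 (KK b) x m) ≤ A3 (KK b) x m + (1 / 4) * A4 (KK b) x m -
      (3 + 2 * b) * |A1 (KK b) x m| - b * |A2 (KK b) x m| :=
  prod_ineq hb hx0.le hx1.le hm.le

end Bump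

variable {Ω : Type*} [MeasurableSpace Ω] {P : Measure Ω}

namespace SolvesHW

variable {β : ℝ} {ν : Measure ℝ} {n : ℕ} {x₀ : Fin n → ℝ} {X : ℝ≥0 → Ω → Fin n → ℝ}

/-- sum of squared martingale increments -/
noncomputable def Qs (β : ℝ) (X : ℝ≥0 → Ω → Fin n → ℝ) (u u' : ℝ≥0) (ω : Ω) : ℝ :=
  ∑ l, (dM β X l u u' ω) ^ 2

omit [MeasurableSpace Ω] in
lemma sq_le_Qs (i : Fin n) (u u' : ℝ≥0) (ω : Ω) : (dM β X i u u' ω) ^ 2 ≤ Qs β X u u' ω :=
  Finset.single_le_sum (f := fun l => (dM β X l u u' ω) ^ 2) (fun _ _ => sq_nonneg _)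
    (Finset.mem_univ i)

omit [MeasurableSpace Ω] in
lemma Qs_nonneg (u u' : ℝ≥0) (ω : Ω) : 0 ≤ Qs β X u u' ω :=
  Finset.sum_nonneg fun _ _ => sq_nonneg _

omit [MeasurableSpace Ω] in
lemma eR_bound {Δ : Finset (Fin n)} (hΔ : Δ.Nonempty) {i : Fin n} (hi : i ∈ Δ) {u u' : ℝ≥0}
    {ω : Ω} (h : fMax Δ hΔ (X u ω) = X u ω i) :
    0 ≤ fMax Δ hΔ (X u' ω) - X u' ω i ∧
      (fMax Δ hΔ (X u' ω) - X u' ω i) ^ 2 ≤ 4 * Qs β X u u' ω := by
  have h0 : 0 ≤ fMax Δ hΔ (X u' ω) - X u' ω i := sub_nonneg.2 (Finset.le_sup' (X u' ω) hi)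
  refine ⟨h0, ?_⟩
  obtain ⟨l, hl, hl'⟩ := Finset.exists_mem_eq_sup' hΔ (X u' ω)
  have h1 : X u ω l ≤ X u ω i := by rw [← h]; exact Finset.le_sup' (X u ω) hl
  have h2 : fMax Δ hΔ (X u' ω) - X u' ω i ≤ dM β X l u u' ω - dM β X i u u' ω := by
    have : fMax Δ hΔ (X u' ω) = X u' ω l := hl'
    rw [this]; unfold dM M; linarith
  have h3 := sq_le_Qs (β := β) (X := X) l u u' ω
  have h4 := sq_le_Qs (β := β) (X := X) i u u' ω
  have h5 := pow_le_pow_left₀ h0 h2 2
  nlinarith [sq_nonneg (dM β X l u u' ω + dM β X i u u' ω)]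

omit [MeasurableSpace Ω] in
lemma eL_bound {Δ : Finset (Fin n)} (hΔ : Δ.Nonempty) {j : Fin n} (hj : j ∈ Δ) {u u' : ℝ≥0}
    {ω : Ω} (h : fMin Δ hΔ (X u ω) = X u ω j) :
    0 ≤ X u' ω j - fMin Δ hΔ (X u' ω) ∧
      (X u' ω j - fMin Δ hΔ (X u' ω)) ^ 2 ≤ 4 * Qs β X u u' ω := by
  have h0 : 0 ≤ X u' ω j - fMin Δ hΔ (X u' ω) := sub_nonneg.2 (Finset.inf'_le (X u' ω) hj)
  refine ⟨h0, ?_⟩
  obtain ⟨l, hl, hl'⟩ := Finset.exists_mem_eq_inf' hΔ (X u' ω)
  have h1 : X u ω j ≤ X u ω l := by rw [← h]; exact Finset.inf'_le (X u ω) hl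
  have h2 : X u' ω j - fMin Δ hΔ (X u' ω) ≤ dM β X j u u' ω - dM β X l u u' ω := by
    have : fMin Δ hΔ (X u' ω) = X u' ω l := hl'
    rw [this]; unfold dM M; linarith
  have h3 := sq_le_Qs (β := β) (X := X) l u u' ω
  have h4 := sq_le_Qs (β := β) (X := X) j u u' ω
  have h5 := pow_le_pow_left₀ h0 h2 2
  nlinarith [sq_nonneg (dM β X l u u' ω + dM β X j u u' ω)]

variable [IsProbabilityMeasure P]

lemma integrable_Qs (h : SolvesHW β ν x₀ P X) (u u' : ℝ≥0) : Integrable (Qs β X u u') P := by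
  unfold Qs
  exact integrable_finsetSum _ fun l _ => (h.dM_memLp l u u').integrable_sq

lemma integral_Qs (h : SolvesHW β ν x₀ P X) {u u' : ℝ≥0} (huu' : u ≤ u') :
    ∫ ω, Qs β X u u' ω ∂P = n * ((u' : ℝ) - u) := by
  unfold Qs
  rw [integral_finsetSum _ fun l _ => (h.dM_memLp l u u').integrable_sq]
  simp only [h.integral_dM_sq _ huu']
  simp
  ring

/-- the bad part of `Qs` -/
noncomputable def Qbad (β : ℝ) (X : ℝ≥0 → Ω → Fin n → ℝ) (η : ℝ) (u u' : ℝ≥0) (ω : Ω) : ℝ :=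
  if η ^ 2 < Qs β X u u' ω then Qs β X u u' ω else 0

lemma integrable_Qbad (h : SolvesHW β ν x₀ P X) (η : ℝ) (u u' : ℝ≥0) :
    Integrable (Qbad β X η u u') P := by
  have h1 := h.integrable_Qs u u'
  refine Integrable.mono' h1 ?_ (Eventually.of_forall fun ω => ?_)
  · have hm : AEMeasurable (Qs β X u u') P := h1.1.aemeasurable
    have hg : Measurable (fun z : ℝ => if η ^ 2 < z then z else 0) :=
      Measurable.ite (measurableSet_lt measurable_const measurable_id) measurable_id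
        measurable_const
    exact (hg.comp_aemeasurable hm).aestronglyMeasurable
  · unfold Qbad
    have := Qs_nonneg (β := β) (X := X) u u' ω
    split_ifs
    · rw [Real.norm_eq_abs, abs_of_nonneg this]
    · simpa using this

/-- One step inequality on the event where particle `i` is the rightmost particle of the left
group and `j` is the leftmost particle of the right group. -/
theorem one_step_ij [IsFiniteMeasure ν] (hν : FiniteSpeed ν)
    (h : SolvesHW β ν x₀ P X) (Δ₁ Δ₂ : Finset (Fin n)) (hΔ₁ : Δ₁.Nonempty) (hΔ₂ : Δ₂.Nonempty)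
    {i j : Fin n} (hi : i ∈ Δ₁) (hj : j ∈ Δ₂) {u u' : ℝ≥0} (huu' : u ≤ u')
    {A : Set Ω} (hA : MeasurableSet[h.filt u] A) {x m : Ω → ℝ} (hx : Measurable[h.filt u] x)
    (hm : Measurable[h.filt u] m) {ε : ℝ} (hε : 0 < ε)
    (hx0 : ∀ ω ∈ A, 0 < x ω) (hx1 : ∀ ω ∈ A, x ω < 1) (hm1 : ∀ ω ∈ A, |m ω| < 1)
    (hmax : ∀ ω ∈ A, fMax Δ₁ hΔ₁ (X u ω) = X u ω i)
    (hmin : ∀ ω ∈ A, fMin Δ₂ hΔ₂ (X u ω) = X u ω j)
    (hgap : ∀ ω ∈ A, ε ≤ X u ω j - X u ω i) {η : ℝ} (hη0 : 0 < η)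
    (hη : 9 * η ≤ 1 / Bump.KK (spd ν)) (hh : (u' : ℝ) - u ≤ η)
    {x' m' : Ω → ℝ} (mx' : Measurable x') (mm' : Measurable m')
    (hx' : ∀ ω ∈ A, x' ω = x ω + ((dM β X j u u' ω - dM β X i u u' ω) -
      ((X u' ω j - fMin Δ₂ hΔ₂ (X u' ω)) + (fMax Δ₁ hΔ₁ (X u' ω) - X u' ω i)) -
      3 * ((u' : ℝ) - u)))
    (hm' : ∀ ω ∈ A, m' ω = m ω + ((dM β X i u u' ω + dM β X j u u' ω) / 2 +
      ((fMax Δ₁ hΔ₁ (X u' ω) - X u' ω i) - (X u' ω j - fMin Δ₂ hΔ₂ (X u' ω))) / 2)) :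
    (1 - Bump.Lam (spd ν) * ((u' : ℝ) - u)) * ∫ ω in A, Bump.F (Bump.KK (spd ν)) (x ω) (m ω) ∂P -
      (8 * Bump.C0 (Bump.KK (spd ν)) ^ 2 / ε ^ 2 * ((u' : ℝ) - u) ^ 2 +
        600 * Bump.C0 (Bump.KK (spd ν)) ^ 2 * η *
          (∫ ω in A, Qs β X u u' ω ∂P + (2 * spd ν + 1) * ((u' : ℝ) - u) * P.real A) +
        600 * Bump.C0 (Bump.KK (spd ν)) ^ 2 * (1 + 1 / η ^ 2) * ∫ ω in A, Qbad β X η u u' ω ∂P) ≤
      ∫ ω in A, Bump.F (Bump.KK (spd ν)) (x' ω) (m' ω) ∂P := by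
  have hb : 0 ≤ spd ν := hν.spd_nonneg
  set b := spd ν with hbdef
  set K := Bump.KK b with hKdef
  have hK : 1 ≤ K := Bump.KK_ge hb
  have hK0 : 0 ≤ K := by linarith
  set C := Bump.C0 K with hCdef
  have hC0 : 0 ≤ C := by rw [hCdef]; unfold Bump.C0; positivity
  have huu'' : (u : ℝ) ≤ u' := by exact_mod_cast huu'
  set δ : ℝ := (u' : ℝ) - u with hδ
  have hδ0 : 0 ≤ δ := by rw [hδ]; linarith
  have hA' : MeasurableSet A := h.filt.le u A hA
  set eL : Ω → ℝ := fun ω => X u' ω j - fMin Δ₂ hΔ₂ (X u' ω) with heL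
  set eR : Ω → ℝ := fun ω => fMax Δ₁ hΔ₁ (X u' ω) - X u' ω i with heR
  have eL_int : Integrable eL P := (h.integrable_X j u').sub (h.integrable_fMin Δ₂ hΔ₂ u')
  have eR_int : Integrable eR P := (h.integrable_fMax Δ₁ hΔ₁ u').sub (h.integrable_X i u')
  -- the weights
  set a0 : Ω → ℝ := A.indicator fun ω => Bump.A0 K (x ω) (m ω) with ha0
  set a1 : Ω → ℝ := A.indicator fun ω => Bump.A1 K (x ω) (m ω) with ha1
  set a2 : Ω → ℝ := A.indicator fun ω => Bump.A2 K (x ω) (m ω) with ha2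
  set a3 : Ω → ℝ := A.indicator fun ω => Bump.A3 K (x ω) (m ω) with ha3
  set a4 : Ω → ℝ := A.indicator fun ω => Bump.A4 K (x ω) (m ω) with ha4
  set a5 : Ω → ℝ := A.indicator fun ω => Bump.A5 K (x ω) (m ω) with ha5
  have hxm : Measurable[h.filt u] (fun ω => (x ω, m ω)) := hx.prodMk hm
  have sm : ∀ {g : ℝ × ℝ → ℝ}, Measurable g →
      StronglyMeasurable[h.filt u] (A.indicator fun ω => g (x ω, m ω)) := by
    intro g hg
    exact ((hg.comp hxm).stronglyMeasurable).indicator hA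
  have bd : ∀ {g : ℝ → ℝ → ℝ}, (∀ ω ∈ A, |g (x ω) (m ω)| ≤ C * C) →
      ∀ ω, |A.indicator (fun ω => g (x ω) (m ω)) ω| ≤ C * C := by
    intro g hg ω
    by_cases hω : ω ∈ A
    · rw [indicator_of_mem hω]; exact hg ω hω
    · rw [indicator_of_notMem hω, abs_zero]; positivity
  have c0 : ∀ ω, |a0 ω| ≤ C * C := bd fun ω hω =>
    Bump.absmul (Bump.bS hK0 (hx0 ω hω).le (hx1 ω hω).le) (Bump.bq hK0 (hm1 ω hω).le)
  have c1 : ∀ ω, |a1 ω| ≤ C * C := bd fun ω hω =>
    Bump.absmul (Bump.bS1 hK0 (hx0 ω hω).le (hx1 ω hω).le) (Bump.bq hK0 (hm1 ω hω).le)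
  have c2 : ∀ ω, |a2 ω| ≤ C * C := bd fun ω hω =>
    Bump.absmul (Bump.bS hK0 (hx0 ω hω).le (hx1 ω hω).le) (Bump.bq1 hK0 (hm1 ω hω).le)
  have c3 : ∀ ω, |a3 ω| ≤ C * C := bd fun ω hω =>
    Bump.absmul (Bump.bS2 hK0 (hx0 ω hω).le (hx1 ω hω).le) (Bump.bq hK0 (hm1 ω hω).le)
  have c4 : ∀ ω, |a4 ω| ≤ C * C := bd fun ω hω =>
    Bump.absmul (Bump.bS hK0 (hx0 ω hω).le (hx1 ω hω).le) (Bump.bq2 hK0 (hm1 ω hω).le)
  have c5 : ∀ ω, |a5 ω| ≤ C * C := bd fun ω hω =>
    Bump.absmul (Bump.bS1 hK0 (hx0 ω hω).le (hx1 ω hω).le) (Bump.bq1 hK0 (hm1 ω hω).le)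
  have zz : ∀ {g : Ω → ℝ} (ω : Ω), A.indicator g ω ≠ 0 →
      fMax Δ₁ hΔ₁ (X u ω) = X u ω i ∧ fMin Δ₂ hΔ₂ (X u ω) = X u ω j := by
    intro g ω hne
    have hω : ω ∈ A := by
      by_contra hcon
      exact hne (indicator_of_notMem hcon _)
    exact ⟨hmax ω hω, hmin ω hω⟩
  obtain ⟨Mint, MG⟩ := h.integral_Main_ge hν Δ₁ Δ₂ hΔ₁ hΔ₂ i j huu' (a0 := a0) (a1 := a1)
    (a2 := a2) (a3 := a3) (a4 := a4) (a5 := a5) (C := C * C)
    (sm (Bump.measurable_A0 K)) (sm (Bump.measurable_A1 K)) (sm (Bump.measurable_A2 K))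
    (sm (Bump.measurable_A3 K)) (sm (Bump.measurable_A4 K)) (sm (Bump.measurable_A5 K))
    c0 c1 c2 c3 c4 c5 (fun ω hne => zz ω hne) (fun ω hne => zz ω hne)
  rw [← hbdef, ← hδ] at MG
  rw [← hδ] at Mint
  have int1 : ∀ {g : Ω → ℝ}, StronglyMeasurable[h.filt u] g → (∀ ω, |g ω| ≤ C * C) →
      Integrable g P := fun {g} hg hc => by
    simpa using integrable_bdd_mul (hg.mono (h.filt.le u)).aestronglyMeasurable hc
      (integrable_const (1 : ℝ))
  have ia0 := int1 (sm (Bump.measurable_A0 K)) c0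
  have ia1 := int1 (sm (Bump.measurable_A1 K)) c1
  have ia2 := int1 (sm (Bump.measurable_A2 K)) c2
  have ia3 := int1 (sm (Bump.measurable_A3 K)) c3
  have ia4 := int1 (sm (Bump.measurable_A4 K)) c4
  -- lower bound of the drift part
  have D1 : (1 - Bump.Lam b * δ) * ∫ ω, a0 ω ∂P ≤
      ∫ ω, (a0 ω + δ * (a3 ω + (1 / 4) * a4 ω - (3 + 2 * b) * |a1 ω| - b * |a2 ω|)) ∂P := by
    rw [← integral_const_mul]
    apply integral_mono (ia0.const_mul _)
    · refine ia0.add (Integrable.const_mul ?_ δ)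
      exact ((ia3.add (ia4.const_mul _)).sub (ia1.abs.const_mul _)).sub (ia2.abs.const_mul _)
    · intro ω
      show (1 - Bump.Lam b * δ) * a0 ω ≤
        a0 ω + δ * (a3 ω + (1 / 4) * a4 ω - (3 + 2 * b) * |a1 ω| - b * |a2 ω|)
      by_cases hω : ω ∈ A
      · simp only [ha0, ha1, ha2, ha3, ha4, indicator_of_mem hω]
        have := mul_le_mul_of_nonneg_left (Bump.A_ineq hb (hx0 ω hω) (hx1 ω hω) (hm1 ω hω)) hδ0
        linarith
      · simp only [ha0, ha1, ha2, ha3, ha4, indicator_of_notMem hω]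
        simp
  have D2 : ∫ ω, (|a3 ω| + |a4 ω|) * occ X (eqInd i j) u u' ω ∂P ≤
      8 * C ^ 2 / ε ^ 2 * δ ^ 2 := by
    have J0 : ∀ ω, 0 ≤ occ X (eqInd i j) u u' ω := by
      intro ω
      unfold occ
      exact intervalIntegral.integral_nonneg huu'' fun r _ => eqInd_nonneg i j _
    have J_int : Integrable (occ X (eqInd i j) u u') P :=
      h.integrable_occ (measurable_eqInd i j) (eqInd_le i j) huu''
    have ind_int : Integrable (fun ω => A.indicator (fun _ => (1 : ℝ)) ω *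
        occ X (eqInd i j) u u' ω) P := by
      refine integrable_bdd_mul (C := 1) ?_ (fun ω => ?_) J_int
      · exact (stronglyMeasurable_const.indicator hA').aestronglyMeasurable
      · by_cases hω : ω ∈ A <;> simp [hω]
    have s1 : ∫ ω, (|a3 ω| + |a4 ω|) * occ X (eqInd i j) u u' ω ∂P ≤
        ∫ ω, 2 * C ^ 2 * (A.indicator (fun _ => (1 : ℝ)) ω * occ X (eqInd i j) u u' ω) ∂P := by
      apply integral_mono
      · refine integrable_bdd_mul (C := C * C + C * C)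
          (ia3.abs.add ia4.abs).aestronglyMeasurable (fun ω => ?_) J_int
        rw [abs_of_nonneg (by positivity)]
        exact add_le_add (c3 ω) (c4 ω)
      · exact ind_int.const_mul _
      · intro ω
        show (|a3 ω| + |a4 ω|) * occ X (eqInd i j) u u' ω ≤
          2 * C ^ 2 * (A.indicator (fun _ => (1 : ℝ)) ω * occ X (eqInd i j) u u' ω)
        by_cases hω : ω ∈ A
        · rw [indicator_of_mem hω, one_mul]
          apply mul_le_mul_of_nonneg_right _ (J0 ω)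
          have := add_le_add (c3 ω) (c4 ω)
          linarith
        · simp only [ha3, ha4, indicator_of_notMem hω]
          simp
    rw [integral_const_mul] at s1
    have s2 := h.J_bound i j huu' hA hε hgap
    rw [← hδ] at s2
    refine s1.trans ?_
    have := mul_le_mul_of_nonneg_left s2 (by positivity : 0 ≤ 2 * C ^ 2)
    refine this.trans (le_of_eq ?_)
    ring
  -- pointwise bound
  have key : ∫ ω, (Bump.Main (a0 ω) (a1 ω) (a2 ω) (a3 ω) (a4 ω) (a5 ω) (dM β X i u u' ω)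
        (dM β X j u u' ω) (eL ω) (eR ω) δ -
        600 * C ^ 2 * η * (A.indicator (fun ω => Qs β X u u' ω + (eL ω + eR ω + δ)) ω) -
        600 * C ^ 2 * (1 + 1 / η ^ 2) * (A.indicator (Qbad β X η u u') ω)) ∂P ≤
      ∫ ω, A.indicator (fun ω => Bump.F K (x' ω) (m' ω)) ω ∂P := by
    apply integral_mono
    · refine (Mint.sub (Integrable.const_mul ?_ _)).sub (Integrable.const_mul ?_ _)
      · exact ((h.integrable_Qs u u').add ((eL_int.add eR_int).add (integrable_const _))).indicator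
          hA'
      · exact (h.integrable_Qbad η u u').indicator hA'
    · refine Integrable.indicator ?_ hA'
      refine Integrable.of_bound
        ((Bump.measurable_F K).comp (mx'.prodMk mm')).aestronglyMeasurable C
        (Eventually.of_forall fun ω => ?_)
      rw [Real.norm_eq_abs, abs_of_nonneg (Bump.F_nonneg hK0)]
      exact Bump.F_le hK0
    · intro ω
      show Bump.Main (a0 ω) (a1 ω) (a2 ω) (a3 ω) (a4 ω) (a5 ω) (dM β X i u u' ω)
        (dM β X j u u' ω) (eL ω) (eR ω) δ -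
        600 * C ^ 2 * η * (A.indicator (fun ω => Qs β X u u' ω + (eL ω + eR ω + δ)) ω) -
        600 * C ^ 2 * (1 + 1 / η ^ 2) * (A.indicator (Qbad β X η u u') ω) ≤
        A.indicator (fun ω => Bump.F K (x' ω) (m' ω)) ω
      by_cases hω : ω ∈ A
      · simp only [ha0, ha1, ha2, ha3, ha4, ha5, indicator_of_mem hω]
        rw [hx' ω hω, hm' ω hω]
        obtain ⟨l1, l2⟩ := eL_bound (β := β) (u' := u') hΔ₂ hj (hmin ω hω)
        obtain ⟨r1, r2⟩ := eR_bound (β := β) (u' := u') hΔ₁ hi (hmax ω hω)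
        exact Bump.step_det hK (hx0 ω hω) (hx1 ω hω) (hm1 ω hω) hη0 hη l1 r1 hδ0 hh
          (sq_le_Qs i u u' ω) (sq_le_Qs j u u' ω) l2 r2
      · simp only [ha0, ha1, ha2, ha3, ha4, ha5, indicator_of_notMem hω]
        simp [Bump.Main]
  rw [integral_indicator hA'] at key
  -- split the left side
  have iQ : Integrable (A.indicator (fun ω => Qs β X u u' ω + (eL ω + eR ω + δ))) P :=
    ((h.integrable_Qs u u').add ((eL_int.add eR_int).add (integrable_const _))).indicator hA'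
  have iB : Integrable (A.indicator (Qbad β X η u u')) P :=
    (h.integrable_Qbad η u u').indicator hA'
  have Msub : Integrable (fun ω => Bump.Main (a0 ω) (a1 ω) (a2 ω) (a3 ω) (a4 ω) (a5 ω)
      (dM β X i u u' ω) (dM β X j u u' ω) (eL ω) (eR ω) δ -
      600 * C ^ 2 * η * (A.indicator (fun ω => Qs β X u u' ω + (eL ω + eR ω + δ)) ω)) P :=
    Mint.sub (iQ.const_mul _)
  rw [integral_sub Msub (iB.const_mul _), integral_sub Mint (iQ.const_mul _), integral_const_mul,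
    integral_const_mul, integral_indicator hA', integral_indicator hA'] at key
  -- the excess terms
  have exc : ∫ ω in A, (Qs β X u u' ω + (eL ω + eR ω + δ)) ∂P ≤
      ∫ ω in A, Qs β X u u' ω ∂P + (2 * b + 1) * δ * P.real A := by
    have mi : StronglyMeasurable[h.filt u] (A.indicator fun _ => (1 : ℝ)) :=
      stronglyMeasurable_const.indicator hA
    have ci : ∀ ω, |A.indicator (fun _ => (1 : ℝ)) ω| ≤ 1 := by
      intro ω; by_cases hω : ω ∈ A <;> simp [hω]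
    have ni : ∀ ω, 0 ≤ A.indicator (fun _ => (1 : ℝ)) ω := by
      intro ω; by_cases hω : ω ∈ A <;> simp [hω]
    have r1 := h.pair_excess_max hν Δ₁ hΔ₁ i huu' mi ci ni (fun ω hne => (zz ω hne).1)
    have r2 := h.pair_excess_min hν Δ₂ hΔ₂ j huu' mi ci ni (fun ω hne => (zz ω hne).2)
    have ind : ∀ g : Ω → ℝ, ∫ ω, A.indicator (fun _ => (1 : ℝ)) ω * g ω ∂P = ∫ ω in A, g ω ∂P := by
      intro g
      rw [← integral_indicator hA']
      congr 1
      ext ω
      by_cases hω : ω ∈ A <;> simp [hω]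
    have pa : ∫ ω, A.indicator (fun _ => (1 : ℝ)) ω ∂P = P.real A := by
      rw [integral_indicator hA']
      simp
    rw [ind, pa, ← hbdef, ← hδ] at r1 r2
    have q1 : IntegrableOn (fun ω => eL ω + eR ω) A P := (eL_int.add eR_int).integrableOn
    have q2 : IntegrableOn (fun ω => eL ω + eR ω + δ) A P :=
      ((eL_int.add eR_int).add (integrable_const _)).integrableOn
    rw [integral_add (h.integrable_Qs u u').integrableOn q2,
      integral_add q1 (integrable_const _).integrableOn,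
      integral_add eL_int.integrableOn eR_int.integrableOn, setIntegral_const, smul_eq_mul]
    linarith
  have exc' := mul_le_mul_of_nonneg_left exc (by positivity : 0 ≤ 600 * C ^ 2 * η)
  have F0 : ∫ ω in A, Bump.F K (x ω) (m ω) ∂P = ∫ ω, a0 ω ∂P := by
    rw [ha0, integral_indicator hA']
    apply setIntegral_congr_fun hA'
    intro ω hω
    exact Bump.F_eq_A0 (hx0 ω hω) (hx1 ω hω) (hm1 ω hω)
  rw [F0]
  linarith only [key, exc', D1, D2, MG]

end SolvesHW

end Pool.Agent.H88.HW
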