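import Pool.Agent.H88.HW.Bump

/-!
Taylor lower bound for the bump function.
-/

open Set

namespace Pool.Agent.H88.HW.Bump

/-- Taylor remainder of `S` -/
def rS (K x d : ℝ) : ℝ :=
  (3 - 3 * K) + 4 * (3 * K - 1) * x - 10 * K * x ^ 2 + ((3 * K - 1) - 5 * K * x) * d - K * d ^ 2

/-- Taylor remainder of `q` -/
def rq (m d : ℝ) : ℝ := (12 * m - 20 * m ^ 3) + (3 - 15 * m ^ 2) * d - 6 * m * d ^ 2 - d ^ 3

lemma S_taylor (K x d : ℝ) :
    S K (x + d) = S K x + S1 K x * d + (1 / 2) * S2 K x * d ^ 2 + rS K x d * d ^ 3 := by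
  unfold S S1 S2 rS; ring

lemma q_taylor (m d : ℝ) :
    q (m + d) = q m + q1 m * d + (1 / 2) * q2 m * d ^ 2 + rq m d * d ^ 3 := by
  unfold q q1 q2 rq; ring

/-- second order Taylor polynomial of the product -/
noncomputable def T2 (K x m d d' : ℝ) : ℝ :=
  S K x * q m + S1 K x * q m * d + S K x * q1 m * d' + (1 / 2) * (S2 K x * q m) * d ^ 2 +
    (1 / 2) * (S K x * q2 m) * d' ^ 2 + S1 K x * q1 m * (d * d')

lemma prod_taylor (K x m d d' : ℝ) :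
    S K (x + d) * q (m + d') - T2 K x m d d' =
      (1 / 2) * (S1 K x * q2 m) * (d * d' ^ 2) + (1 / 2) * (S2 K x * q1 m) * (d ^ 2 * d') +
      (1 / 4) * (S2 K x * q2 m) * (d ^ 2 * d' ^ 2) + rS K x d * q (m + d') * d ^ 3 +
      (S K x + S1 K x * d + (1 / 2) * S2 K x * d ^ 2) * rq m d' * d' ^ 3 := by
  rw [S_taylor]
  have h := q_taylor m d'
  unfold T2
  linear_combination (S K x + S1 K x * d + (1 / 2) * S2 K x * d ^ 2) * h

/-- common bound -/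
noncomputable def C0 (K : ℝ) : ℝ := 100 * (1 + K)

lemma absmul {a b A B : ℝ} (ha : |a| ≤ A) (hb : |b| ≤ B) : |a * b| ≤ A * B := by
  rw [abs_mul]
  exact mul_le_mul ha hb (abs_nonneg _) ((abs_nonneg _).trans ha)

lemma abs_of_mem {x : ℝ} (h0 : 0 ≤ x) (h1 : x ≤ 1) : |x| ≤ 1 := by
  rw [abs_of_nonneg h0]; exact h1

section bounds

variable {K x m d : ℝ}

lemma bS (hK : 0 ≤ K) (h0 : 0 ≤ x) (h1 : x ≤ 1) : |S K x| ≤ C0 K := by
  unfold S C0
  have hy : |(1 - x) ^ 3| ≤ 1 := by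
    rw [abs_pow]; exact pow_le_one₀ (abs_nonneg _) (by rw [abs_of_nonneg] <;> linarith)
  have hx := abs_of_mem h0 h1
  have h2 : |1 + K * x| ≤ 1 + K := by
    rw [abs_of_nonneg (by positivity)]; nlinarith
  have := absmul (absmul hx h2) hy
  linarith

lemma bS1 (hK : 0 ≤ K) (h0 : 0 ≤ x) (h1 : x ≤ 1) : |S1 K x| ≤ C0 K := by
  unfold S1 C0
  have hy3 : 0 ≤ (1 - x) ^ 3 ∧ (1 - x) ^ 3 ≤ 1 :=
    ⟨pow_nonneg (by linarith) 3, pow_le_one₀ (by linarith) (by linarith)⟩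
  have hy2 : 0 ≤ (1 - x) ^ 2 ∧ (1 - x) ^ 2 ≤ 1 :=
    ⟨pow_nonneg (by linarith) 2, pow_le_one₀ (by linarith) (by linarith)⟩
  have hp : 0 ≤ x * (1 + K * x) ∧ x * (1 + K * x) ≤ 1 + K :=
    ⟨by positivity, by nlinarith [mul_nonneg hK (mul_nonneg h0 (sub_nonneg.2 h1))]⟩
  have hp' : 0 ≤ 1 + 2 * K * x ∧ 1 + 2 * K * x ≤ 1 + 2 * K := ⟨by positivity, by nlinarith⟩
  have t1 : 0 ≤ (1 + 2 * K * x) * (1 - x) ^ 3 ∧ (1 + 2 * K * x) * (1 - x) ^ 3 ≤ 1 + 2 * K :=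
    ⟨mul_nonneg hp'.1 hy3.1, by nlinarith [mul_le_mul hp'.2 hy3.2 hy3.1 (by positivity)]⟩
  have t2 : 0 ≤ x * (1 + K * x) * (1 - x) ^ 2 ∧ x * (1 + K * x) * (1 - x) ^ 2 ≤ 1 + K :=
    ⟨mul_nonneg hp.1 hy2.1, by nlinarith [mul_le_mul hp.2 hy2.2 hy2.1 (by positivity)]⟩
  rw [abs_le]
  constructor <;> nlinarith [t1.1, t1.2, t2.1, t2.2]

lemma bS2 (hK : 0 ≤ K) (h0 : 0 ≤ x) (h1 : x ≤ 1) : |S2 K x| ≤ C0 K := by
  unfold S2 C0
  have hy3 : 0 ≤ (1 - x) ^ 3 ∧ (1 - x) ^ 3 ≤ 1 :=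
    ⟨pow_nonneg (by linarith) 3, pow_le_one₀ (by linarith) (by linarith)⟩
  have hy2 : 0 ≤ (1 - x) ^ 2 ∧ (1 - x) ^ 2 ≤ 1 :=
    ⟨pow_nonneg (by linarith) 2, pow_le_one₀ (by linarith) (by linarith)⟩
  have hy1 : 0 ≤ 1 - x ∧ 1 - x ≤ 1 := ⟨by linarith, by linarith⟩
  have hp : 0 ≤ x * (1 + K * x) ∧ x * (1 + K * x) ≤ 1 + K :=
    ⟨by positivity, by nlinarith [mul_nonneg hK (mul_nonneg h0 (sub_nonneg.2 h1))]⟩
  have hp' : 0 ≤ 1 + 2 * K * x ∧ 1 + 2 * K * x ≤ 1 + 2 * K := ⟨by positivity, by nlinarith⟩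
  have t0 : 0 ≤ K * (1 - x) ^ 3 ∧ K * (1 - x) ^ 3 ≤ K :=
    ⟨mul_nonneg hK hy3.1, by nlinarith [mul_le_mul_of_nonneg_left hy3.2 hK]⟩
  have t1 : 0 ≤ (1 + 2 * K * x) * (1 - x) ^ 2 ∧ (1 + 2 * K * x) * (1 - x) ^ 2 ≤ 1 + 2 * K :=
    ⟨mul_nonneg hp'.1 hy2.1, by nlinarith [mul_le_mul hp'.2 hy2.2 hy2.1 (by positivity)]⟩
  have t2 : 0 ≤ x * (1 + K * x) * (1 - x) ∧ x * (1 + K * x) * (1 - x) ≤ 1 + K :=
    ⟨mul_nonneg hp.1 hy1.1, by nlinarith [mul_le_mul hp.2 hy1.2 hy1.1 (by positivity)]⟩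
  rw [abs_le]
  constructor <;> nlinarith [t0.1, t0.2, t1.1, t1.2, t2.1, t2.2]

lemma bq (hK : 0 ≤ K) (hm : |m| ≤ 1) : |q m| ≤ C0 K := by
  unfold q C0
  have h1 : m ^ 2 ≤ 1 := by rw [← sq_abs]; exact pow_le_one₀ (abs_nonneg _) hm
  have h2 : 0 ≤ m ^ 2 := sq_nonneg m
  have h3 : |(1 - m ^ 2) ^ 3| ≤ 1 := by
    rw [abs_pow]; exact pow_le_one₀ (abs_nonneg _) (by rw [abs_of_nonneg] <;> linarith)
  linarith

lemma bq1 (hK : 0 ≤ K) (hm : |m| ≤ 1) : |q1 m| ≤ C0 K := by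
  unfold q1 C0
  have h1 : m ^ 2 ≤ 1 := by rw [← sq_abs]; exact pow_le_one₀ (abs_nonneg _) hm
  have h2 : 0 ≤ m ^ 2 := sq_nonneg m
  have h3 : |(1 - m ^ 2) ^ 2| ≤ 1 := by
    rw [abs_pow]; exact pow_le_one₀ (abs_nonneg _) (by rw [abs_of_nonneg] <;> linarith)
  have h4 : |(-6 : ℝ)| ≤ 6 := by norm_num
  have := absmul (absmul h4 hm) h3
  linarith

lemma bq2 (hK : 0 ≤ K) (hm : |m| ≤ 1) : |q2 m| ≤ C0 K := by
  unfold q2 C0
  have h1 : m ^ 2 ≤ 1 := by rw [← sq_abs]; exact pow_le_one₀ (abs_nonneg _) hm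
  have h2 : 0 ≤ m ^ 2 := sq_nonneg m
  rw [abs_le]
  constructor <;> nlinarith [mul_nonneg h2 (sub_nonneg.2 h1)]

lemma brS (hK : 0 ≤ K) (h0 : 0 ≤ x) (h1 : x ≤ 1) (hd : |d| ≤ 1) : |rS K x d| ≤ C0 K := by
  unfold rS C0
  have hx := abs_of_mem h0 h1
  have hx2 : |x ^ 2| ≤ 1 := by rw [abs_pow]; exact pow_le_one₀ (abs_nonneg _) hx
  have hd2 : |d ^ 2| ≤ 1 := by rw [abs_pow]; exact pow_le_one₀ (abs_nonneg _) hd
  have a1 : |3 - 3 * K| ≤ 3 + 3 * K := by rw [abs_le]; constructor <;> linarith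
  have a2 : |4 * (3 * K - 1)| ≤ 4 * (3 * K + 1) := by rw [abs_le]; constructor <;> linarith
  have a3 : |10 * K| ≤ 10 * K := by rw [abs_of_nonneg]; positivity
  have a4 : |3 * K - 1| ≤ 3 * K + 1 := by rw [abs_le]; constructor <;> linarith
  have a5 : |5 * K * x| ≤ 5 * K := by
    rw [abs_of_nonneg (by positivity)]; nlinarith
  have a6 : |K| ≤ K := by rw [abs_of_nonneg hK]
  have b2 := absmul a2 hx
  have b3 := absmul a3 hx2
  have b4 : |(3 * K - 1 - 5 * K * x) * d| ≤ ((3 * K + 1) + 5 * K) * 1 :=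
    absmul ((abs_sub _ _).trans (add_le_add a4 a5)) hd
  have b5 := absmul a6 hd2
  rw [abs_le] at *
  constructor <;> linarith [a1.1, a1.2, b2.1, b2.2, b3.1, b3.2, b4.1, b4.2, b5.1, b5.2]

lemma brq (hK : 0 ≤ K) (hm : |m| ≤ 1) (hd : |d| ≤ 1) : |rq m d| ≤ C0 K := by
  unfold rq C0
  have hm2 : |m ^ 2| ≤ 1 := by rw [abs_pow]; exact pow_le_one₀ (abs_nonneg _) hm
  have hm3 : |m ^ 3| ≤ 1 := by rw [abs_pow]; exact pow_le_one₀ (abs_nonneg _) hm
  have hd2 : |d ^ 2| ≤ 1 := by rw [abs_pow]; exact pow_le_one₀ (abs_nonneg _) hd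
  have hd3 : |d ^ 3| ≤ 1 := by rw [abs_pow]; exact pow_le_one₀ (abs_nonneg _) hd
  have a1 : |3 - 15 * m ^ 2| ≤ 18 := by
    rw [abs_le] at hm2 ⊢; constructor <;> linarith [hm2.1, hm2.2]
  have b1 := absmul a1 hd
  have b2 := absmul hm hd2
  rw [abs_le] at *
  constructor <;> nlinarith [hm.1, hm.2, hm3.1, hm3.2, b1.1, b1.2, b2.1, b2.2, hd3.1, hd3.2]

lemma bq' (hK : 0 ≤ K) (hm : |m| ≤ 1) (hd : |d| ≤ 1) : |q (m + d)| ≤ C0 K := by
  unfold q C0
  have h1 : |m + d| ≤ 2 := (abs_add_le _ _).trans (by linarith)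
  have h2 : (m + d) ^ 2 ≤ 4 := by
    rw [← sq_abs]; nlinarith [abs_nonneg (m + d)]
  have h3 : 0 ≤ (m + d) ^ 2 := sq_nonneg _
  have h4 : |1 - (m + d) ^ 2| ≤ 3 := by rw [abs_le]; constructor <;> linarith
  have h5 : |(1 - (m + d) ^ 2) ^ 3| ≤ 3 ^ 3 := by
    rw [abs_pow]; exact pow_le_pow_left₀ (abs_nonneg _) h4 3
  linarith

end bounds

lemma poly_bound {K x m d d' : ℝ} (hK : 0 ≤ K) (h0 : 0 ≤ x) (h1 : x ≤ 1) (hm : |m| ≤ 1)
    (hd : |d| ≤ 1) (hd' : |d'| ≤ 1) :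
    |S K (x + d) * q (m + d') - T2 K x m d d'| ≤ 5 * C0 K ^ 2 * (|d| ^ 3 + |d'| ^ 3) := by
  rw [prod_taylor]
  set C := C0 K with hC
  have hC1 : 1 ≤ C := by rw [hC]; unfold C0; linarith
  set D := |d| ^ 3 + |d'| ^ 3 with hD
  have n1 := abs_nonneg d
  have n2 := abs_nonneg d'
  have p3 : 0 ≤ |d| ^ 3 := by positivity
  have p3' : 0 ≤ |d'| ^ 3 := by positivity
  have hD0 : 0 ≤ D := by positivity
  have f1 : |d * d' ^ 2| ≤ D := by
    rw [abs_mul, abs_pow]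
    rcases le_total |d| |d'| with h | h
    · have : |d| * |d'| ^ 2 ≤ |d'| * |d'| ^ 2 := mul_le_mul_of_nonneg_right h (by positivity)
      rw [hD]; nlinarith
    · have : |d| * |d'| ^ 2 ≤ |d| * |d| ^ 2 :=
        mul_le_mul_of_nonneg_left (pow_le_pow_left₀ n2 h 2) n1
      rw [hD]; nlinarith
  have f2 : |d ^ 2 * d'| ≤ D := by
    rw [abs_mul, abs_pow]
    rcases le_total |d| |d'| with h | h
    · have : |d| ^ 2 * |d'| ≤ |d'| ^ 2 * |d'| :=
        mul_le_mul_of_nonneg_right (pow_le_pow_left₀ n1 h 2) n2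
      rw [hD]; nlinarith
    · have : |d| ^ 2 * |d'| ≤ |d| ^ 2 * |d| := mul_le_mul_of_nonneg_left h (by positivity)
      rw [hD]; nlinarith
  have f3 : |d ^ 2 * d' ^ 2| ≤ D := by
    have : |d ^ 2 * d' ^ 2| = |d ^ 2 * d'| * |d'| := by
      rw [← abs_mul]; congr 1; ring
    rw [this]
    have h5 := abs_nonneg (d ^ 2 * d')
    nlinarith
  have f4 : |d ^ 3| ≤ D := by rw [abs_pow]; rw [hD]; linarith
  have f5 : |d' ^ 3| ≤ D := by rw [abs_pow]; rw [hD]; linarith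
  have d2 : |d ^ 2| ≤ 1 := by rw [abs_pow]; exact pow_le_one₀ (abs_nonneg _) hd
  have t1 : |(1 / 2) * (S1 K x * q2 m) * (d * d' ^ 2)| ≤ (1 / 2) * (C * C) * D :=
    absmul (absmul (by rw [abs_of_pos] <;> norm_num) (absmul (bS1 hK h0 h1) (bq2 hK hm))) f1
  have t2 : |(1 / 2) * (S2 K x * q1 m) * (d ^ 2 * d')| ≤ (1 / 2) * (C * C) * D :=
    absmul (absmul (by rw [abs_of_pos] <;> norm_num) (absmul (bS2 hK h0 h1) (bq1 hK hm))) f2
  have t3 : |(1 / 4) * (S2 K x * q2 m) * (d ^ 2 * d' ^ 2)| ≤ (1 / 4) * (C * C) * D :=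
    absmul (absmul (by rw [abs_of_pos] <;> norm_num) (absmul (bS2 hK h0 h1) (bq2 hK hm))) f3
  have t4 : |rS K x d * q (m + d') * d ^ 3| ≤ (C * C) * D :=
    absmul (absmul (brS hK h0 h1 hd) (bq' hK hm hd')) f4
  have u1 : |S K x + S1 K x * d + (1 / 2) * S2 K x * d ^ 2| ≤ C + C * 1 + (1 / 2) * C * 1 := by
    refine (abs_add_le _ _).trans (add_le_add ((abs_add_le _ _).trans (add_le_add ?_ ?_)) ?_)
    · exact bS hK h0 h1
    · exact absmul (bS1 hK h0 h1) hd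
    · exact absmul (absmul (by rw [abs_of_pos] <;> norm_num) (bS2 hK h0 h1)) d2
  have t5 : |(S K x + S1 K x * d + (1 / 2) * S2 K x * d ^ 2) * rq m d' * d' ^ 3| ≤
      ((C + C * 1 + (1 / 2) * C * 1) * C) * D :=
    absmul (absmul u1 (brq hK hm hd')) f5
  have hCD : 0 ≤ C * C * D := by positivity
  refine (abs_add_le _ _).trans ?_
  refine (add_le_add ((abs_add_le _ _).trans (add_le_add ((abs_add_le _ _).trans
    (add_le_add (abs_add_le _ _) le_rfl)) le_rfl)) le_rfl).trans ?_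
  nlinarith

/-- the positive part of the profile in the gap variable -/
noncomputable def Sp (K x : ℝ) : ℝ := if 0 < x ∧ x < 1 then S K x else 0
/-- the positive part of the profile in the midpoint variable -/
noncomputable def qp (m : ℝ) : ℝ := if |m| < 1 then q m else 0
/-- the bump function -/
noncomputable def F (K x m : ℝ) : ℝ := Sp K x * qp m

lemma Sp_nonneg {K x : ℝ} (hK : 0 ≤ K) : 0 ≤ Sp K x := by
  unfold Sp
  split_ifs with h
  · unfold S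
    have h0 := h.1.le
    have h1 : 0 ≤ 1 - x := by linarith [h.2]
    positivity
  · exact le_rfl

lemma q_nonneg {m : ℝ} (hm : |m| ≤ 1) : 0 ≤ q m := by
  unfold q
  have h1 : m ^ 2 ≤ 1 := by rw [← sq_abs]; exact pow_le_one₀ (abs_nonneg _) hm
  have : 0 ≤ 1 - m ^ 2 := by linarith
  positivity

lemma qp_nonneg {m : ℝ} : 0 ≤ qp m := by
  unfold qp
  split_ifs with h
  · exact q_nonneg h.le
  · exact le_rfl

lemma F_nonneg {K x m : ℝ} (hK : 0 ≤ K) : 0 ≤ F K x m := mul_nonneg (Sp_nonneg hK) qp_nonneg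

lemma F_le {K x m : ℝ} (hK : 0 ≤ K) : F K x m ≤ C0 K := by
  unfold F Sp qp
  have hC : 0 ≤ C0 K := by unfold C0; positivity
  split_ifs with h1 h2 h2
  · have a := bS hK h1.1.le h1.2.le
    have b : q m ≤ 1 := by
      unfold q
      have h3 : m ^ 2 ≤ 1 := by rw [← sq_abs]; exact pow_le_one₀ (abs_nonneg _) h2.le
      exact pow_le_one₀ (by linarith) (by nlinarith [sq_nonneg m])
    have c := q_nonneg h2.le
    have d := (le_abs_self _).trans a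
    nlinarith
  · simpa using hC
  · simpa using hC
  · simpa using hC

lemma F_ge_poly {K x m d d' : ℝ} (hK : 1 ≤ K) (h0 : 0 < x) (h1 : x < 1) (hm : |m| < 1)
    (hd : |d| ≤ 1 / K) (hd' : |d'| ≤ 1) :
    S K (x + d) * q (m + d') - 27 * C0 K * |d'| ^ 3 ≤ F K (x + d) (m + d') := by
  have hK0 : 0 < K := by linarith
  have hC : 0 ≤ C0 K := by unfold C0; positivity
  have hr : 0 ≤ 27 * C0 K * |d'| ^ 3 := by positivity
  have hdK : 1 / K ≤ 1 := by rw [div_le_one hK0]; exact hK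
  -- sign of S outside (0,1)
  have hSneg : ¬ (0 < x + d ∧ x + d < 1) → S K (x + d) ≤ 0 := by
    intro h
    unfold S
    rcases le_or_gt (x + d) 0 with h2 | h2
    · have h3 : -(1 / K) ≤ x + d := by
        have := neg_abs_le d
        linarith
      have h4 : 0 ≤ 1 + K * (x + d) := by
        have := mul_le_mul_of_nonneg_left h3 hK0.le
        rw [mul_neg, mul_one_div_cancel hK0.ne'] at this
        linarith
      have h5 : 0 ≤ 1 - (x + d) := by linarith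
      have : 0 ≤ (1 + K * (x + d)) * (1 - (x + d)) ^ 3 := by positivity
      nlinarith
    · have h3 : 1 ≤ x + d := by
        by_contra hcon
        exact h ⟨h2, not_le.1 hcon⟩
      have h4 : 0 ≤ (x + d) * (1 + K * (x + d)) := by positivity
      have h5 : (1 - (x + d)) ^ 3 ≤ 0 := by
        have : 1 - (x + d) ≤ 0 := by linarith
        nlinarith [sq_nonneg (1 - (x + d)), mul_nonneg_of_nonpos_of_nonpos this this,
          mul_nonpos_of_nonneg_of_nonpos (sq_nonneg (1 - (x + d))) this]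
      nlinarith
  have hqneg : ¬ |m + d'| < 1 → q (m + d') ≤ 0 ∧ |q (m + d')| ≤ 27 * |d'| ^ 3 := by
    intro h
    push Not at h
    have h2 : |m + d'| ≤ 1 + |d'| := (abs_add_le _ _).trans (by linarith)
    have h3 : 1 ≤ (m + d') ^ 2 := by rw [← sq_abs]; nlinarith
    have h4 : (m + d') ^ 2 - 1 ≤ 3 * |d'| := by
      rw [← sq_abs]; nlinarith [abs_nonneg d', abs_nonneg (m + d')]
    have e : q (m + d') = -((m + d') ^ 2 - 1) ^ 3 := by unfold q; ring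
    have h5 : 0 ≤ (m + d') ^ 2 - 1 := by linarith
    have h6 : ((m + d') ^ 2 - 1) ^ 3 ≤ (3 * |d'|) ^ 3 := pow_le_pow_left₀ h5 h4 3
    have h7 : 0 ≤ ((m + d') ^ 2 - 1) ^ 3 := by positivity
    constructor
    · rw [e]; linarith
    · rw [e, abs_neg, abs_of_nonneg h7]
      nlinarith
  unfold F Sp qp
  split_ifs with h2 h3 h3
  · linarith
  · -- S ≥ 0, q ≤ 0
    have hS : 0 ≤ S K (x + d) := by
      unfold S
      have h0 := h2.1.le
      have h1 : 0 ≤ 1 - (x + d) := by linarith [h2.2]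
      positivity
    have := (hqneg h3).1
    nlinarith
  · have hS := hSneg h2
    have := q_nonneg h3.le
    nlinarith
  · have hS := hSneg h2
    obtain ⟨hq1, hq2⟩ := hqneg h3
    -- bound |S| by C0
    have hSb : |S K (x + d)| ≤ C0 K := by
      have hd1 : |d| ≤ 1 := hd.trans hdK
      unfold S C0
      have a1 : |x + d| ≤ 2 := (abs_add_le _ _).trans (by rw [abs_of_pos h0]; linarith)
      have hxd : -1 ≤ d ∧ d ≤ 1 := abs_le.1 hd1
      have hdlow : -(1 / K) ≤ d := by linarith [neg_abs_le d]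
      have hdup : d ≤ 1 / K := by linarith [le_abs_self d]
      have a2 : |1 + K * (x + d)| ≤ 2 + K := by
        have e1 : K * (1 / K) = 1 := mul_one_div_cancel hK0.ne'
        have e2 : K * d ≤ 1 := by nlinarith
        have e3 : -1 ≤ K * d := by nlinarith
        have e4 : 0 ≤ K * x := by positivity
        have e5 : K * x ≤ K := by nlinarith
        rw [abs_le]
        constructor <;> nlinarith
      have a3 : |1 - (x + d)| ≤ 2 := by rw [abs_le]; constructor <;> linarith [hxd.1, hxd.2]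
      have a4 : |(1 - (x + d)) ^ 3| ≤ 2 ^ 3 := by
        rw [abs_pow]; exact pow_le_pow_left₀ (abs_nonneg _) a3 3
      have := absmul (absmul a1 a2) a4
      linarith
    have hSq : S K (x + d) * q (m + d') ≤ C0 K * (27 * |d'| ^ 3) :=
      (le_abs_self _).trans (absmul hSb hq2)
    linarith

/-- Taylor lower bound for the bump function -/
lemma F_taylor {K x m d d' : ℝ} (hK : 1 ≤ K) (h0 : 0 < x) (h1 : x < 1) (hm : |m| < 1)
    (hd : |d| ≤ 1 / K) (hd' : |d'| ≤ 1) :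
    T2 K x m d d' - 6 * C0 K ^ 2 * (|d| ^ 3 + |d'| ^ 3) ≤ F K (x + d) (m + d') := by
  have hK0 : 0 < K := by linarith
  have hdK : 1 / K ≤ 1 := by rw [div_le_one hK0]; exact hK
  have h2 := F_ge_poly hK h0 h1 hm hd hd'
  have h3 := poly_bound hK0.le h0.le h1.le hm.le (hd.trans hdK) hd'
  have h4 := (abs_le.1 h3).1
  have hC : 27 ≤ C0 K := by unfold C0; linarith
  have p3 : 0 ≤ |d| ^ 3 := by positivity
  have p3' : 0 ≤ |d'| ^ 3 := by positivity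
  nlinarith [mul_nonneg (mul_nonneg (by linarith : 0 ≤ C0 K) (sub_nonneg.2 hC)) p3',
    mul_nonneg (sq_nonneg (C0 K)) p3]

end Pool.Agent.H88.HW.Bump
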